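import Pool.Graph.R_pool_sql_team_39128cda.Lib.helper26_.Berge

/-! Matchings covering a given set of vertices. -/

set_option autoImplicit false

open scoped Classical

namespace Pool.Agent.H8.HV

variable {V : Type}

/-- a vertex which need not be covered -/
def Fr (U : Finset V) (e : ℕ) (a : V ⊕ Fin e) : Prop := ∀ v, a = Sum.inl v → v ∉ U

/-- the graph for Tutte's theorem -/
def Aux (H : SimpleGraph V) (U : Finset V) (e : ℕ) : SimpleGraph (V ⊕ Fin e) where
  Adj a b := a ≠ b ∧ ((∃ v w, a = Sum.inl v ∧ b = Sum.inl w ∧ H.Adj v w) ∨ (Fr U e a ∧ Fr U e b))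
  symm := ⟨fun _ _ h => ⟨h.1.symm, h.2.imp (fun ⟨v, w, h1, h2, h3⟩ => ⟨w, v, h2, h1, h3.symm⟩)
    fun h => ⟨h.2, h.1⟩⟩⟩
  loopless := ⟨fun _ h => h.1 rfl⟩

theorem cover [Fintype V] (H : SimpleGraph V) (U : Finset V) :
    (∃ f : V → V, (∀ v, f (f v) = v) ∧ (∀ v, f v ≠ v → H.Adj v (f v)) ∧ ∀ v ∈ U, f v ≠ v) ∨
    ∃ (S : Finset V) (K : Finset (Finset V)), S.card < K.card ∧
      (∀ C ∈ K, C.Nonempty ∧ C ⊆ U ∧ Disjoint C S ∧ ∀ v ∈ C, ∀ w, H.Adj v w → w ∈ C ∨ w ∈ S) ∧
      (K : Set (Finset V)).PairwiseDisjoint id := by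
  obtain ⟨e, he⟩ : ∃ e : ℕ, Even (Fintype.card (V ⊕ Fin e) + 0) := by
    rcases Nat.even_or_odd (Fintype.card V) with h | h
    · exact ⟨0, by simpa using h⟩
    · exact ⟨1, by simpa using h.add_one⟩
  rcases Pool.Agent.Lib.helper26.Berge.tb (Aux H U e) 0 he with ⟨f, h1, h2, h3⟩ | ⟨S, K, h1, h2, h3⟩
  · left
    have h4 : ∀ a, f a ≠ a := by
      intro a ha
      have h5 := Finset.card_eq_zero.1 (Nat.le_zero.1 h3)
      have : a ∈ (Finset.univ.filter fun v => f v = v) := Finset.mem_filter.2 ⟨Finset.mem_univ _, ha⟩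
      rw [h5] at this
      simp at this
    have hex : ∀ v : V, ∃ w : V, (f (Sum.inl v) = Sum.inl w ∧ H.Adj v w) ∨
        (w = v ∧ ¬ ∃ w', f (Sum.inl v) = Sum.inl w' ∧ H.Adj v w') := by
      intro v
      by_cases h : ∃ w', f (Sum.inl v) = Sum.inl w' ∧ H.Adj v w'
      · obtain ⟨w, hw⟩ := h
        exact ⟨w, Or.inl hw⟩
      · exact ⟨v, Or.inr ⟨rfl, h⟩⟩
    choose g hg using hex
    have hg1 : ∀ v, g v ≠ v → f (Sum.inl v) = Sum.inl (g v) ∧ H.Adj v (g v) := fun v hv =>
      (hg v).resolve_right fun h => hv h.1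
    refine ⟨g, fun v => ?_, fun v hv => (hg1 v hv).2, fun v hv hgv => ?_⟩
    · by_cases hv : g v = v
      · rw [hv, hv]
      · obtain ⟨h5, h6⟩ := hg1 v hv
        have h7 : f (Sum.inl (g v)) = Sum.inl v := by rw [← h5, h1]
        rcases hg (g v) with h8 | h8
        · rw [h7] at h8
          exact (Sum.inl_injective h8.1).symm
        · exact absurd ⟨v, h7, h6.symm⟩ h8.2
    · rcases hg v with h5 | h5
      · rw [hgv] at h5
        exact H.loopless.irrefl v h5.2
      · apply h5.2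
        have h6 := h2 _ (h4 (Sum.inl v))
        rcases h6.2 with ⟨v', w, h7, h8, h9⟩ | h7
        · rw [← Sum.inl_injective h7] at h9
          exact ⟨w, h8, h9⟩
        · exact absurd hv (h7.1 v rfl)
  · right
    obtain ⟨P, hP⟩ : ∃ P : Finset (V ⊕ Fin e) → Prop, ∀ C, P C ↔ ∀ a ∈ C, ¬ Fr U e a :=
      ⟨_, fun _ => Iff.rfl⟩
    set K1 : Finset (Finset (V ⊕ Fin e)) := K.filter P with hK1
    have hK1c : K.card ≤ K1.card + 1 := by
      have h4 : (K.filter fun C => ¬ P C).card ≤ 1 := by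
        refine Finset.card_le_one.2 fun C hC C' hC' => ?_
        rw [Finset.mem_filter] at hC hC'
        by_contra hne
        obtain ⟨hC1, hC2⟩ := hC
        obtain ⟨hC1', hC2'⟩ := hC'
        rw [hP] at hC2 hC2'
        push Not at hC2 hC2'
        obtain ⟨a, ha, haF⟩ := hC2
        obtain ⟨b, hb, hbF⟩ := hC2'
        have hd : Disjoint C C' := h3 hC1 hC1' hne
        have hab : a ≠ b := fun h => Finset.disjoint_left.1 hd ha (h ▸ hb)
        rcases (h2 C hC1).2.2 a ha b ⟨hab, Or.inr ⟨haF, hbF⟩⟩ with h | h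
        · exact Finset.disjoint_left.1 hd h hb
        · exact Finset.disjoint_left.1 (h2 C' hC1').2.1 hb h
      have h5 := Finset.card_filter_add_card_filter_not (s := K) P
      rw [← hK1] at h5
      omega
    have hel : ∀ C ∈ K1, ∀ a ∈ C, ∃ v ∈ U, a = Sum.inl v := by
      intro C hC a ha
      have h4 := (hP C).1 (Finset.mem_filter.1 hC).2 a ha
      unfold Fr at h4
      push Not at h4
      obtain ⟨v, h5, h6⟩ := h4
      exact ⟨v, h6, h5⟩
    set pr : Finset (V ⊕ Fin e) → Finset V := fun C => Finset.univ.filter fun v => Sum.inl v ∈ C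
      with hpr
    have mpr : ∀ C v, v ∈ pr C ↔ Sum.inl v ∈ C := by
      intro C v
      simp [hpr]
    refine ⟨pr S, K1.image pr, ?_, ?_, ?_⟩
    · have h4 : (pr S).card ≤ S.card := by
        refine Finset.card_le_card_of_injOn Sum.inl (fun v hv => ?_) (Sum.inl_injective.injOn)
        exact (mpr S v).1 hv
      have h5 : (K1.image pr).card = K1.card := by
        refine Finset.card_image_of_injOn fun C hC C' hC' he => ?_
        by_contra hne
        have hd : Disjoint C C' :=
          h3 (Finset.mem_filter.1 hC).1 (Finset.mem_filter.1 hC').1 hne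
        obtain ⟨a, ha⟩ : C.Nonempty := by
          rw [Finset.nonempty_iff_ne_empty]
          rintro rfl
          have := (h2 _ (Finset.mem_filter.1 hC).1).1
          simp at this
        obtain ⟨v, hv, rfl⟩ := hel C hC a ha
        have h6 : v ∈ pr C' := by
          rw [← he]
          exact (mpr C v).2 ha
        exact Finset.disjoint_left.1 hd ha ((mpr C' v).1 h6)
      omega
    · intro C' hC'
      obtain ⟨C, hC, rfl⟩ := Finset.mem_image.1 hC'
      have hCK := (Finset.mem_filter.1 hC).1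
      refine ⟨?_, fun v hv => ?_, ?_, fun v hv w hw => ?_⟩
      · obtain ⟨a, ha⟩ : C.Nonempty := by
          rw [Finset.nonempty_iff_ne_empty]
          rintro rfl
          have := (h2 _ hCK).1
          simp at this
        obtain ⟨v, hv, rfl⟩ := hel C hC a ha
        exact ⟨v, (mpr C v).2 ha⟩
      · obtain ⟨u, hu, hu'⟩ := hel C hC _ ((mpr C v).1 hv)
        rw [Sum.inl_injective hu']
        exact hu
      · rw [Finset.disjoint_left]
        intro v hv hv'
        exact Finset.disjoint_left.1 (h2 C hCK).2.1 ((mpr C v).1 hv) ((mpr S v).1 hv')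
      · have h4 : (Aux H U e).Adj (Sum.inl v) (Sum.inl w) :=
          ⟨fun h => hw.ne (Sum.inl_injective h), Or.inl ⟨v, w, rfl, rfl, hw⟩⟩
        rcases (h2 C hCK).2.2 _ ((mpr C v).1 hv) _ h4 with h | h
        · exact Or.inl ((mpr C w).2 h)
        · exact Or.inr ((mpr S w).2 h)
    · intro C hC C' hC' hne
      rw [Finset.mem_coe] at hC hC'
      obtain ⟨D, hD, rfl⟩ := Finset.mem_image.1 hC
      obtain ⟨D', hD', rfl⟩ := Finset.mem_image.1 hC'
      have hne' : D ≠ D' := fun h => hne (by rw [h])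
      have hd : Disjoint D D' := h3 (Finset.mem_filter.1 hD).1 (Finset.mem_filter.1 hD').1 hne'
      change Disjoint (pr D) (pr D')
      rw [Finset.disjoint_left]
      intro v hv hv'
      exact Finset.disjoint_left.1 hd ((mpr D v).1 hv) ((mpr D' v).1 hv')

end Pool.Agent.H8.HV
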