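import Pool.Agent.H8.HV.Fan
import Pool.Agent.H8.HV.Cover

/-! Labels for the edges between the vertices with large labels. -/

set_option autoImplicit false

open scoped Classical

namespace Pool.Agent.H8.HV

variable {V : Type}

theorem greedy (r : V → V → Prop) (hs : ∀ x y, r x y → r y x) (f : V → ℕ) (L : V → Finset ℕ) :
    ∀ (n : ℕ) (A : Finset V), A.card = n → (∀ x ∈ A, ∀ y ∈ A, r x y → f x ≠ f y) →
    (∀ z ∈ A, (A.filter fun y => f z < f y ∧ r z y).card < (L z).card) →
    ∃ col : V → ℕ, (∀ z ∈ A, col z ∈ L z) ∧ ∀ x ∈ A, ∀ y ∈ A, r x y → col x ≠ col y := by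
  intro n
  induction n with
  | zero =>
    intro A hA _ _
    rw [Finset.card_eq_zero] at hA
    subst hA
    exact ⟨fun _ => 0, by simp, by simp⟩
  | succ n ih =>
    intro A hA hne hL
    obtain ⟨z, hz, hmin⟩ := Finset.exists_min_image A f (Finset.card_pos.1 (by omega))
    obtain ⟨col, h1, h2⟩ := ih (A.erase z) (by rw [Finset.card_erase_of_mem hz, hA]; rfl)
      (fun x hx y hy => hne x (Finset.mem_of_mem_erase hx) y (Finset.mem_of_mem_erase hy))
      (fun x hx => lt_of_le_of_lt (Finset.card_le_card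
        (Finset.filter_subset_filter _ (Finset.erase_subset _ _)))
        (hL x (Finset.mem_of_mem_erase hx)))
    have h3 : (((A.erase z).filter fun y => r z y).image col).card < (L z).card := by
      refine lt_of_le_of_lt (Finset.card_image_le.trans (Finset.card_le_card fun y hy => ?_))
        (hL z hz)
      rw [Finset.mem_filter, Finset.mem_erase] at hy
      rw [Finset.mem_filter]
      exact ⟨hy.1.2, lt_of_le_of_ne (hmin y hy.1.2) (hne z hz y hy.1.2 hy.2), hy.2⟩
    obtain ⟨c, hc, hc'⟩ := Finset.exists_mem_notMem_of_card_lt_card h3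
    have hnb : ∀ y ∈ A, y ≠ z → r z y → col y ≠ c := by
      intro y hy hyz hr e
      exact hc' (Finset.mem_image.2 ⟨y, Finset.mem_filter.2 ⟨Finset.mem_erase.2 ⟨hyz, hy⟩, hr⟩, e⟩)
    refine ⟨Function.update col z c, fun x hx => ?_, fun x hx y hy hr => ?_⟩
    · by_cases e : x = z
      · rw [e, Function.update_self]
        exact hc
      · rw [Function.update_of_ne e]
        exact h1 x (Finset.mem_erase.2 ⟨e, hx⟩)
    · have hxy : x ≠ y := fun e => hne x hx y hy hr (by rw [e])
      by_cases ex : x = z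
      · have ey : y ≠ z := fun e => hxy (ex.trans e.symm)
        rw [ex, Function.update_self, Function.update_of_ne ey]
        exact (hnb y hy ey (ex ▸ hr)).symm
      · by_cases ey : y = z
        · rw [ey, Function.update_self, Function.update_of_ne ex]
          exact hnb x hx ex (hs _ _ (ey ▸ hr))
        · rw [Function.update_of_ne ex, Function.update_of_ne ey]
          exact h2 x (Finset.mem_erase.2 ⟨ex, hx⟩) y (Finset.mem_erase.2 ⟨ey, hy⟩) hr

/-- the labels below `N` used at `z` -/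
noncomputable def Us (N : ℕ) (m : ℕ → V → V) (z : V) : Finset ℕ :=
  (Finset.range N).filter fun a => m a z ≠ z

/-- a new label -/
theorem pc_update {G : SimpleGraph V} {N : ℕ} {m : ℕ → V → V} (h : PC G N m) (s : ℕ) (hs : s < N)
    (f : V → V) (hf : ∀ v, f (f v) = v) (ha : ∀ v, f v ≠ v → G.Adj v (f v))
    (hd : ∀ v, f v ≠ v → ∀ a, m a v ≠ f v) : PC G N (Function.update m s f) := by
  refine ⟨fun a v => ?_, fun a v => ?_, fun a b v => ?_⟩
  · by_cases e : a = s
    · rw [e, Function.update_self, hf]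
    · rw [Function.update_of_ne e, h.inv]
  · by_cases e : a = s
    · rw [e, Function.update_self]
      exact fun h => ⟨ha v h, hs⟩
    · rw [Function.update_of_ne e]
      exact h.adj a v
  · intro h1 h2
    by_cases e : a = s
    · by_cases e' : b = s
      · rw [e, e']
      · rw [e, Function.update_self] at h1
        rw [e, Function.update_self, Function.update_of_ne e'] at h2
        exact absurd h2.symm (hd v h1 b)
    · by_cases e' : b = s
      · rw [Function.update_of_ne e] at h1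
        rw [Function.update_of_ne e, e', Function.update_self] at h2
        exact absurd h2 (hd v (h2 ▸ h1) a)
      · rw [Function.update_of_ne e] at h1
        rw [Function.update_of_ne e, Function.update_of_ne e'] at h2
        exact h.inj a b v h1 h2

theorem us_update {N : ℕ} {m : ℕ → V → V} (s : ℕ) (hs : s < N) (hm : ∀ v, m s v = v) (f : V → V)
    (z : V) : (Us N (Function.update m s f) z).card = (Us N m z).card + if f z ≠ z then 1 else 0 := by
  have hns : s ∉ Us N m z := fun h => (Finset.mem_filter.1 h).2 (hm z)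
  by_cases hz : f z ≠ z
  · rw [if_pos hz, ← Finset.card_insert_of_notMem hns]
    congr 1
    ext a
    unfold Us
    rw [Finset.mem_filter, Finset.mem_insert, Finset.mem_filter, Finset.mem_range]
    by_cases e : a = s
    · rw [e, Function.update_self]
      simp [hz, hs]
    · rw [Function.update_of_ne e]
      simp [e]
  · rw [if_neg hz, Nat.add_zero]
    congr 1
    ext a
    unfold Us
    rw [Finset.mem_filter, Finset.mem_filter]
    by_cases e : a = s
    · rw [e, Function.update_self, hm]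
      push Not at hz
      simp [hz]
    · rw [Function.update_of_ne e]

variable [Fintype V]

theorem sstep (G : SimpleGraph V) (Z : Finset V) (j : V → ℕ) (k s : ℕ)
    (hk : ∀ z ∈ Z, j z ≤ k)
    (hprop : ∀ u ∈ Z, ∀ v ∈ Z, G.Adj u v → j u ≠ j v)
    (hmax : ∀ i, ∀ A ⊆ Z, (∀ a ∈ A, i ≤ j a) → (∀ a ∈ A, ∀ b ∈ A, ¬ G.Adj a b) →
      A.card ≤ (Z.filter fun z => j z = i).card)
    (m : ℕ → V → V) (hm : PC G (k + 1) m) (hmZ : ∀ a v, m a v ≠ v → v ∈ Z ∧ a ≤ j v ∧ s + 1 ≤ a)
    (W : Finset V) (hW : ∀ z ∈ W, z ∈ Z ∧ j z = s + 1 + (Us (k + 1) m z).card) :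
    ∃ f : V → V, (∀ v, f (f v) = v) ∧ (∀ v, f v ≠ v → G.Adj v (f v) ∧ v ∈ Z ∧ s ≤ j v ∧
      ∀ a, m a v ≠ f v) ∧ ∀ v ∈ W, f v ≠ v := by
  let H : SimpleGraph V :=
    { Adj := fun u v => G.Adj u v ∧ (u ∈ Z ∧ v ∈ Z) ∧ (s ≤ j u ∧ s ≤ j v) ∧
        (∀ a, m a u ≠ v) ∧ ∀ a, m a v ≠ u
      symm := ⟨fun _ _ h => ⟨h.1.symm, h.2.1.symm, h.2.2.1.symm, h.2.2.2.2, h.2.2.2.1⟩⟩
      loopless := ⟨fun u h => G.loopless.irrefl u h.1⟩ }
  rcases cover H W with ⟨f, h1, h2, h3⟩ | ⟨S, K, h1, h2, h3⟩
  · exact ⟨f, h1, fun v hv => ⟨(h2 v hv).1, (h2 v hv).2.1.1, (h2 v hv).2.2.1.1,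
      (h2 v hv).2.2.2.1⟩, h3⟩
  exfalso
  have hrep : ∀ C : Finset V, ∃ z, C ∈ K → z ∈ C ∧ ∀ w ∈ C, j z ≤ j w := by
    intro C
    by_cases hC : C ∈ K
    · obtain ⟨z, hz, hz'⟩ := Finset.exists_min_image C j (h2 C hC).1
      exact ⟨z, fun _ => ⟨hz, hz'⟩⟩
    · by_cases hV : Nonempty V
      · obtain ⟨z⟩ := hV
        exact ⟨z, fun h => absurd h hC⟩
      · exfalso
        have hK0 : K.Nonempty := Finset.card_pos.1 (by omega)
        obtain ⟨C', hC'⟩ := hK0
        obtain ⟨v, -⟩ := (h2 C' hC').1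
        exact hV ⟨v⟩
  choose ρ hρ using hrep
  set A : Finset V := K.image ρ with hA
  have hAc : A.card = K.card := by
    refine Finset.card_image_of_injOn fun C hC C' hC' e => ?_
    by_contra hne
    have hd : Disjoint C C' := h3 hC hC' hne
    have h4 : ρ C ∈ C' := by
      change ρ C = ρ C' at e
      rw [e]
      exact (hρ C' hC').1
    exact Finset.disjoint_left.1 hd (hρ C hC).1 h4
  have hAK : ∀ z ∈ A, ∃ C ∈ K, z ∈ C ∧ z ∉ S ∧ (∀ w ∈ C, j z ≤ j w) ∧ ρ C = z := by
    intro z hz
    obtain ⟨C, hC, rfl⟩ := Finset.mem_image.1 hz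
    exact ⟨C, hC, (hρ C hC).1, fun h => Finset.disjoint_left.1 (h2 C hC).2.2.1 (hρ C hC).1 h,
      (hρ C hC).2, rfl⟩
  have hAW : ∀ z ∈ A, z ∈ W := by
    intro z hz
    obtain ⟨C, hC, hzC, -⟩ := hAK z hz
    exact (h2 C hC).2.1 hzC
  have hAZ : ∀ z ∈ A, z ∈ Z := fun z hz => (hW z (hAW z hz)).1
  have hAs : ∀ z ∈ A, s + 1 ≤ j z := fun z hz => by
    have := (hW z (hAW z hz)).2
    omega
  -- adjacent representatives are joined by used edges
  have hused : ∀ x ∈ A, ∀ y ∈ A, G.Adj x y → ∃ a, m a x = y := by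
    intro x hx y hy hxy
    by_contra hcon
    push Not at hcon
    obtain ⟨C, hC, hxC, hxS, -, e1⟩ := hAK x hx
    obtain ⟨C', hC', hyC', hyS, -, e2⟩ := hAK y hy
    have hH : H.Adj x y := ⟨hxy, ⟨hAZ x hx, hAZ y hy⟩,
      ⟨by have := hAs x hx; omega, by have := hAs y hy; omega⟩, hcon, fun a e =>
        hcon a (by rw [← e, hm.inv])⟩
    rcases (h2 C hC).2.2.2 x hxC y hH with h | h
    · have hne : C ≠ C' := fun e => hxy.ne (by rw [← e1, ← e2, e])
      exact Finset.disjoint_left.1 (h3 hC hC' hne) h hyC'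
    · exact hyS h
  set L : V → Finset ℕ := fun z => (Finset.Ico s (j z)).filter fun i =>
    ¬ ∃ a, m a z ≠ z ∧ j (m a z) = i with hL
  have hlist : ∀ z ∈ A, (A.filter fun y => j z < j y ∧ G.Adj z y).card < (L z).card := by
    intro z hz
    have hc := (hW z (hAW z hz)).2
    set Up : Finset ℕ := (Us (k + 1) m z).filter fun a => j z < j (m a z) with hUp
    set Lo : Finset ℕ := (Us (k + 1) m z).filter fun a => ¬ j z < j (m a z) with hLo
    have h4 : Up.card + Lo.card = (Us (k + 1) m z).card :=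
      Finset.card_filter_add_card_filter_not _
    have h5 : (A.filter fun y => j z < j y ∧ G.Adj z y).card ≤ Up.card := by
      have h6 : (A.filter fun y => j z < j y ∧ G.Adj z y) ⊆ Up.image fun a => m a z := by
        intro y hy
        rw [Finset.mem_filter] at hy
        obtain ⟨a, ha⟩ := hused z hz y hy.1 hy.2.2
        have hne : m a z ≠ z := by rw [ha]; exact hy.2.2.ne'
        refine Finset.mem_image.2 ⟨a, Finset.mem_filter.2 ⟨Finset.mem_filter.2
          ⟨Finset.mem_range.2 (hm.adj a z hne).2, hne⟩, ?_⟩, ha⟩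
        rw [ha]
        exact hy.2.1
      exact (Finset.card_le_card h6).trans Finset.card_image_le
    have h6 : ((Finset.Ico s (j z)).filter fun i => ∃ a, m a z ≠ z ∧ j (m a z) = i).card ≤
        Lo.card := by
      have h7 : ((Finset.Ico s (j z)).filter fun i => ∃ a, m a z ≠ z ∧ j (m a z) = i) ⊆
          Lo.image fun a => j (m a z) := by
        intro i hi
        rw [Finset.mem_filter, Finset.mem_Ico] at hi
        obtain ⟨⟨hi1, hi2⟩, a, ha, hai⟩ := hi
        refine Finset.mem_image.2 ⟨a, Finset.mem_filter.2 ⟨Finset.mem_filter.2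
          ⟨Finset.mem_range.2 (hm.adj a z ha).2, ha⟩, ?_⟩, hai⟩
        rw [hai]
        omega
      exact (Finset.card_le_card h7).trans Finset.card_image_le
    have h7 := Finset.card_filter_add_card_filter_not (s := Finset.Ico s (j z))
      (fun i => ∃ a, m a z ≠ z ∧ j (m a z) = i)
    rw [Nat.card_Ico] at h7
    have h8 : (L z).card = ((Finset.Ico s (j z)).filter fun i =>
      ¬ ∃ a, m a z ≠ z ∧ j (m a z) = i).card := rfl
    omega
  obtain ⟨col, hc1, hc2⟩ := greedy G.Adj (fun _ _ h => h.symm) j L A.card A rfl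
    (fun x hx y hy h => hprop x (hAZ x hx) y (hAZ y hy) h) hlist
  -- every colour class is at most as large as a part of the barrier
  have hcl : ∀ i, (A.filter fun z => col z = i).card ≤ (S.filter fun w => j w = i).card := by
    intro i
    set B : Finset V := A.filter fun z => col z = i with hB
    set I : Finset V := Z.filter fun z => j z = i with hI
    set N : Finset V := I.filter fun w => ∃ b ∈ B, G.Adj b w with hN
    have hBi : ∀ b ∈ B, b ∈ A ∧ s ≤ i ∧ i < j b ∧ ∀ a, m a b ≠ b → j (m a b) ≠ i := by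
      intro b hb
      obtain ⟨hb1, hb2⟩ := Finset.mem_filter.1 hb
      have h4 := hc1 b hb1
      rw [hb2, hL] at h4
      obtain ⟨h5, h6⟩ := Finset.mem_filter.1 h4
      rw [Finset.mem_Ico] at h5
      exact ⟨hb1, h5.1, h5.2, fun a ha e => h6 ⟨a, ha, e⟩⟩
    have hNS : N ⊆ S.filter fun w => j w = i := by
      intro w hw
      obtain ⟨hw1, b, hb, hbw⟩ := Finset.mem_filter.1 hw
      obtain ⟨hw2, hw3⟩ := Finset.mem_filter.1 hw1
      obtain ⟨hb1, hb2, hb3, hb4⟩ := hBi b hb
      obtain ⟨C, hC, hbC, -, hmin, -⟩ := hAK b hb1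
      have hun : ∀ a, m a b ≠ w := by
        intro a e
        have hne : m a b ≠ b := by rw [e]; exact hbw.ne'
        exact hb4 a hne (by rw [e, hw3])
      have hH : H.Adj b w := ⟨hbw, ⟨hAZ b hb1, hw2⟩, ⟨by omega, by omega⟩, hun, fun a e =>
        hun a (by rw [← e, hm.inv])⟩
      rw [Finset.mem_filter]
      refine ⟨?_, hw3⟩
      rcases (h2 C hC).2.2.2 b hbC w hH with h | h
      · have := hmin w h
        omega
      · exact h
    refine le_trans ?_ (Finset.card_le_card hNS)
    have hind := hmax i ((I \ N) ∪ B) (by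
      intro x hx
      rcases Finset.mem_union.1 hx with h | h
      · exact (Finset.mem_filter.1 (Finset.mem_sdiff.1 h).1).1
      · exact hAZ x (hBi x h).1) (by
      intro x hx
      rcases Finset.mem_union.1 hx with h | h
      · exact (Finset.mem_filter.1 (Finset.mem_sdiff.1 h).1).2.ge
      · exact (hBi x h).2.2.1.le) (by
      intro x hx y hy hxy
      rcases Finset.mem_union.1 hx with h | h <;> rcases Finset.mem_union.1 hy with h' | h'
      · have e1 := Finset.mem_filter.1 (Finset.mem_sdiff.1 h).1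
        have e2 := Finset.mem_filter.1 (Finset.mem_sdiff.1 h').1
        exact hprop x e1.1 y e2.1 hxy (e1.2.trans e2.2.symm)
      · exact (Finset.mem_sdiff.1 h).2 (Finset.mem_filter.2 ⟨(Finset.mem_sdiff.1 h).1, y, h',
          hxy.symm⟩)
      · exact (Finset.mem_sdiff.1 h').2 (Finset.mem_filter.2 ⟨(Finset.mem_sdiff.1 h').1, x, h,
          hxy⟩)
      · exact hc2 x (hBi x h).1 y (hBi y h').1 hxy
          ((Finset.mem_filter.1 h).2.trans (Finset.mem_filter.1 h').2.symm))
    rw [← hI, Finset.card_union_of_disjoint] at hind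
    · have h4 : (I \ N).card = I.card - N.card :=
        Finset.card_sdiff_of_subset (Finset.filter_subset _ _)
      have h5 : N.card ≤ I.card := Finset.card_le_card (Finset.filter_subset _ _)
      omega
    · rw [Finset.disjoint_left]
      intro x hx hx'
      have e1 := (Finset.mem_filter.1 (Finset.mem_sdiff.1 hx).1).2
      have e2 := (hBi x hx').2.2.1
      omega
  have h4 : A.card = ∑ i ∈ Finset.range (k + 1), (A.filter fun z => col z = i).card := by
    refine Finset.card_eq_sum_card_fiberwise fun z hz => ?_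
    have h5 := hc1 z hz
    rw [hL] at h5
    obtain ⟨h5, -⟩ := Finset.mem_filter.1 h5
    rw [Finset.mem_Ico] at h5
    have h6 := hk z (hAZ z hz)
    rw [Finset.mem_coe, Finset.mem_range]
    omega
  have h5 : ∑ i ∈ Finset.range (k + 1), (S.filter fun w => j w = i).card ≤ S.card := by
    rw [← Finset.card_biUnion]
    · refine Finset.card_le_card fun w hw => ?_
      obtain ⟨i, -, hi⟩ := Finset.mem_biUnion.1 hw
      exact (Finset.mem_filter.1 hi).1
    · intro i _ i' _ hne
      change Disjoint (S.filter fun w => j w = i) (S.filter fun w => j w = i')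
      rw [Finset.disjoint_left]
      intro w hw hw'
      exact hne ((Finset.mem_filter.1 hw).2.symm.trans (Finset.mem_filter.1 hw').2)
  have h6 := Finset.sum_le_sum fun i (_ : i ∈ Finset.range (k + 1)) => hcl i
  omega

theorem spart (G : SimpleGraph V) (Z : Finset V) (j : V → ℕ) (k : ℕ)
    (hk : ∀ z ∈ Z, j z ≤ k)
    (hprop : ∀ u ∈ Z, ∀ v ∈ Z, G.Adj u v → j u ≠ j v)
    (hmax : ∀ i, ∀ A ⊆ Z, (∀ a ∈ A, i ≤ j a) → (∀ a ∈ A, ∀ b ∈ A, ¬ G.Adj a b) →
      A.card ≤ (Z.filter fun z => j z = i).card) :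
    ∃ m : ℕ → V → V, PC G (k + 1) m ∧ (∀ a v, m a v ≠ v → v ∈ Z ∧ a ≤ j v) ∧
      ∀ z ∈ Z, j z ≤ (Us (k + 1) m z).card := by
  suffices h : ∀ s ≤ k + 1, ∃ m : ℕ → V → V, PC G (k + 1) m ∧
      (∀ a v, m a v ≠ v → v ∈ Z ∧ a ≤ j v ∧ k + 1 - s ≤ a) ∧
      ∀ z ∈ Z, j z ≤ k + 1 - s + (Us (k + 1) m z).card by
    obtain ⟨m, h1, h2, h3⟩ := h (k + 1) le_rfl
    exact ⟨m, h1, fun a v hv => ⟨(h2 a v hv).1, (h2 a v hv).2.1⟩, fun z hz => by
      have := h3 z hz
      omega⟩
  intro s
  induction s with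
  | zero =>
    intro _
    refine ⟨fun _ v => v, ⟨fun _ _ => rfl, fun _ _ h => absurd rfl h, fun _ _ _ h => absurd rfl h⟩,
      fun _ _ h => absurd rfl h, fun z hz => ?_⟩
    have := hk z hz
    omega
  | succ s ih =>
    intro hs
    obtain ⟨m, h1, h2, h3⟩ := ih (by omega)
    obtain ⟨t, ht⟩ : ∃ t, t = k + 1 - (s + 1) := ⟨_, rfl⟩
    have ht1 : k + 1 - s = t + 1 := by omega
    rw [ht1] at h2 h3
    rw [← ht]
    set W : Finset V := Z.filter fun z => j z = t + 1 + (Us (k + 1) m z).card with hW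
    obtain ⟨f, hf1, hf2, hf3⟩ := sstep G Z j k t hk hprop hmax m h1 h2 W
      (fun z hz => Finset.mem_filter.1 hz)
    have hmt : ∀ v, m t v = v := by
      intro v
      by_contra hv
      have := (h2 t v hv).2.2
      omega
    refine ⟨Function.update m t f, pc_update h1 t (by omega) f hf1 (fun v hv => (hf2 v hv).1)
      (fun v hv => (hf2 v hv).2.2.2), fun a v => ?_, fun z hz => ?_⟩
    · by_cases e : a = t
      · rw [e, Function.update_self]
        exact fun hv => ⟨(hf2 v hv).2.1, (hf2 v hv).2.2.1, le_rfl⟩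
      · rw [Function.update_of_ne e]
        intro hv
        have := h2 a v hv
        exact ⟨this.1, this.2.1, by omega⟩
    · rw [us_update t (by omega) hmt f z]
      have := h3 z hz
      by_cases e : j z = t + 1 + (Us (k + 1) m z).card
      · rw [if_pos (hf3 z (Finset.mem_filter.2 ⟨hz, e⟩))]
        omega
      · omega

end Pool.Agent.H8.HV
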