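import Mathlib

/-! Incomplete proper edge colourings as families of involutions; Kempe walks (after the library
module `Lib.H8.Viz`, here for all vertex sets); multi-fans. -/

set_option autoImplicit false

open scoped Classical

namespace Pool.Agent.H8.HV

variable {V : Type}

/-- `m a v` is the neighbour of `v` along colour `a`, or `v` if `a` is missing at `v`. -/
structure PC (G : SimpleGraph V) (Δ : ℕ) (m : ℕ → V → V) : Prop where
  inv : ∀ a v, m a (m a v) = v
  adj : ∀ a v, m a v ≠ v → G.Adj v (m a v) ∧ a < Δ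
  inj : ∀ a b v, m a v ≠ v → m a v = m b v → a = b

def Col (m : ℕ → V → V) (u v : V) : Prop := u ≠ v ∧ ∃ a, m a u = v

def Full (G : SimpleGraph V) (Δ : ℕ) (D : V → V → Prop) (m : ℕ → V → V) : Prop :=
  PC G Δ m ∧ ∀ u v, D u v ↔ Col m u v

structure Hole (G : SimpleGraph V) (Δ : ℕ) (D : V → V → Prop) (m : ℕ → V → V) (x y : V) :
    Prop where
  pc : PC G Δ m
  adj : G.Adj x y
  unc : ∀ a, m a x ≠ y
  dom : ∀ u v, D u v ↔ Col m u v ∨ (u = x ∧ v = y) ∨ (u = y ∧ v = x)

variable {G : SimpleGraph V} {Δ : ℕ} {D : V → V → Prop} {m : ℕ → V → V} {x y : V}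

theorem Hole.symm (h : Hole G Δ D m x y) : Hole G Δ D m y x where
  pc := h.pc
  adj := h.adj.symm
  unc a e := h.unc a (by rw [← e, h.pc.inv])
  dom u v := by rw [h.dom]; tauto

noncomputable def add (m : ℕ → V → V) (a : ℕ) (x y : V) : ℕ → V → V := fun c v =>
  if c = a ∧ v = x then y else if c = a ∧ v = y then x else m c v

theorem Hole.add (h : Hole G Δ D m x y) {a : ℕ} (ha : a < Δ) (hx : m a x = x) (hy : m a y = y) :
    Full G Δ D (add m a x y) := by
  have hne := h.adj.ne
  have hi := h.pc.inv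
  have hj := h.pc.inj
  have hu := h.unc
  have hu' := h.symm.unc
  refine ⟨⟨fun c v => ?_, fun c v => ?_, fun c d v => ?_⟩, fun u v => ?_⟩
  · unfold HV.add
    grind
  · unfold HV.add
    split_ifs with h1 h2
    · obtain ⟨rfl, rfl⟩ := h1
      exact fun _ => ⟨h.adj, ha⟩
    · obtain ⟨rfl, rfl⟩ := h2
      exact fun _ => ⟨h.adj.symm, ha⟩
    · exact h.pc.adj c v
  · unfold HV.add
    grind
  · rw [h.dom]
    unfold Col HV.add
    constructor
    · rintro (⟨h1, c, h2⟩ | ⟨rfl, rfl⟩ | ⟨rfl, rfl⟩)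
      · exact ⟨h1, c, by grind⟩
      · exact ⟨hne, a, by simp⟩
      · exact ⟨hne.symm, a, by simp [hne.symm]⟩
    · rintro ⟨h1, c, h2⟩
      by_cases e1 : c = a ∧ u = x
      · grind
      by_cases e2 : c = a ∧ u = y
      · grind
      exact Or.inl ⟨h1, c, by grind⟩

noncomputable def shift (m : ℕ → V → V) (a : ℕ) (x y : V) : ℕ → V → V := fun c v =>
  if c = a ∧ v = x then y else if c = a ∧ v = y then x else if c = a ∧ v = m a x then v else m c v

theorem Hole.shift (h : Hole G Δ D m x y) {a : ℕ} (hx : m a x ≠ x) (hy : m a y = y) :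
    Hole G Δ D (shift m a x y) x (m a x) := by
  have hne := h.adj.ne
  have hi := h.pc.inv
  have hj := h.pc.inj
  have hu := h.unc
  have hu' := h.symm.unc
  have ha := h.pc.adj a x hx
  refine ⟨⟨fun c v => ?_, fun c v => ?_, fun c d v => ?_⟩, ha.1, fun c => ?_, fun u v => ?_⟩
  · unfold HV.shift
    grind
  · unfold HV.shift
    split_ifs with h1 h2 h3
    · obtain ⟨rfl, rfl⟩ := h1
      exact fun _ => ⟨h.adj, ha.2⟩
    · obtain ⟨rfl, rfl⟩ := h2
      exact fun _ => ⟨h.adj.symm, ha.2⟩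
    · exact fun h => absurd rfl h
    · exact h.pc.adj c v
  · unfold HV.shift
    grind
  · unfold HV.shift
    grind
  · rw [h.dom]
    unfold Col HV.shift
    constructor
    · rintro (⟨h1, c, h2⟩ | ⟨rfl, rfl⟩ | ⟨rfl, rfl⟩)
      · by_cases e1 : c = a ∧ (u = x ∨ u = m a x)
        · grind
        · exact Or.inl ⟨h1, c, by grind⟩
      · exact Or.inl ⟨hne, a, by simp⟩
      · exact Or.inl ⟨hne.symm, a, by simp [hne.symm]⟩
    · rintro (⟨h1, c, h2⟩ | ⟨rfl, rfl⟩ | ⟨rfl, rfl⟩)
      · by_cases e1 : c = a ∧ (u = x ∨ u = y)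
        · grind
        · exact Or.inl ⟨h1, c, by grind⟩
      · exact Or.inl ⟨hx.symm, a, rfl⟩
      · exact Or.inl ⟨hx, a, hi _ _⟩

def Closed (m : ℕ → V → V) (a b : ℕ) (C : Set V) : Prop := ∀ v ∈ C, m a v ∈ C ∧ m b v ∈ C

noncomputable def swp (m : ℕ → V → V) (a b : ℕ) (C : Set V) : ℕ → V → V := fun c v =>
  if v ∈ C then m (Equiv.swap a b c) v else m c v

theorem swp_hole (h : Hole G Δ D m x y) {a b : ℕ} (ha : a < Δ) (hb : b < Δ) {C : Set V}
    (hC : Closed m a b C) : Hole G Δ D (swp m a b C) x y := by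
  classical
  have hi := h.pc.inv
  have key : ∀ c v, (c = a ∨ c = b) → (m c v ∈ C ↔ v ∈ C) := by
    intro c v hc
    refine ⟨fun hv => ?_, fun hv => ?_⟩
    · have := hC _ hv
      rcases hc with rfl | rfl
      · simpa [hi] using this.1
      · simpa [hi] using this.2
    · rcases hc with rfl | rfl
      exacts [(hC v hv).1, (hC v hv).2]
  have col : ∀ u v, (∃ c, swp m a b C c u = v) ↔ ∃ c, m c u = v := by
    intro u v
    unfold swp
    by_cases hu : u ∈ C
    · simp only [hu, if_true]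
      exact ⟨fun ⟨c, hc⟩ => ⟨_, hc⟩, fun ⟨c, hc⟩ => ⟨Equiv.swap a b c, by simpa using hc⟩⟩
    · simp only [hu, if_false]
  refine ⟨⟨fun c v => ?_, fun c v => ?_, fun c d v => ?_⟩, h.adj, fun c e => ?_, fun u v => ?_⟩
  · unfold swp
    by_cases hc : c = a ∨ c = b
    · have hc' : Equiv.swap a b c = a ∨ Equiv.swap a b c = b := by
        rcases hc with rfl | rfl <;> simp
      by_cases hv : v ∈ C
      · simp only [hv, if_true, (key _ v hc').2 hv, hi]
      · simp only [hv, if_false, mt (key _ v hc).1 hv, hi]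
    · push Not at hc
      simp only [Equiv.swap_apply_of_ne_of_ne hc.1 hc.2, ite_self, hi]
  · unfold swp
    split_ifs with hv
    · intro hne
      refine ⟨(h.pc.adj _ v hne).1, ?_⟩
      by_cases hc : c = a ∨ c = b
      · rcases hc with rfl | rfl <;> assumption
      · push Not at hc
        rw [Equiv.swap_apply_of_ne_of_ne hc.1 hc.2] at hne
        exact (h.pc.adj _ v hne).2
    · exact h.pc.adj c v
  · unfold swp
    split_ifs with hv
    · exact fun h1 h2 => (Equiv.swap a b).injective (h.pc.inj _ _ v h1 h2)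
    · exact h.pc.inj c d v
  · obtain ⟨c', hc'⟩ := (col x y).1 ⟨c, e⟩
    exact h.unc c' hc'
  · rw [h.dom]
    unfold Col
    rw [col]

/-- Kempe swap followed by colouring the hole. -/
theorem finish (h : Hole G Δ D m x y) {a b : ℕ} (ha : a < Δ) (hb : b < Δ) (hx : m a x = x)
    (hy : m b y = y) {C : Set V} (hC : Closed m a b C) (hyC : y ∈ C) (hxC : x ∉ C) :
    ∃ m', Full G Δ D m' ∧ ∀ c v, v ∉ C → v ≠ x → m' c v = m c v := by
  refine ⟨_, (swp_hole h ha hb hC).add ha (by simp [swp, hxC, hx]) (by simp [swp, hyC, hy]), ?_⟩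
  intro c v hv hvx
  have : v ≠ y := fun e => hv (e ▸ hyC)
  simp [add, swp, hv, hvx, this]

/-! Kempe walks -/

def cl (a b l : ℕ) : ℕ := if l % 2 = 0 then a else b

def wk (m : ℕ → V → V) (a b : ℕ) (z : V) : ℕ → V
  | 0 => z
  | l + 1 => m (cl a b l) (wk m a b z l)

theorem cl_two (a b l : ℕ) : cl a b (l + 2) = cl a b l := by simp [cl]

theorem cl_or (a b l : ℕ) : (cl a b l = a ∧ cl a b (l + 1) = b) ∨
    (cl a b l = b ∧ cl a b (l + 1) = a) := by
  unfold cl
  rcases Nat.mod_two_eq_zero_or_one l with h | h <;> simp [h, Nat.add_mod]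

variable {a b : ℕ} {z : V}

theorem wk_back (hi : ∀ a v, m a (m a v) = v) (l : ℕ) :
    m (cl a b (l + 2)) (wk m a b z (l + 1)) = wk m a b z l := by
  rw [cl_two, wk, hi]

theorem closed_le (hi : ∀ a v, m a (m a v) = v) (hz : m b z = z) (P : ℕ → Prop)
    (hd : ∀ k, P (k + 1) → P k)
    (hu : ∀ k, P k → ∃ k', P k' ∧ wk m a b z (k + 1) = wk m a b z k') :
    Closed m a b {v | ∃ k, P k ∧ v = wk m a b z k} := by
  rintro v ⟨k, hk, rfl⟩
  have h1 : ∃ k', P k' ∧ m (cl a b k) (wk m a b z k) = wk m a b z k' := hu k hk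
  have h2 : ∃ k', P k' ∧ m (cl a b (k + 1)) (wk m a b z k) = wk m a b z k' := by
    cases k with
    | zero => exact ⟨0, hk, by simpa [cl, wk] using hz⟩
    | succ k => exact ⟨k, hd k hk, wk_back hi k⟩
  rcases cl_or a b k with ⟨e1, e2⟩ | ⟨e1, e2⟩
  · rw [e1] at h1; rw [e2] at h2; exact ⟨h1, h2⟩
  · rw [e1] at h1; rw [e2] at h2; exact ⟨h2, h1⟩

def comp (m : ℕ → V → V) (a b : ℕ) (z : V) : Set V := {v | ∃ k, True ∧ v = wk m a b z k}

theorem mem_comp (k : ℕ) : wk m a b z k ∈ comp m a b z := ⟨k, trivial, rfl⟩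

theorem comp_closed (hi : ∀ a v, m a (m a v) = v) (hz : m b z = z) :
    Closed m a b (comp m a b z) :=
  closed_le hi hz _ (fun _ _ => trivial) fun k _ => ⟨k + 1, trivial, rfl⟩

theorem Closed.cl {C : Set V} (hC : Closed m a b C) {v : V} (hv : v ∈ C) (l : ℕ) :
    m (cl a b l) v ∈ C := by
  rcases cl_or a b l with ⟨e1, -⟩ | ⟨e1, -⟩ <;> rw [e1]
  exacts [(hC v hv).1, (hC v hv).2]

theorem Closed.symm {C : Set V} (hC : Closed m a b C) : Closed m b a C :=
  fun v hv => (hC v hv).symm

theorem Closed.fwd {C : Set V} (hC : Closed m a b C) (hz : z ∈ C) : ∀ l, wk m a b z l ∈ C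
  | 0 => hz
  | l + 1 => hC.cl (hC.fwd hz l) l

theorem Closed.bwd (hi : ∀ a v, m a (m a v) = v) {C : Set V} (hC : Closed m a b C) :
    ∀ l, wk m a b z l ∈ C → z ∈ C
  | 0, h => h
  | l + 1, h => hC.bwd hi l (by rw [← wk_back hi l]; exact hC.cl h _)

theorem stuck (hi : ∀ a v, m a (m a v) = v) (hz : m b z = z) {l : ℕ}
    (hl : wk m a b z (l + 1) = wk m a b z l) (n : ℕ) : ∃ k, k ≤ l ∧ wk m a b z n = wk m a b z k := by
  refine (closed_le hi hz (· ≤ l) (fun k hk => by omega) fun k hk => ?_).fwd ⟨0, by omega, rfl⟩ n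
  rcases hk.lt_or_eq with h | rfl
  exacts [⟨k + 1, h, rfl⟩, ⟨k, le_rfl, hl⟩]

theorem end_idx (hi : ∀ a v, m a (m a v) = v) (hz : m b z = z) {u : V} (hu : u ∈ comp m a b z)
    (hne : u ≠ z) (he : m a u = u ∨ m b u = u) :
    ∃ i, wk m a b z i = u ∧ wk m a b z (i + 1) = wk m a b z i ∧
      ∀ l < i, wk m a b z (l + 1) ≠ wk m a b z l := by
  classical
  have hex : ∃ k, wk m a b z k = u := by obtain ⟨k, -, hk⟩ := hu; exact ⟨k, hk.symm⟩
  have h1 := Nat.find_spec hex
  have h2 := fun k => Nat.find_min hex (m := k)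
  generalize Nat.find hex = i at h1 h2
  refine ⟨i, h1, ?_, fun l hl e => ?_⟩
  · cases i with
    | zero => exact absurd h1.symm hne
    | succ i =>
      have h3 := wk_back (a := a) (b := b) (z := z) hi i
      have h4 := h2 i (by omega)
      rw [wk, h1]
      rw [h1] at h3
      rcases cl_or a b (i + 1) with ⟨e1, e2⟩ | ⟨e1, e2⟩ <;> rw [e1] <;> rw [e2] at h3 <;> grind
  · obtain ⟨k, hk, e'⟩ := stuck hi hz e i
    exact h2 k (by omega) (e'.symm.trans h1)

theorem two_ends (hi : ∀ a v, m a (m a v) = v) (hz : m b z = z) {u v : V}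
    (hu : u ∈ comp m a b z) (hv : v ∈ comp m a b z) (hu1 : u ≠ z) (hv1 : v ≠ z)
    (hu2 : m a u = u ∨ m b u = u) (hv2 : m a v = v ∨ m b v = v) : u = v := by
  obtain ⟨i, h1, h2, h3⟩ := end_idx hi hz hu hu1 hu2
  obtain ⟨j, g1, g2, g3⟩ := end_idx hi hz hv hv1 hv2
  rcases lt_trichotomy i j with h | rfl | h
  exacts [absurd h2 (g3 i h), h1.symm.trans g1, absurd g2 (h3 j h)]

theorem distinct (hi : ∀ a v, m a (m a v) = v) (hz : m b z = z) {L : ℕ}
    (hL : ∀ l < L, wk m a b z (l + 1) ≠ wk m a b z l) :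
    ∀ j ≤ L, ∀ i < j, wk m a b z i ≠ wk m a b z j := by
  intro j
  induction j using Nat.strong_induction_on with
  | _ j ih =>
    intro hj i hij e
    obtain ⟨j, rfl⟩ : ∃ k, j = k + 1 := ⟨j - 1, by omega⟩
    have h1 := wk_back (a := a) (b := b) (z := z) hi j
    rw [← e] at h1
    have h0 := hL j (by omega)
    by_cases hp : (j + 2) % 2 = i % 2
    · have : cl a b (j + 2) = cl a b i := by simp only [cl, hp]
      rw [this] at h1
      have h2 : wk m a b z (i + 1) = wk m a b z j := h1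
      rcases lt_trichotomy (i + 1) j with h | h | h
      · exact ih j (by omega) (by omega) _ h h2
      · omega
      · obtain rfl : i = j := by omega
        exact h0 h2
    · cases i with
      | zero =>
        have : cl a b (j + 2) = b := by simp only [cl]; rw [if_neg hp]
        rw [this] at h1
        apply h0
        rw [← e, ← h1]
        exact hz.symm
      | succ i =>
        have : cl a b (j + 2) = cl a b (i + 2) := by
          have : (j + 2) % 2 = (i + 2) % 2 := by omega
          simp only [cl, this]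
        rw [this, wk_back hi] at h1
        exact ih j (by omega) (by omega) _ (by omega) h1


/-! Multi-fans -/

/-- `w` is the last vertex of a fan path at `x` which starts in `y`; its earlier vertices form `L` -/
inductive Ch (Δ : ℕ) (m : ℕ → V → V) (x y : V) : List V → V → Prop
  | nil : Ch Δ m x y [] y
  | cons (L : List V) (w : V) (c : ℕ) : Ch Δ m x y L w → c < Δ → m c w = w → m c x ≠ x →
      m c x ∉ w :: L → Ch Δ m x y (w :: L) (m c x)

theorem Ch.hole (h : Hole G Δ D m x y) {L : List V} {w : V} (hc : Ch Δ m x y L w) :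
    ∃ n, Hole G Δ D n x w ∧ (∀ c, n c x = x ↔ m c x = x) ∧
      (∀ v, v ≠ x → v ∉ w :: L → ∀ c, n c v = m c v) ∧ (∀ c, m c w = w → n c w = w) := by
  have hi := h.pc.inv
  induction hc with
  | nil => exact ⟨m, h, fun _ => Iff.rfl, fun _ _ _ _ => rfl, fun _ h => h⟩
  | cons L w c hL hcΔ hcw hcx hnew ih =>
    obtain ⟨n, h1, h2, h3, h4⟩ := ih
    have hni := h1.pc.inv
    have e1 : n c x = m c x := by
      have e2 := h3 (m c x) hcx hnew c
      rw [hi] at e2
      rw [← hni c (m c x), e2]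
    have hxw := h1.adj.ne
    have hnx : n c x ≠ x := by rw [e1]; exact hcx
    refine ⟨HV.shift n c x w, ?_, ?_, ?_, ?_⟩
    · have := h1.shift hnx (h4 c hcw)
      rwa [e1] at this
    · intro d
      have := h2 d
      unfold HV.shift
      grind
    · intro v hv hv' d
      have hv1 : v ≠ m c x := fun e => hv' (e ▸ List.mem_cons_self)
      have hv2 : v ∉ w :: L := fun e => hv' (List.mem_cons_of_mem _ e)
      have hv3 : v ≠ w := fun e => hv2 (e ▸ List.mem_cons_self)
      have := h3 v hv hv2 d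
      unfold HV.shift
      rw [if_neg (fun h => hv h.2), if_neg (fun h => hv3 h.2), e1, if_neg (fun h => hv1 h.2), this]
    · intro d hd
      have hv3 : m c x ≠ w := fun e => hnew (e ▸ List.mem_cons_self)
      unfold HV.shift
      rw [if_neg (fun h => hcx h.2), if_neg (fun h => hv3 h.2), e1]
      split_ifs with h5
      · rfl
      · rw [h3 (m c x) hcx hnew d, hd]

theorem Ch.ne (h : Hole G Δ D m x y) {L : List V} {w : V} (hc : Ch Δ m x y L w) : w ≠ x := by
  obtain ⟨n, h1, -⟩ := hc.hole h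
  exact h1.adj.ne'

theorem Ch.adj (h : Hole G Δ D m x y) {L : List V} {w : V} (hc : Ch Δ m x y L w) : G.Adj x w := by
  obtain ⟨n, h1, -⟩ := hc.hole h
  exact h1.adj

theorem no_common (hno : ¬ ∃ m', Full G Δ D m') (h : Hole G Δ D m x y) {L : List V} {w : V}
    (hc : Ch Δ m x y L w) {c : ℕ} (hcΔ : c < Δ) (hcw : m c w = w) : m c x ≠ x := by
  intro hcx
  obtain ⟨n, h1, h2, -, h4⟩ := hc.hole h
  exact hno ⟨_, h1.add hcΔ ((h2 c).2 hcx) (h4 c hcw)⟩

theorem Ch.pre {L : List V} {w : V} (hc : Ch Δ m x y L w) :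
    ∀ v ∈ L, ∃ L', Ch Δ m x y L' v ∧ L'.length < L.length := by
  induction hc with
  | nil => intro v hv; simp at hv
  | cons L w c hL _ _ _ _ ih =>
    intro v hv
    rcases List.mem_cons.1 hv with rfl | hv
    · exact ⟨L, hL, by simp⟩
    · obtain ⟨L', h1, h2⟩ := ih v hv
      exact ⟨L', h1, by simp; omega⟩

theorem Ch.swp {α β : ℕ} {C : Set V} (hxC : x ∉ C) (hβ : m β x = x) {L : List V} {w : V}
    (hc : Ch Δ m x y L w) (hL : ∀ v ∈ L, m α v = v → v ∉ C) :
    Ch Δ (HV.swp m β α C) x y L w := by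
  induction hc with
  | nil => exact Ch.nil
  | cons L w c hL' hcΔ hcw hcx hnew ih =>
    have ex : ∀ d, HV.swp m β α C d x = m d x := fun d => by simp [HV.swp, hxC]
    have h1 := ih fun v hv => hL v (List.mem_cons_of_mem _ hv)
    have h2 : HV.swp m β α C c w = w := by
      unfold HV.swp
      split_ifs with hw
      · have hcβ : c ≠ β := fun e => hcx (e ▸ hβ)
        have hcα : c ≠ α := fun e => hL w List.mem_cons_self (e ▸ hcw) hw
        rw [Equiv.swap_apply_of_ne_of_ne hcβ hcα, hcw]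
      · exact hcw
    have h3 := Ch.cons L w c h1 hcΔ h2 (by rw [ex]; exact hcx) (by rw [ex]; exact hnew)
    rwa [ex] at h3

theorem exists_min (P : List V → V → Prop) (h : ∃ L w, P L w) :
    ∃ L w, P L w ∧ ∀ L' w', P L' w' → L.length ≤ L'.length := by
  have hex : ∃ k, ∃ L w, P L w ∧ L.length = k := by
    obtain ⟨L, w, h⟩ := h
    exact ⟨_, L, w, h, rfl⟩
  obtain ⟨L, w, h1, h2⟩ := Nat.find_spec hex
  refine ⟨L, w, h1, fun L' w' h' => ?_⟩
  rw [h2]
  exact Nat.find_min' hex ⟨L', w', h', rfl⟩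

/-- no colour is missing at two vertices of the fan -/
theorem fan_disj (hno : ¬ ∃ m', Full G Δ D m') (h : Hole G Δ D m x y) {α β : ℕ} (hα : α < Δ)
    (hβ : β < Δ) (hβx : m β x = x) {L1 L2 : List V} {w1 w2 : V} (h1 : Ch Δ m x y L1 w1)
    (h2 : Ch Δ m x y L2 w2) (hw1 : m α w1 = w1) (hw2 : m α w2 = w2) : w1 = w2 := by
  by_contra hne
  have hi := h.pc.inv
  obtain ⟨Lu, u, ⟨hLu, hu⟩, humin⟩ := exists_min (fun L w => Ch Δ m x y L w ∧ m α w = w)
    ⟨L1, w1, h1, hw1⟩
  have hex : ∃ L w, Ch Δ m x y L w ∧ m α w = w ∧ w ≠ u := by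
    by_cases e : w1 = u
    · exact ⟨L2, w2, h2, hw2, fun e' => hne (e.trans e'.symm)⟩
    · exact ⟨L1, w1, h1, hw1, e⟩
  obtain ⟨Lw, w, ⟨hLw, hw, hwu⟩, hwmin⟩ :=
    exists_min (fun L w => Ch Δ m x y L w ∧ m α w = w ∧ w ≠ u) hex
  have hux := hLu.ne h
  have hwx := hLw.ne h
  have hclu := comp_closed (a := β) (b := α) hi hu
  have hclw := comp_closed (a := β) (b := α) hi hw
  have fin : ∀ (L : List V) (v : V), Ch Δ m x y L v → m α v = v → x ∉ comp m β α v →
      (∀ v' ∈ L, m α v' = v' → v' ∉ comp m β α v) → False := by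
    intro L v hL hv hxC hL'
    have hcl := comp_closed (a := β) (b := α) hi hv
    have h3 := swp_hole h hβ hα hcl
    have h4 := hL.swp hxC hβx hL'
    refine no_common hno h3 h4 hβ ?_ ?_
    · have : v ∈ comp m β α v := mem_comp 0
      simp [HV.swp, this, hv]
    · simp [HV.swp, hxC, hβx]
  have hxu : x ∈ comp m β α u := by
    by_contra hxu
    refine fin Lu u hLu hu hxu fun v hv hv' => ?_
    obtain ⟨L', h5, h6⟩ := hLu.pre v hv
    have := humin L' v ⟨h5, hv'⟩
    omega
  have hxw : x ∉ comp m β α w := by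
    intro hxw
    obtain ⟨k, -, hk⟩ := hxu
    have huw : u ∈ comp m β α w := hclw.bwd hi k (hk ▸ hxw)
    exact hux (two_ends hi hw huw hxw (Ne.symm hwu) (Ne.symm hwx) (Or.inr hu) (Or.inl hβx))
  have huw : u ∉ comp m β α w := by
    intro huw
    obtain ⟨k, -, hk⟩ := hxu
    exact hxw (hk ▸ hclw.fwd huw k)
  refine fin Lw w hLw hw hxw fun v hv hv' => ?_
  obtain ⟨L', h5, h6⟩ := hLw.pre v hv
  by_cases e : v = u
  · rw [e]; exact huw
  · have := hwmin L' v ⟨h5, hv', e⟩
    omega

/-- the colours missing at `v` -/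
noncomputable def Ms (Δ : ℕ) (m : ℕ → V → V) (v : V) : Finset ℕ :=
  (Finset.range Δ).filter fun c => m c v = v

theorem ms_card [Fintype V] (h : PC G Δ m) (v : V) : Δ ≤ (Ms Δ m v).card + G.degree v := by
  have h1 : ((Finset.range Δ).filter fun c => ¬ m c v = v).card ≤ (G.neighborFinset v).card := by
    refine Finset.card_le_card_of_injOn (fun c => m c v) (fun c hc => ?_) fun c hc d _ e => ?_
    · rw [Finset.mem_coe, Finset.mem_filter] at hc
      rw [Finset.mem_coe, SimpleGraph.mem_neighborFinset]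
      exact (h.adj c v hc.2).1
    · rw [Finset.mem_coe, Finset.mem_filter] at hc
      exact h.inj c d v hc.2 e
  have h2 := Finset.card_filter_add_card_filter_not (s := Finset.range Δ) (fun c => m c v = v)
  rw [Finset.card_range] at h2
  rw [SimpleGraph.card_neighborFinset_eq_degree] at h1
  unfold Ms
  omega

theorem ms_card_hole [Fintype V] (h : Hole G Δ D m x y) :
    Δ + 1 ≤ (Ms Δ m x).card + G.degree x := by
  have h1 : ((Finset.range Δ).filter fun c => ¬ m c x = x).card ≤
      ((G.neighborFinset x).erase y).card := by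
    refine Finset.card_le_card_of_injOn (fun c => m c x) (fun c hc => ?_) fun c hc d _ e => ?_
    · rw [Finset.mem_coe, Finset.mem_filter] at hc
      rw [Finset.mem_coe, Finset.mem_erase, SimpleGraph.mem_neighborFinset]
      exact ⟨h.unc c, (h.pc.adj c x hc.2).1⟩
    · rw [Finset.mem_coe, Finset.mem_filter] at hc
      exact h.pc.inj c d x hc.2 e
  have h2 := Finset.card_filter_add_card_filter_not (s := Finset.range Δ) (fun c => m c x = x)
  rw [Finset.card_range] at h2
  have h3 := Finset.card_erase_add_one ((SimpleGraph.mem_neighborFinset _ _ _).2 h.adj)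
  rw [SimpleGraph.card_neighborFinset_eq_degree] at h3
  unfold Ms
  omega

/-- Vizing's adjacency lemma, as an extension theorem -/
theorem ext [Fintype V] (h : Hole G Δ D m x y) (hdeg : ∀ v, G.degree v ≤ Δ)
    (hc : G.degree y + ((G.neighborFinset x).filter fun w => w ≠ y ∧ Δ ≤ G.degree w).card ≤ Δ) :
    ∃ m', Full G Δ D m' := by
  by_contra hno
  obtain ⟨β, hβ⟩ : ∃ β, β ∈ Ms Δ m x := by
    have h1 := ms_card_hole h
    have h2 := hdeg x
    have : 0 < (Ms Δ m x).card := by omega
    exact Finset.card_pos.1 this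
  have hβ' := Finset.mem_filter.1 hβ
  rw [Finset.mem_range] at hβ'
  set F : Finset V := Finset.univ.filter fun w => ∃ L, Ch Δ m x y L w with hF
  have hyF : y ∈ F := Finset.mem_filter.2 ⟨Finset.mem_univ _, [], Ch.nil⟩
  have key : ∑ w ∈ F, (Ms Δ m w).card ≤ (F.erase y).card := by
    rw [← Finset.card_sigma]
    refine Finset.card_le_card_of_injOn (fun q => m q.2 x) (fun q hq => ?_) fun q hq q' hq' e => ?_
    · rw [Finset.mem_coe, Finset.mem_sigma] at hq
      obtain ⟨hq1, hq2⟩ := hq
      obtain ⟨-, L, hL⟩ := Finset.mem_filter.1 hq1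
      have hq3 := Finset.mem_filter.1 hq2
      rw [Finset.mem_range] at hq3
      have hx : m q.2 x ≠ x := no_common hno h hL hq3.1 hq3.2
      rw [Finset.mem_coe, Finset.mem_erase]
      refine ⟨h.unc _, Finset.mem_filter.2 ⟨Finset.mem_univ _, ?_⟩⟩
      change ∃ L, Ch Δ m x y L (m q.2 x)
      by_cases hnew : m q.2 x ∈ q.1 :: L
      · rcases List.mem_cons.1 hnew with e | e
        · rw [e]; exact ⟨L, hL⟩
        · obtain ⟨L', hL', -⟩ := hL.pre _ e
          exact ⟨L', hL'⟩
      · exact ⟨_, Ch.cons L q.1 q.2 hL hq3.1 hq3.2 hx hnew⟩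
    · rw [Finset.mem_coe, Finset.mem_sigma] at hq hq'
      obtain ⟨hq1, hq2⟩ := hq
      obtain ⟨hq1', hq2'⟩ := hq'
      obtain ⟨-, L, hL⟩ := Finset.mem_filter.1 hq1
      obtain ⟨-, L', hL'⟩ := Finset.mem_filter.1 hq1'
      have hq3 := Finset.mem_filter.1 hq2
      have hq3' := Finset.mem_filter.1 hq2'
      rw [Finset.mem_range] at hq3 hq3'
      have hx : m q.2 x ≠ x := no_common hno h hL hq3.1 hq3.2
      have e2 : q.2 = q'.2 := h.pc.inj _ _ x hx e
      have e1 : q.1 = q'.1 := by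
        refine fan_disj hno h hq3.1 hβ'.1 hβ'.2 hL hL' hq3.2 ?_
        rw [e2]; exact hq3'.2
      exact Sigma.ext e1 (heq_of_eq e2)
  have h1 : (Ms Δ m y).card + ((F.erase y).filter fun w => ¬ Δ ≤ G.degree w).card ≤
      ∑ w ∈ F, (Ms Δ m w).card := by
    rw [← Finset.add_sum_erase F _ hyF]
    refine Nat.add_le_add_left ?_ _
    rw [Finset.card_filter]
    refine Finset.sum_le_sum fun w _ => ?_
    have := ms_card h.pc w
    by_cases hw : Δ ≤ G.degree w
    · rw [if_neg (not_not.2 hw)]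
      exact Nat.zero_le _
    · rw [if_pos hw]
      omega
  have h2 := ms_card_hole h.symm
  have h3 := Finset.card_filter_add_card_filter_not (s := F.erase y) (fun w => Δ ≤ G.degree w)
  have h4 : ((F.erase y).filter fun w => Δ ≤ G.degree w).card ≤
      ((G.neighborFinset x).filter fun w => w ≠ y ∧ Δ ≤ G.degree w).card := by
    refine Finset.card_le_card fun w hw => ?_
    rw [Finset.mem_filter, Finset.mem_erase, hF, Finset.mem_filter] at hw
    obtain ⟨⟨hwy, -, L, hL⟩, hwd⟩ := hw
    rw [Finset.mem_filter, SimpleGraph.mem_neighborFinset]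
    exact ⟨hL.adj h, hwy, hwd⟩
  omega

/-- a colouring with `Δ` colours of a graph all whose degrees are at most `Δ`, if every vertex `x`
of degree `Δ` has a neighbour `y` such that at most `Δ - deg y` neighbours of `x` have degree
`Δ` -/
theorem color [Fintype V] (H : SimpleGraph V) (p : ℕ) (hdeg : ∀ v, H.degree v ≤ p)
    (hx : ∀ x, H.degree x = p → 0 < p → ∃ y, H.Adj x y ∧
      H.degree y + ((H.neighborFinset x).filter fun w => H.degree w = p).card ≤ p) :
    ∃ m, Full H p H.Adj m := by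
  suffices h : ∀ (k : ℕ) (K : SimpleGraph V), K ≤ H → K.edgeFinset.card = k →
      ∃ m, Full K p K.Adj m from h _ H le_rfl rfl
  intro k
  induction k with
  | zero =>
    intro K hK hk
    have hE : ∀ u v, ¬ K.Adj u v := by
      intro u v huv
      have : s(u, v) ∈ K.edgeFinset := SimpleGraph.mem_edgeFinset.2 huv
      rw [Finset.card_eq_zero.1 hk] at this
      simp at this
    refine ⟨fun _ v => v, ⟨fun _ _ => rfl, fun _ _ h => absurd rfl h, fun _ _ _ h => absurd rfl h⟩,
      fun u v => ⟨fun h => absurd h (hE u v), fun h => ?_⟩⟩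
    obtain ⟨h1, a, h2⟩ := h
    exact absurd h2 h1
  | succ k ih =>
    intro K hK hk
    have hdegK : ∀ v, K.degree v ≤ H.degree v := fun v => SimpleGraph.degree_le_of_le hK
    have hne : ∃ u v, K.Adj u v := by
      have : 0 < K.edgeFinset.card := by omega
      obtain ⟨e, he⟩ := Finset.card_pos.1 this
      induction e with
      | _ u v => exact ⟨u, v, SimpleGraph.mem_edgeFinset.1 he⟩
    obtain ⟨x, y, hxy, hc⟩ : ∃ x y, K.Adj x y ∧
        K.degree y + ((K.neighborFinset x).filter fun w => w ≠ y ∧ p ≤ K.degree w).card ≤ p := by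
      by_cases hful : ∃ x, p ≤ K.degree x
      · obtain ⟨x, hxp⟩ := hful
        have e1 : H.degree x = p := le_antisymm (hdeg x) (hxp.trans (hdegK x))
        have hp0 : 0 < p := by
          obtain ⟨u, v, huv⟩ := hne
          have h1 : 0 < K.degree u := (K.degree_pos_iff_exists_adj u).2 ⟨v, huv⟩
          have h2 := hdegK u
          have h3 := hdeg u
          omega
        obtain ⟨y, hy, hc⟩ := hx x e1 hp0
        have e2 : K.neighborFinset x = H.neighborFinset x := by
          refine Finset.eq_of_subset_of_card_le (fun w hw => ?_) ?_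
          · rw [SimpleGraph.mem_neighborFinset] at hw ⊢
            exact hK hw
          · rw [SimpleGraph.card_neighborFinset_eq_degree, SimpleGraph.card_neighborFinset_eq_degree]
            omega
        refine ⟨x, y, ?_, le_trans (Nat.add_le_add (hdegK y) (Finset.card_le_card ?_)) hc⟩
        · rw [← SimpleGraph.mem_neighborFinset, e2, SimpleGraph.mem_neighborFinset]
          exact hy
        · intro w hw
          rw [Finset.mem_filter, e2] at hw
          rw [Finset.mem_filter]
          exact ⟨hw.1, le_antisymm (hdeg w) (hw.2.2.trans (hdegK w))⟩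
      · push Not at hful
        obtain ⟨x, y, hxy⟩ := hne
        refine ⟨x, y, hxy, ?_⟩
        rw [Finset.card_eq_zero.2, Nat.add_zero]
        · exact (hful y).le
        · rw [Finset.filter_eq_empty_iff]
          intro w _ hw
          have := hful w
          omega
    obtain ⟨K', hK'⟩ : ∃ K', K' = K.deleteEdges {s(x, y)} := ⟨_, rfl⟩
    have hdel : K' ≤ K := by rw [hK']; exact SimpleGraph.deleteEdges_le _
    have hcard : K'.edgeFinset.card = k := by
      have e3 : K'.edgeFinset = K.edgeFinset.erase s(x, y) := by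
        ext e
        rw [SimpleGraph.mem_edgeFinset, hK', SimpleGraph.edgeSet_deleteEdges, Finset.mem_erase,
          SimpleGraph.mem_edgeFinset]
        constructor
        · rintro ⟨h1, h2⟩
          exact ⟨h2, h1⟩
        · rintro ⟨h1, h2⟩
          exact ⟨h2, h1⟩
      rw [e3, Finset.card_erase_of_mem (SimpleGraph.mem_edgeFinset.2 hxy), hk]
      rfl
    obtain ⟨m, hm1, hm2⟩ := ih _ (hdel.trans hK) hcard
    have hole : Hole K p K.Adj m x y := by
      refine ⟨⟨hm1.inv, fun a v h => ⟨hdel (hm1.adj a v h).1, (hm1.adj a v h).2⟩, hm1.inj⟩, hxy,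
        fun a e => ?_, fun u v => ?_⟩
      · have h1 : m a x ≠ x := by rw [e]; exact hxy.ne'
        have h2 := (hm1.adj a x h1).1
        rw [e, hK', SimpleGraph.deleteEdges_adj] at h2
        exact h2.2 rfl
      · rw [← hm2, hK', SimpleGraph.deleteEdges_adj, Set.mem_singleton_iff, Sym2.eq_iff]
        constructor
        · intro h
          by_cases h' : (u = x ∧ v = y) ∨ (u = y ∧ v = x)
          · exact Or.inr h'
          · exact Or.inl ⟨h, h'⟩
        · rintro (h | ⟨rfl, rfl⟩ | ⟨rfl, rfl⟩)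
          · exact h.1
          · exact hxy
          · exact hxy.symm
    exact ext hole (fun v => (hdegK v).trans (hdeg v)) hc

end Pool.Agent.H8.HV
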