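import Pool.Agent.H8.HV.Clq

/-! Weighted version of Hall's theorem; matchings between classes. -/

set_option autoImplicit false

open scoped Classical

namespace Pool.Agent.H8.HV

theorem hallw {ι α : Type} (I : Finset ι) (t : ι → Finset α) (w : α → ℕ) (W : ℕ) (hW : 0 < W)
    (h1 : ∀ i ∈ I, W ≤ ∑ a ∈ t i, w a) (h2 : ∀ a, w a * (I.filter fun i => a ∈ t i).card ≤ W)
    [Nonempty α] :
    ∃ f : ι → α, (∀ i ∈ I, f i ∈ t i) ∧ Set.InjOn f I := by
  have hall : ∀ s : Finset {i // i ∈ I}, s.card ≤ (s.biUnion fun i => t i.1).card := by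
    intro s
    set U : Finset α := s.biUnion fun i => t i.1 with hU
    have e1 : s.card * W ≤ ∑ i ∈ s, ∑ a ∈ t i.1, w a := by
      rw [← smul_eq_mul]
      exact Finset.card_nsmul_le_sum _ _ _ fun i _ => h1 i.1 i.2
    have e2 : ∑ i ∈ s, ∑ a ∈ t i.1, w a = ∑ a ∈ U, w a * (s.filter fun i => a ∈ t i.1).card := by
      have e3 : ∀ i ∈ s, ∑ a ∈ t i.1, w a = ∑ a ∈ U, if a ∈ t i.1 then w a else 0 := by
        intro i hi
        rw [← Finset.sum_filter]
        refine Finset.sum_congr ?_ fun _ _ => rfl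
        ext a
        rw [Finset.mem_filter, hU, Finset.mem_biUnion]
        exact ⟨fun h => ⟨⟨i, hi, h⟩, h⟩, fun h => h.2⟩
      rw [Finset.sum_congr rfl e3, Finset.sum_comm]
      refine Finset.sum_congr rfl fun a _ => ?_
      rw [← Finset.sum_filter, Finset.sum_const, smul_eq_mul, mul_comm]
    have e4 : ∑ a ∈ U, w a * (s.filter fun i => a ∈ t i.1).card ≤ U.card * W := by
      rw [← smul_eq_mul]
      refine Finset.sum_le_card_nsmul _ _ _ fun a _ => le_trans (Nat.mul_le_mul_left _ ?_) (h2 a)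
      refine Finset.card_le_card_of_injOn (fun i => i.1) (fun i hi => ?_)
        (Subtype.val_injective.injOn)
      rw [Finset.mem_coe, Finset.mem_filter] at hi
      rw [Finset.mem_coe, Finset.mem_filter]
      exact ⟨i.2, hi.2⟩
    have e5 : s.card * W ≤ U.card * W := e1.trans (e2.le.trans e4)
    exact Nat.le_of_mul_le_mul_right e5 hW
  obtain ⟨g, hg1, hg2⟩ := (Finset.all_card_le_biUnion_card_iff_exists_injective
    (fun i : {i // i ∈ I} => t i.1)).1 hall
  refine ⟨fun i => if h : i ∈ I then g ⟨i, h⟩ else Classical.arbitrary α, fun i hi => ?_,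
    fun i hi i' hi' e => ?_⟩
  · change (if h : i ∈ I then g ⟨i, h⟩ else Classical.arbitrary α) ∈ t i
    rw [dif_pos hi]
    exact hg2 ⟨i, hi⟩
  · have hi1 : i ∈ I := hi
    have hi2 : i' ∈ I := hi'
    change (if h : i ∈ I then g ⟨i, h⟩ else Classical.arbitrary α) =
      (if h : i' ∈ I then g ⟨i', h⟩ else Classical.arbitrary α) at e
    rw [dif_pos hi1, dif_pos hi2] at e
    have := hg1 e
    exact congrArg Subtype.val this

variable {V : Type}

/-- an involution from disjoint pairs -/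
theorem invol (A : Finset V) (φ : V → V) (hinj : Set.InjOn φ A) (hdis : ∀ a ∈ A, φ a ∉ A) :
    ∃ g : V → V, (∀ v, g (g v) = v) ∧ (∀ a ∈ A, g a = φ a) ∧
      ∀ v, g v ≠ v → (v ∈ A ∧ g v = φ v) ∨ (g v ∈ A ∧ φ (g v) = v) := by
  have hex : ∀ v, ∃ w, (v ∈ A ∧ w = φ v) ∨ (w ∈ A ∧ φ w = v) ∨
      (w = v ∧ v ∉ A ∧ ∀ a ∈ A, φ a ≠ v) := by
    intro v
    by_cases h1 : v ∈ A
    · exact ⟨φ v, Or.inl ⟨h1, rfl⟩⟩
    · by_cases h2 : ∃ a ∈ A, φ a = v
      · obtain ⟨a, ha, hav⟩ := h2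
        exact ⟨a, Or.inr (Or.inl ⟨ha, hav⟩)⟩
      · push Not at h2
        exact ⟨v, Or.inr (Or.inr ⟨rfl, h1, h2⟩)⟩
  choose g hg using hex
  have hA : ∀ a ∈ A, g a = φ a := by
    intro a ha
    rcases hg a with h | h | h
    · exact h.2
    · have h3 := hdis _ h.1
      rw [h.2] at h3
      exact absurd ha h3
    · exact absurd ha h.2.1
  refine ⟨g, fun v => ?_, hA, fun v hv => ?_⟩
  · rcases hg v with h | h | h
    · rcases hg (g v) with h' | h' | h'
      · exact absurd (h.2 ▸ h'.1) (hdis v h.1)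
      · exact hinj h'.1 h.1 (h'.2.trans h.2)
      · exact absurd h.2.symm (h'.2.2 v h.1)
    · rw [hA _ h.1, h.2]
    · rw [h.1, h.1]
  · rcases hg v with h | h | h
    · exact Or.inl h
    · exact Or.inr h
    · exact absurd h.1 hv

end Pool.Agent.H8.HV
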