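import Pool.Agent.H8.HV.PhB

/-! Partial colourings with as few uncoloured vertices as possible. -/

set_option autoImplicit false

open scoped Classical

namespace Pool.Agent.H8.HV

variable {V : Type} [Fintype V]

/-- partial colouring with the colours below `p`; `c v = p` means that `v` is not coloured -/
def PCol (G : SimpleGraph V) (p : ℕ) (c : V → ℕ) : Prop :=
  (∀ v, c v ≤ p) ∧ ∀ u v, G.Adj u v → c u = c v → c u = p

noncomputable def unc (p : ℕ) (c : V → ℕ) : Finset V := Finset.univ.filter fun v => c v = p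

theorem mem_unc {p : ℕ} {c : V → ℕ} {v : V} : v ∈ unc p c ↔ c v = p := by
  unfold unc
  rw [Finset.mem_filter]
  exact ⟨fun h => h.2, fun h => ⟨Finset.mem_univ _, h⟩⟩

def Mn (G : SimpleGraph V) (p : ℕ) (c : V → ℕ) : Prop :=
  PCol G p c ∧ ∀ c', PCol G p c' → (unc p c).card ≤ (unc p c').card

theorem exists_mn (G : SimpleGraph V) (p : ℕ) : ∃ c, Mn G p c := by
  have h : ∃ n, ∃ c, PCol G p c ∧ (unc p c).card = n :=
    ⟨_, fun _ => p, ⟨fun _ => le_rfl, fun _ _ _ _ => rfl⟩, rfl⟩
  obtain ⟨c, h1, h2⟩ := Nat.find_spec h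
  exact ⟨c, h1, fun c' hc' => by
    rw [h2]
    exact Nat.find_min' h ⟨c', hc', rfl⟩⟩

variable {G : SimpleGraph V} {p : ℕ} {c : V → ℕ}

theorem recol (hc : PCol G p c) (A : Finset V) (hA : ∀ z ∈ A, c z = p) (i : V → ℕ)
    (hi : ∀ z ∈ A, i z < p) (hii : ∀ z ∈ A, ∀ z' ∈ A, G.Adj z z' → i z ≠ i z') :
    ∃ c', PCol G p c' ∧
      (∀ v, c' v = p → (c v = p ∧ v ∉ A) ∨ ∃ z ∈ A, G.Adj z v ∧ c v = i z) ∧
      (unc p c').card + A.card ≤ (unc p c).card +
        (Finset.univ.filter fun u => ∃ z ∈ A, G.Adj z u ∧ c u = i z).card := by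
  set Q := Finset.univ.filter fun u => ∃ z ∈ A, G.Adj z u ∧ c u = i z with hQ
  have hQm : ∀ u, u ∈ Q ↔ ∃ z ∈ A, G.Adj z u ∧ c u = i z := by
    intro u
    rw [hQ, Finset.mem_filter]
    exact ⟨fun h => h.2, fun h => ⟨Finset.mem_univ _, h⟩⟩
  obtain ⟨c', hc'⟩ : ∃ c' : V → ℕ, ∀ v, c' v = if v ∈ A then i v else if v ∈ Q then p else c v :=
    ⟨_, fun _ => rfl⟩
  have hm : ∀ v, c' v = p → (c v = p ∧ v ∉ A) ∨ v ∈ Q := by
    intro v hv
    rw [hc'] at hv
    by_cases h1 : v ∈ A
    · rw [if_pos h1] at hv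
      have := hi v h1
      omega
    · rw [if_neg h1] at hv
      by_cases h2 : v ∈ Q
      · exact Or.inr h2
      · rw [if_neg h2] at hv
        exact Or.inl ⟨hv, h1⟩
  refine ⟨c', ⟨fun v => ?_, fun u v huv e => ?_⟩, fun v hv => ?_, ?_⟩
  · rw [hc']
    split_ifs with h1 h2
    · exact (hi v h1).le
    · exact le_rfl
    · exact hc.1 v
  · rw [hc' u, hc' v] at e
    rw [hc' u]
    by_cases h1 : u ∈ A <;> by_cases h2 : v ∈ A
    · rw [if_pos h1, if_pos h2] at e
      exact absurd e (hii u h1 v h2 huv)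
    · rw [if_pos h1, if_neg h2] at e
      rw [if_pos h1]
      by_cases h3 : v ∈ Q
      · rw [if_pos h3] at e
        exact e
      · rw [if_neg h3] at e
        exact absurd ((hQm v).2 ⟨u, h1, huv, e.symm⟩) h3
    · rw [if_neg h1, if_pos h2] at e
      rw [if_neg h1]
      by_cases h3 : u ∈ Q
      · rw [if_pos h3]
      · rw [if_neg h3] at e
        exact absurd ((hQm u).2 ⟨v, h2, huv.symm, e⟩) h3
    · rw [if_neg h1, if_neg h2] at e
      rw [if_neg h1]
      by_cases h3 : u ∈ Q
      · rw [if_pos h3]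
      · rw [if_neg h3] at e ⊢
        by_cases h4 : v ∈ Q
        · rw [if_pos h4] at e
          exact e
        · rw [if_neg h4] at e
          exact hc.2 u v huv e
  · rcases hm v hv with h | h
    · exact Or.inl h
    · exact Or.inr ((hQm v).1 h)
  · have h1 : unc p c' ⊆ (unc p c \ A) ∪ Q := by
      intro v hv
      rw [mem_unc] at hv
      rw [Finset.mem_union, Finset.mem_sdiff, mem_unc]
      exact hm v hv
    have h2 := (Finset.card_le_card h1).trans (Finset.card_union_le _ _)
    have h3 : A ⊆ unc p c := fun z hz => mem_unc.2 (hA z hz)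
    rw [Finset.card_sdiff_of_subset h3] at h2
    have h4 := Finset.card_le_card h3
    omega

theorem Mn.hall (hc : Mn G p c) (A : Finset V) (hA : ∀ z ∈ A, c z = p) (i : V → ℕ)
    (hi : ∀ z ∈ A, i z < p) (hii : ∀ z ∈ A, ∀ z' ∈ A, G.Adj z z' → i z ≠ i z') :
    A.card ≤ (Finset.univ.filter fun u => ∃ z ∈ A, G.Adj z u ∧ c u = i z).card := by
  obtain ⟨c', h1, -, h3⟩ := recol hc.1 A hA i hi hii
  have := hc.2 c' h1
  omega

theorem Mn.sees (hc : Mn G p c) (z : V) (hz : c z = p) (i : ℕ) (hi : i < p) :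
    ∃ u, G.Adj z u ∧ c u = i := by
  have h := hc.hall {z} (fun y hy => by rw [Finset.mem_singleton.1 hy]; exact hz) (fun _ => i)
    (fun _ _ => hi) (fun y hy y' hy' h => by
      rw [Finset.mem_singleton.1 hy, Finset.mem_singleton.1 hy'] at h
      exact absurd h (G.loopless.irrefl z))
  rw [Finset.card_singleton] at h
  obtain ⟨u, hu⟩ := Finset.card_pos.1 h
  obtain ⟨y, hy, h1, h2⟩ := (Finset.mem_filter.1 hu).2
  rw [Finset.mem_singleton.1 hy] at h1
  exact ⟨u, h1, h2⟩

/-- the uncoloured vertices for which `u` is the only neighbour in its class -/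
noncomputable def Rr (G : SimpleGraph V) (p : ℕ) (c : V → ℕ) (u : V) : Finset V :=
  Finset.univ.filter fun z => c z = p ∧ G.Adj z u ∧ ∀ u', G.Adj z u' → c u' = c u → u' = u

theorem Mn.clique (hc : Mn G p c) (u : V) (hu : c u < p) (z z' : V) (hz : z ∈ Rr G p c u)
    (hz' : z' ∈ Rr G p c u) (hne : z ≠ z') : G.Adj z z' := by
  by_contra hno
  obtain ⟨-, h1, h2, h3⟩ := Finset.mem_filter.1 hz
  obtain ⟨-, h1', h2', h3'⟩ := Finset.mem_filter.1 hz'
  have h := hc.hall {z, z'} (fun y hy => by
      rcases Finset.mem_insert.1 hy with rfl | hy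
      · exact h1
      · rw [Finset.mem_singleton.1 hy]
        exact h1') (fun _ => c u) (fun _ _ => hu) (fun y hy y' hy' h => by
      exfalso
      rw [Finset.mem_insert, Finset.mem_singleton] at hy hy'
      rcases hy with e | e <;> rcases hy' with e' | e' <;> rw [e, e'] at h
      · exact G.loopless.irrefl _ h
      · exact hno h
      · exact hno h.symm
      · exact G.loopless.irrefl _ h)
  rw [Finset.card_pair hne] at h
  have h4 : (Finset.univ.filter fun w => ∃ y ∈ ({z, z'} : Finset V), G.Adj y w ∧ c w = c u) ⊆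
      {u} := by
    intro w hw
    obtain ⟨-, y, hy, h5, h6⟩ := Finset.mem_filter.1 hw
    rw [Finset.mem_singleton]
    rcases Finset.mem_insert.1 hy with rfl | hy
    · exact h3 w h5 h6
    · rw [Finset.mem_singleton.1 hy] at h5
      exact h3' w h5 h6
  have h5 := Finset.card_le_card h4
  rw [Finset.card_singleton] at h5
  omega

/-- the classes with exactly one neighbour of `z` -/
noncomputable def Uq (G : SimpleGraph V) (p : ℕ) (c : V → ℕ) (z : V) : Finset ℕ :=
  (Finset.range p).filter fun i => ((G.neighborFinset z).filter fun u => c u = i).card = 1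

theorem Mn.counts (hc : Mn G p c) {D k : ℕ} (hD : ∀ v, G.degree v ≤ D) (hk : D ≤ p + k) (z : V)
    (hz : c z = p) : ((G.neighborFinset z).filter fun u => c u = p).card ≤ k ∧
      p ≤ (Uq G p c z).card + k := by
  have h1 : ∑ i ∈ Finset.range (p + 1), ((G.neighborFinset z).filter fun u => c u = i).card =
      G.degree z := by
    rw [← SimpleGraph.card_neighborFinset_eq_degree]
    refine (Finset.card_eq_sum_card_fiberwise fun u _ => ?_).symm
    rw [Finset.mem_coe, Finset.mem_range]
    have := hc.1.1 u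
    omega
  rw [Finset.sum_range_succ] at h1
  have h2 : ∀ i ∈ Finset.range p, 1 ≤ ((G.neighborFinset z).filter fun u => c u = i).card := by
    intro i hi
    rw [Finset.mem_range] at hi
    obtain ⟨u, hu1, hu2⟩ := hc.sees z hz i hi
    exact Finset.card_pos.2 ⟨u, Finset.mem_filter.2 ⟨(SimpleGraph.mem_neighborFinset _ _ _).2 hu1,
      hu2⟩⟩
  have h3 : (p - (Uq G p c z).card) + p ≤
      ∑ i ∈ Finset.range p, ((G.neighborFinset z).filter fun u => c u = i).card := by
    have h4 : ∑ i ∈ Finset.range p, (1 + if i ∈ Uq G p c z then 0 else 1) ≤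
        ∑ i ∈ Finset.range p, ((G.neighborFinset z).filter fun u => c u = i).card := by
      refine Finset.sum_le_sum fun i hi => ?_
      have h5 := h2 i hi
      split_ifs with h6
      · omega
      · have h7 : ((G.neighborFinset z).filter fun u => c u = i).card ≠ 1 := fun h =>
          h6 (Finset.mem_filter.2 ⟨hi, h⟩)
        omega
    rw [Finset.sum_add_distrib, Finset.sum_const, Finset.card_range, smul_eq_mul, mul_one] at h4
    have h8 : ∑ i ∈ Finset.range p, (if i ∈ Uq G p c z then 0 else 1) =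
        (Finset.range p \ Uq G p c z).card := by
      rw [Finset.card_eq_sum_ones, ← Finset.sum_filter_not_add_sum_filter (Finset.range p)
        (fun i => i ∈ Uq G p c z), ← Finset.filter_notMem_eq_sdiff]
      rw [Finset.sum_congr rfl (fun i hi => if_neg (Finset.mem_filter.1 hi).2),
        Finset.sum_congr (s₁ := (Finset.range p).filter fun i => i ∈ Uq G p c z) rfl
          (fun i hi => if_pos (Finset.mem_filter.1 hi).2), Finset.sum_const_zero, add_zero]
    have h9 : Uq G p c z ⊆ Finset.range p := Finset.filter_subset _ _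
    rw [h8, Finset.card_sdiff_of_subset h9, Finset.card_range] at h4
    omega
  have h4 : p ≤ ∑ i ∈ Finset.range p, ((G.neighborFinset z).filter fun u => c u = i).card := by
    omega
  have h5 := hD z
  omega

end Pool.Agent.H8.HV
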