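import Pool.Agent.H8.HV.StepA

/-! The small labels, and the labels just below `D + p`. -/

set_option autoImplicit false

open scoped Classical

namespace Pool.Agent.H8.HV

variable {V : Type} [Fintype V] {G : SimpleGraph V} {D k : ℕ} {f : V → ℕ}

structure PA (G : SimpleGraph V) (D k : ℕ) (f : V → ℕ) (t : ℕ) (m : ℕ → V → V) : Prop where
  pc : PC G (D + 2 * (D - k)) m
  lab : ∀ a v, m a v ≠ v → (a ≤ k ∧ D - k ≤ f v ∧ a + (D - k) ≤ f v) ∨
    (D + (D - k) ≤ a + t ∧ a < D + (D - k) ∧ f v + (D - k) ≤ a ∧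
      (13 * D / 16 ≤ f v ∨ 13 * D / 16 ≤ f (m a v)))
  sl : ∀ v ∈ SL G D k f, t ≤ (Us (D + 2 * (D - k)) m v).card
  top : ∀ v, 13 * D / 16 ≤ f v →
    f v - (D - k) + min t (D - f v) ≤ (Us (D + 2 * (D - k)) m v).card

theorem PA.nz {m : ℕ → V → V} {t : ℕ} (hk1 : 1 ≤ k) (hk6 : 600 * k ≤ D) (ht : t ≤ k + 1)
    (h : PA G D k f t m) (v : V) : nz (D + 2 * (D - k)) m D k f v ≤ t := by
  unfold HV.nz
  have h1 : ((Us (D + 2 * (D - k)) m v).filter fun a => f v < D - k ∨ f (m a v) < D - k) ⊆
      (Finset.range t).image fun i => D + (D - k) - 1 - i := by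
    intro a ha
    obtain ⟨ha1, ha2⟩ := Finset.mem_filter.1 ha
    have ha3 := (Finset.mem_filter.1 ha1).2
    have ha4 : m a (m a v) ≠ m a v := by rw [h.pc.inv]; exact ha3.symm
    rcases h.lab a v ha3 with h2 | h2
    · rcases h.lab a _ ha4 with h3 | h3 <;> omega
    · exact Finset.mem_image.2 ⟨D + (D - k) - 1 - a, Finset.mem_range.2 (by omega), by omega⟩
  exact (Finset.card_le_card h1).trans (Finset.card_image_le.trans (Finset.card_range t).le)

/-- the large labels come from independent sets which are maximum ones among the rest -/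
def Best (G : SimpleGraph V) (D k : ℕ) (f : V → ℕ) : Prop :=
  ∀ i, ∀ A : Finset V, (∀ a ∈ A, D - k ≤ f a ∧ i ≤ f a - (D - k)) →
    (∀ a ∈ A, ∀ b ∈ A, ¬ G.Adj a b) →
    A.card ≤ (Finset.univ.filter fun z => D - k ≤ f z ∧ f z - (D - k) = i).card

omit [Fintype V] in
theorem PC.mono {N N' : ℕ} {m : ℕ → V → V} (h : PC G N m) (hN : N ≤ N') : PC G N' m :=
  ⟨h.inv, fun a v hv => ⟨(h.adj a v hv).1, lt_of_lt_of_le (h.adj a v hv).2 hN⟩, h.inj⟩

omit [Fintype V] in
theorem us_mono {N N' : ℕ} (hN : N ≤ N') (m : ℕ → V → V) (v : V) :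
    (Us N m v).card ≤ (Us N' m v).card := by
  refine Finset.card_le_card fun a ha => ?_
  obtain ⟨h1, h2⟩ := Finset.mem_filter.1 ha
  rw [Finset.mem_range] at h1
  exact Finset.mem_filter.2 ⟨Finset.mem_range.2 (by omega), h2⟩

theorem phaseA0 (hb : Base G D k f) (hbest : Best G D k f) : ∃ m, PA G D k f 0 m := by
  have hk1 := hb.k1
  have hk6 := hb.k6
  obtain ⟨m, h1, h2, h3⟩ := spart G (Finset.univ.filter fun v => D - k ≤ f v)
    (fun v => f v - (D - k)) k (fun z hz => by
      have := hb.le z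
      show f z - (D - k) ≤ k
      omega) (fun u hu v hv huv => by
      have h4 := (Finset.mem_filter.1 hu).2
      have h5 := (Finset.mem_filter.1 hv).2
      have h6 := hb.proper u v huv
      show f u - (D - k) ≠ f v - (D - k)
      omega) (fun i A hA hAi hAA => by
      refine le_trans (hbest i A (fun a ha => ⟨(Finset.mem_filter.1 (hA ha)).2, hAi a ha⟩) hAA) ?_
      refine Finset.card_le_card fun z hz => ?_
      obtain ⟨hz1, hz2⟩ := Finset.mem_filter.1 hz
      exact Finset.mem_filter.2 ⟨Finset.mem_filter.2 ⟨hz1, hz2.1⟩, hz2.2⟩)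
  refine ⟨m, h1.mono (by omega), fun a v hv => Or.inl ?_, fun v _ => Nat.zero_le _, fun v hv => ?_⟩
  · obtain ⟨h4, h5⟩ := h2 a v hv
    have h6 := (Finset.mem_filter.1 h4).2
    have h7 := hb.le v
    have h8 : a ≤ f v - (D - k) := h5
    exact ⟨by omega, h6, by omega⟩
  · by_cases hc : D - k ≤ f v
    · have h4 : f v - (D - k) ≤ (Us (k + 1) m v).card :=
        h3 v (Finset.mem_filter.2 ⟨Finset.mem_univ _, hc⟩)
      have h5 := us_mono (show k + 1 ≤ D + 2 * (D - k) by omega) m v
      omega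
    · omega

theorem phaseA (hb : Base G D k f) (hbest : Best G D k f) (t : ℕ) (ht : t ≤ k + 1) :
    ∃ m, PA G D k f t m := by
  have hk1 := hb.k1
  have hk6 := hb.k6
  induction t with
  | zero => exact phaseA0 hb hbest
  | succ t ih =>
    obtain ⟨m, hm⟩ := ih (by omega)
    obtain ⟨g, g1, g2, g3, g4⟩ := astep hb hm.pc (t := t) (by omega)
      (fun v => hm.nz hk1 hk6 (by omega) v)
    obtain ⟨s, hs⟩ : ∃ s, s = D + (D - k) - 1 - t := ⟨_, rfl⟩
    have hms : ∀ v, m s v = v := by
      intro v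
      by_contra h
      rcases hm.lab s v h with h1 | h1 <;> omega
    have hsN : s < D + 2 * (D - k) := by omega
    refine ⟨Function.update m s g, pc_update hm.pc s hsN g g1 (fun v hv => (g2 v hv).1)
      (fun v hv => (g2 v hv).2.2.2), fun a v => ?_, fun v hv => ?_, fun v hv => ?_⟩
    · by_cases e : a = s
      · rw [e, Function.update_self]
        intro hv
        have := g2 v hv
        exact Or.inr ⟨by omega, by omega, by omega, this.2.2.1⟩
      · rw [Function.update_of_ne e]
        intro hv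
        rcases hm.lab a v hv with h1 | h1
        · exact Or.inl h1
        · exact Or.inr ⟨by omega, h1.2⟩
    · rw [us_update s hsN hms g v, if_pos (g3 v hv)]
      have := hm.sl v hv
      omega
    · rw [us_update s hsN hms g v]
      have h1 := hm.top v hv
      by_cases hc : f v + t + 1 ≤ D
      · rw [if_pos (g4 v hv hc)]
        omega
      · omega

end Pool.Agent.H8.HV
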