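import Pool.Agent.H8.HV.PhA

/-! The labels in the middle, and the completion. -/

set_option autoImplicit false

open scoped Classical

namespace Pool.Agent.H8.HV

variable {V : Type}

theorem hallw' {ι α : Type} (I : Finset ι) (t : ι → Finset α) (w : α → ℕ) (W : ℕ) (hW : 0 < W)
    (h1 : ∀ i ∈ I, W ≤ ∑ a ∈ t i, w a)
    (h2 : ∀ a, ∀ S ⊆ I, (∀ i ∈ S, a ∈ t i) → w a * S.card ≤ W) [Nonempty α] :
    ∃ f : ι → α, (∀ i ∈ I, f i ∈ t i) ∧ Set.InjOn f I :=
  hallw I t w W hW h1 fun a => h2 a _ (Finset.filter_subset _ _) fun _ hi =>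
    (Finset.mem_filter.1 hi).2

theorem enum (T : Finset V) (n : ℕ) (h : n ≤ T.card) [Nonempty V] :
    ∃ c : ℕ → V, (∀ i < n, c i ∈ T) ∧ ∀ i < n, ∀ j < n, c i = c j → i = j := by
  obtain ⟨T', hT', hc⟩ := Finset.exists_subset_card_eq h
  have e := T'.equivFinOfCardEq hc
  refine ⟨fun i => if hi : i < n then (e.symm ⟨i, hi⟩).1 else Classical.arbitrary V,
    fun i hi => ?_, fun i hi j hj hij => ?_⟩
  · change (if hi : i < n then (e.symm ⟨i, hi⟩).1 else Classical.arbitrary V) ∈ T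
    rw [dif_pos hi]
    exact hT' (e.symm ⟨i, hi⟩).2
  · change (if hi : i < n then (e.symm ⟨i, hi⟩).1 else Classical.arbitrary V) =
      (if hi : j < n then (e.symm ⟨j, hi⟩).1 else Classical.arbitrary V) at hij
    rw [dif_pos hi, dif_pos hj] at hij
    have := e.symm.injective (Subtype.ext hij)
    exact congrArg Fin.val this

/-- adding the labels `b, …, b + M - 1` -/
noncomputable def padd (m : ℕ → V → V) (b M : ℕ) (m' : ℕ → V → V) : ℕ → V → V := fun a =>
  if b ≤ a ∧ a < b + M then m' (a - b) else m a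

theorem pc_add {G : SimpleGraph V} {N M b : ℕ} {m m' : ℕ → V → V} (h : PC G N m)
    (h' : PC G M m') (hN : b + M ≤ N)
    (hdis : ∀ a c v, m a v ≠ v → m a v ≠ m' c v) : PC G N (padd m b M m') := by
  refine ⟨fun a v => ?_, fun a v => ?_, fun a c v => ?_⟩
  · unfold padd
    by_cases e : b ≤ a ∧ a < b + M
    · rw [if_pos e]
      exact h'.inv _ _
    · rw [if_neg e]
      exact h.inv _ _
  · unfold padd
    by_cases e : b ≤ a ∧ a < b + M
    · rw [if_pos e]
      exact fun hv => ⟨(h'.adj _ _ hv).1, by omega⟩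
    · rw [if_neg e]
      exact fun hv => h.adj a v hv
  · unfold padd
    by_cases e : b ≤ a ∧ a < b + M <;> by_cases e' : b ≤ c ∧ c < b + M
    · rw [if_pos e, if_pos e']
      intro h1 h2
      have := h'.inj _ _ _ h1 h2
      omega
    · rw [if_pos e, if_neg e']
      intro h1 h2
      exact absurd h2.symm (hdis c (a - b) v (by rw [← h2]; exact h1))
    · rw [if_neg e, if_pos e']
      intro h1 h2
      exact absurd h2 (hdis a (c - b) v h1)
    · rw [if_neg e, if_neg e']
      exact h.inj a c v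

theorem us_add {N M b : ℕ} {m m' : ℕ → V → V} (hN : b + M ≤ N)
    (hfree : ∀ a v, b ≤ a → a < b + M → m a v = v) (v : V) :
    (Us N m v).card + (Us M m' v).card ≤ (Us N (padd m b M m') v).card := by
  have h1 : (Us M m' v).card = ((Us M m' v).image fun c => b + c).card := by
    rw [Finset.card_image_of_injective _ fun x y h => by
      have : b + x = b + y := h
      omega]
  have h2 : Disjoint (Us N m v) ((Us M m' v).image fun c => b + c) := by
    rw [Finset.disjoint_left]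
    intro a ha ha'
    obtain ⟨c, hc, rfl⟩ := Finset.mem_image.1 ha'
    have h3 := Finset.mem_range.1 (Finset.mem_filter.1 hc).1
    exact (Finset.mem_filter.1 ha).2 (hfree _ v (by omega) (by omega))
  rw [h1, ← Finset.card_union_of_disjoint h2]
  refine Finset.card_le_card fun a ha => ?_
  rcases Finset.mem_union.1 ha with h3 | h3
  · obtain ⟨h4, h5⟩ := Finset.mem_filter.1 h3
    refine Finset.mem_filter.2 ⟨h4, ?_⟩
    unfold padd
    rw [if_neg (fun e => h5 (hfree a v e.1 e.2))]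
    exact h5
  · obtain ⟨c, hc, rfl⟩ := Finset.mem_image.1 h3
    obtain ⟨h4, h5⟩ := Finset.mem_filter.1 hc
    rw [Finset.mem_range] at h4
    refine Finset.mem_filter.2 ⟨Finset.mem_range.2 (by omega), ?_⟩
    unfold padd
    rw [if_pos ⟨by omega, by omega⟩, Nat.add_sub_cancel_left]
    exact h5

variable [Fintype V]

/-- every vertex of `W` picks a vertex in each of its blocks, nobody is picked too often -/
theorem picks (G : SimpleGraph V) (D d q : ℕ) (hD : ∀ v, G.degree v ≤ D) (hD0 : 0 < D)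
    (hq : D ≤ 9 * q) (W : Finset V) (B : V → ℕ → Finset V)
    (hB : ∀ v ∈ W, ∀ i < d, 9 ≤ (B v i).card) (hBG : ∀ v ∈ W, ∀ i < d, ∀ u ∈ B v i, G.Adj v u)
    (hBd : ∀ v ∈ W, ∀ i < d, ∀ j < d, ∀ u, u ∈ B v i → u ∈ B v j → i = j) [Nonempty V] :
    ∃ φ : V → ℕ → V, (∀ v ∈ W, ∀ i < d, φ v i ∈ B v i) ∧
      ∀ u, (W.filter fun v => ∃ i < d, φ v i = u).card ≤ q := by
  obtain ⟨ψ, h1, h2⟩ := hallw' (W ×ˢ Finset.range d) (fun x => B x.1 x.2 ×ˢ Finset.range q)
    (fun _ => 1) D hD0 (fun x hx => by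
      rw [← Finset.card_eq_sum_ones, Finset.card_product, Finset.card_range]
      rw [Finset.mem_product, Finset.mem_range] at hx
      exact hq.trans (Nat.mul_le_mul_right _ (hB _ hx.1 _ hx.2))) (fun y S hS hSy => by
      rw [one_mul]
      refine le_trans ?_ (hD y.1)
      rw [← SimpleGraph.card_neighborFinset_eq_degree]
      refine Finset.card_le_card_of_injOn (fun x => x.1) (fun x hx => ?_) fun x hx x' hx' e => ?_
      · have h3 := hS (Finset.mem_coe.1 hx)
        have h4 := hSy x (Finset.mem_coe.1 hx)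
        rw [Finset.mem_product, Finset.mem_range] at h3
        rw [Finset.mem_product] at h4
        rw [Finset.mem_coe, SimpleGraph.mem_neighborFinset]
        exact (hBG _ h3.1 _ h3.2 _ h4.1).symm
      · have h3 := hS (Finset.mem_coe.1 hx)
        have h4 := hSy x (Finset.mem_coe.1 hx)
        have h3' := hS (Finset.mem_coe.1 hx')
        have h4' := hSy x' (Finset.mem_coe.1 hx')
        rw [Finset.mem_product, Finset.mem_range] at h3 h3'
        rw [Finset.mem_product] at h4 h4'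
        have e' : x.1 = x'.1 := e
        rw [← e'] at h4'
        exact Prod.ext e' (hBd _ h3.1 _ h3.2 _ h3'.2 _ h4.1 h4'.1))
  refine ⟨fun v i => (ψ (v, i)).1, fun v hv i hi => ?_, fun u => ?_⟩
  · have h3 := h1 (v, i) (Finset.mem_product.2 ⟨hv, Finset.mem_range.2 hi⟩)
    exact (Finset.mem_product.1 h3).1
  · have hex : ∀ v, ∃ i, v ∈ (W.filter fun v => ∃ i < d, (ψ (v, i)).1 = u) →
        i < d ∧ (ψ (v, i)).1 = u := by
      intro v
      by_cases hv : ∃ i < d, (ψ (v, i)).1 = u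
      · obtain ⟨i, hi⟩ := hv
        exact ⟨i, fun _ => hi⟩
      · exact ⟨0, fun h => absurd (Finset.mem_filter.1 h).2 hv⟩
    choose I hI using hex
    rw [← Finset.card_range q]
    refine Finset.card_le_card_of_injOn (fun v => (ψ (v, I v)).2) (fun v hv => ?_)
      fun v hv v' hv' e => ?_
    · have h4 := hI v hv
      have h5 := h1 (v, I v) (Finset.mem_product.2 ⟨(Finset.mem_filter.1 hv).1,
        Finset.mem_range.2 h4.1⟩)
      exact (Finset.mem_product.1 h5).2
    · have h4 := hI v hv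
      have h4' := hI v' hv'
      have h5 := h2 (Finset.mem_coe.2 (Finset.mem_product.2 ⟨(Finset.mem_filter.1 hv).1,
        Finset.mem_range.2 h4.1⟩)) (Finset.mem_coe.2 (Finset.mem_product.2
        ⟨(Finset.mem_filter.1 hv').1, Finset.mem_range.2 h4'.1⟩))
        (Prod.ext (h4.2.trans h4'.2.symm) e)
      exact congrArg Prod.fst h5

/-- the vertices with labels below `13 D / 16` which have many such neighbours -/
noncomputable def Gd (G : SimpleGraph V) (D : ℕ) (f : V → ℕ) : Finset V :=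
  Finset.univ.filter fun v => f v < 13 * D / 16 ∧
    D / 16 ≤ ((G.neighborFinset v).filter fun u => f u < 13 * D / 16).card

omit [Fintype V] in
theorem col_card {G : SimpleGraph V} {N : ℕ} {m : ℕ → V → V} (hm : PC G N m) (v : V)
    (T : Finset V) (hT : ∀ u ∈ T, Col m v u) : T.card ≤ (Us N m v).card := by
  have h : T ⊆ (Us N m v).image fun a => m a v := by
    intro u hu
    obtain ⟨h1, a, ha⟩ := hT u hu
    have hne : m a v ≠ v := by rw [ha]; exact h1.symm
    exact Finset.mem_image.2 ⟨a, Finset.mem_filter.2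
      ⟨Finset.mem_range.2 (hm.adj a v hne).2, hne⟩, ha⟩
  exact (Finset.card_le_card h).trans Finset.card_image_le

theorem phaseB {G : SimpleGraph V} {D k : ℕ} {f : V → ℕ} (hb : Base G D k f) :
    ∃ m, PC G (D - 13 * D / 16 - k) m ∧ (∀ a v, m a v ≠ v → f v < 13 * D / 16) ∧
      ∀ v ∈ Gd G D f, 2 * k + 1 ≤ (Us (D - 13 * D / 16 - k) m v).card := by
  have hk1 := hb.k1
  have hk6 := hb.k6
  by_cases hV : Nonempty V
  swap
  · exact ⟨fun _ v => v, ⟨fun _ v => absurd ⟨v⟩ hV, fun _ v => absurd ⟨v⟩ hV,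
      fun _ _ v => absurd ⟨v⟩ hV⟩, fun _ v => absurd ⟨v⟩ hV, fun v => absurd ⟨v⟩ hV⟩
  have hc : ∀ v, ∃ c : ℕ → V, v ∈ Gd G D f →
      (∀ i < 9 * (2 * k + 1), G.Adj v (c i) ∧ f (c i) < 13 * D / 16) ∧
        ∀ i < 9 * (2 * k + 1), ∀ j < 9 * (2 * k + 1), c i = c j → i = j := by
    intro v
    by_cases hv : v ∈ Gd G D f
    · have h1 := (Finset.mem_filter.1 hv).2.2
      obtain ⟨c, hc1, hc2⟩ := enum ((G.neighborFinset v).filter fun u => f u < 13 * D / 16)
        (9 * (2 * k + 1)) (by omega)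
      refine ⟨c, fun _ => ⟨fun i hi => ?_, hc2⟩⟩
      have h2 := Finset.mem_filter.1 (hc1 i hi)
      rw [SimpleGraph.mem_neighborFinset] at h2
      exact h2
    · exact ⟨fun _ => v, fun h => absurd h hv⟩
  choose c hc using hc
  have hBm : ∀ v ∈ Gd G D f, ∀ i < 2 * k + 1, ∀ u,
      u ∈ (Finset.range 9).image (fun r => c v (9 * i + r)) → ∃ l, l < 9 * (2 * k + 1) ∧
        l / 9 = i ∧ c v l = u := by
    intro v hv i hi u hu
    obtain ⟨r, hr, rfl⟩ := Finset.mem_image.1 hu
    rw [Finset.mem_range] at hr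
    exact ⟨9 * i + r, by omega, by omega, rfl⟩
  have hBd : ∀ v ∈ Gd G D f, ∀ i < 2 * k + 1, ∀ j < 2 * k + 1, ∀ u,
      u ∈ (Finset.range 9).image (fun r => c v (9 * i + r)) →
      u ∈ (Finset.range 9).image (fun r => c v (9 * j + r)) → i = j := by
    intro v hv i hi j hj u hu hu'
    obtain ⟨l, h1, h2, h3⟩ := hBm v hv i hi u hu
    obtain ⟨l', h1', h2', h3'⟩ := hBm v hv j hj u hu'
    have := (hc v hv).2 l h1 l' h1' (h3.trans h3'.symm)
    omega
  obtain ⟨φ, p1, p2⟩ := picks G D (2 * k + 1) (D / 8) hb.deg (by omega) (by omega) (Gd G D f)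
    (fun v i => (Finset.range 9).image fun r => c v (9 * i + r)) (fun v hv i hi => by
      rw [Finset.card_image_of_injOn, Finset.card_range]
      intro r hr r' hr' e
      rw [Finset.mem_coe, Finset.mem_range] at hr hr'
      have := (hc v hv).2 (9 * i + r) (by omega) (9 * i + r') (by omega) e
      omega) (fun v hv i hi u hu => by
      obtain ⟨l, h1, -, h3⟩ := hBm v hv i hi u hu
      rw [← h3]
      exact ((hc v hv).1 l h1).1) hBd
  have p3 : ∀ v ∈ Gd G D f, ∀ i < 2 * k + 1, G.Adj v (φ v i) ∧ f (φ v i) < 13 * D / 16 := by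
    intro v hv i hi
    obtain ⟨l, h1, -, h3⟩ := hBm v hv i hi _ (p1 v hv i hi)
    rw [← h3]
    exact (hc v hv).1 l h1
  obtain ⟨K, hKd⟩ : ∃ K : SimpleGraph V, ∀ u v, K.Adj u v ↔
      G.Adj u v ∧ (f u < 13 * D / 16 ∧ f v < 13 * D / 16) ∧
        ((u ∈ Gd G D f ∧ ∃ i < 2 * k + 1, φ u i = v) ∨
          (v ∈ Gd G D f ∧ ∃ i < 2 * k + 1, φ v i = u)) :=
    ⟨{ Adj := fun u v => G.Adj u v ∧ (f u < 13 * D / 16 ∧ f v < 13 * D / 16) ∧
        ((u ∈ Gd G D f ∧ ∃ i < 2 * k + 1, φ u i = v) ∨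
          (v ∈ Gd G D f ∧ ∃ i < 2 * k + 1, φ v i = u))
       symm := ⟨fun _ _ h => ⟨h.1.symm, h.2.1.symm, h.2.2.symm⟩⟩
       loopless := ⟨fun u h => G.loopless.irrefl u h.1⟩ }, fun _ _ => Iff.rfl⟩
  have hK : ∀ v, K.degree v ≤ 2 * k + 1 + D / 8 := by
    intro v
    have h1 : K.neighborFinset v ⊆ (Finset.range (2 * k + 1)).image (φ v) ∪
        (Gd G D f).filter fun u => ∃ i < 2 * k + 1, φ u i = v := by
      intro u hu
      rw [SimpleGraph.mem_neighborFinset, hKd] at hu
      rcases hu.2.2 with ⟨-, i, hi, e⟩ | ⟨h2, i, hi, e⟩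
      · exact Finset.mem_union_left _ (Finset.mem_image.2 ⟨i, Finset.mem_range.2 hi, e⟩)
      · exact Finset.mem_union_right _ (Finset.mem_filter.2 ⟨h2, i, hi, e⟩)
    rw [← SimpleGraph.card_neighborFinset_eq_degree]
    refine (Finset.card_le_card h1).trans ((Finset.card_union_le _ _).trans
      (Nat.add_le_add ?_ (p2 v)))
    exact Finset.card_image_le.trans (Finset.card_range _).le
  obtain ⟨m, hm1, hm2⟩ := color K (D - 13 * D / 16 - k) (fun v => (hK v).trans (by omega))
    (fun v hv => by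
      have := hK v
      omega)
  refine ⟨m, ⟨hm1.inv, fun a v hv => ⟨((hKd _ _).1 (hm1.adj a v hv).1).1, (hm1.adj a v hv).2⟩,
    hm1.inj⟩, fun a v hv => ((hKd _ _).1 (hm1.adj a v hv).1).2.1.1, fun v hv => ?_⟩
  have h1 : ((Finset.range (2 * k + 1)).image (φ v)).card = 2 * k + 1 := by
    rw [Finset.card_image_of_injOn, Finset.card_range]
    intro i hi j hj e
    rw [Finset.mem_coe, Finset.mem_range] at hi hj
    have h2 := p1 v hv i hi
    have e' : φ v i = φ v j := e
    rw [e'] at h2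
    exact hBd v hv i hi j hj _ h2 (p1 v hv j hj)
  rw [← h1]
  refine col_card hm1 v _ fun u hu => ?_
  obtain ⟨i, hi, rfl⟩ := Finset.mem_image.1 hu
  rw [Finset.mem_range] at hi
  rw [← hm2, hKd]
  have h3 := p3 v hv i hi
  exact ⟨h3.1, ⟨(Finset.mem_filter.1 hv).2.1, h3.2⟩, Or.inl ⟨hv, i, hi, rfl⟩⟩

end Pool.Agent.H8.HV
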