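import Pool.Agent.H8.HV.Part

/-! From a partial colouring to the vertex labels. -/

set_option autoImplicit false

open scoped Classical

namespace Pool.Agent.H8.HV

variable {V : Type} [Fintype V]

/-- no two vertices of `A` are adjacent -/
def Ind (G : SimpleGraph V) (A : Finset V) : Prop := ∀ a ∈ A, ∀ b ∈ A, ¬ G.Adj a b

omit [Fintype V] in
theorem iter (G : SimpleGraph V) (n : ℕ) : ∀ Z : Finset V, Z.card = n → ∃ j : V → ℕ,
    (∀ u ∈ Z, ∀ v ∈ Z, G.Adj u v → j u ≠ j v) ∧
      ∀ i, ∀ A ⊆ Z, (∀ a ∈ A, i ≤ j a) → (∀ a ∈ A, ∀ b ∈ A, ¬ G.Adj a b) →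
        A.card ≤ (Z.filter fun z => j z = i).card := by
  induction n using Nat.strong_induction_on with
  | _ n ih =>
    intro Z hZ
    by_cases hZ0 : Z = ∅
    · subst hZ0
      refine ⟨fun _ => 0, fun u hu => absurd hu (Finset.notMem_empty u), fun i A hA _ _ => ?_⟩
      rw [Finset.subset_empty.1 hA, Finset.card_empty]
      exact Nat.zero_le _
    obtain ⟨z0, hz0⟩ := Finset.nonempty_iff_ne_empty.2 hZ0
    have hne : (Z.powerset.filter fun A => Ind G A).Nonempty :=
      ⟨{z0}, Finset.mem_filter.2 ⟨Finset.mem_powerset.2 (Finset.singleton_subset_iff.2 hz0),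
        fun a ha b hb h => by
          rw [Finset.mem_singleton.1 ha, Finset.mem_singleton.1 hb] at h
          exact G.loopless.irrefl _ h⟩⟩
    obtain ⟨I, hI, hmax⟩ := Finset.exists_max_image _ Finset.card hne
    obtain ⟨hI1, hI2⟩ := Finset.mem_filter.1 hI
    rw [Finset.mem_powerset] at hI1
    have hI0 : 0 < I.card := by
      have := hmax {z0} (Finset.mem_filter.2 ⟨Finset.mem_powerset.2
        (Finset.singleton_subset_iff.2 hz0), fun a ha b hb h => by
          rw [Finset.mem_singleton.1 ha, Finset.mem_singleton.1 hb] at h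
          exact G.loopless.irrefl _ h⟩)
      rw [Finset.card_singleton] at this
      omega
    have hIc := Finset.card_le_card hI1
    obtain ⟨j, hj1, hj2⟩ := ih (Z \ I).card (by
      rw [Finset.card_sdiff_of_subset hI1]
      omega) (Z \ I) rfl
    refine ⟨fun z => if z ∈ I then 0 else j z + 1, fun u hu v hv huv => ?_,
      fun i A hA hAi hAA => ?_⟩
    · change (if u ∈ I then 0 else j u + 1) ≠ (if v ∈ I then 0 else j v + 1)
      by_cases h1 : u ∈ I <;> by_cases h2 : v ∈ I
      · exact absurd huv (hI2 u h1 v h2)
      · rw [if_pos h1, if_neg h2]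
        omega
      · rw [if_neg h1, if_pos h2]
        omega
      · rw [if_neg h1, if_neg h2]
        have := hj1 u (Finset.mem_sdiff.2 ⟨hu, h1⟩) v (Finset.mem_sdiff.2 ⟨hv, h2⟩) huv
        omega
    · rcases i with _ | i
      · refine (hmax A (Finset.mem_filter.2 ⟨Finset.mem_powerset.2 hA, hAA⟩)).trans
          (Finset.card_le_card fun z hz => Finset.mem_filter.2 ⟨hI1 hz, if_pos hz⟩)
      · have h1 : ∀ a ∈ A, a ∉ I ∧ i ≤ j a := by
          intro a ha
          have h2 : i + 1 ≤ if a ∈ I then 0 else j a + 1 := hAi a ha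
          split_ifs at h2 with h3
          · omega
          · exact ⟨h3, by omega⟩
        refine (hj2 i A (fun a ha => Finset.mem_sdiff.2 ⟨hA ha, (h1 a ha).1⟩)
          (fun a ha => (h1 a ha).2) hAA).trans (Finset.card_le_card fun z hz => ?_)
        obtain ⟨h2, h3⟩ := Finset.mem_filter.1 hz
        obtain ⟨h4, h5⟩ := Finset.mem_sdiff.1 h2
        refine Finset.mem_filter.2 ⟨h4, ?_⟩
        change (if z ∈ I then 0 else j z + 1) = i + 1
        rw [if_neg h5, h3]

theorem pick_f {G : SimpleGraph V} {D k p : ℕ} {c : V → ℕ} (hc : Mn G p c)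
    (hD : ∀ v, G.degree v ≤ D) (hk1 : 1 ≤ k) (hk6 : 600 * k ≤ D) (hp : p = D - k)
    (hfew : ∀ v, 2 * ((G.neighborFinset v).filter fun u => c u = p).card ≤ D) :
    ∃ f, Base G D k f ∧ Best G D k f := by
  have h : ∃ n, ∃ c', PCol G p c' ∧ unc p c' = unc p c ∧ ∑ v, c' v = n :=
    ⟨_, c, hc.1, rfl, rfl⟩
  obtain ⟨c', h1, h2, h3⟩ := Nat.find_spec h
  have hmin : ∀ c'', PCol G p c'' → unc p c'' = unc p c → ∑ v, c' v ≤ ∑ v, c'' v := by
    intro c'' h4 h5
    rw [h3]
    exact Nat.find_min' h ⟨c'', h4, h5, rfl⟩
  have hc' : Mn G p c' := ⟨h1, fun c'' h4 => by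
    rw [h2]
    exact hc.2 c'' h4⟩
  obtain ⟨j, hj1, hj2⟩ := iter G _ (unc p c') rfl
  obtain ⟨f, hf⟩ : ∃ f : V → ℕ, ∀ v, f v = if c' v = p then p + j v else c' v := ⟨_, fun _ => rfl⟩
  have hlt : ∀ v, c' v ≠ p → c' v < p := fun v hv => lt_of_le_of_ne (h1.1 v) hv
  have hfp : ∀ v, p ≤ f v ↔ c' v = p := by
    intro v
    rw [hf]
    split_ifs with h4
    · exact ⟨fun _ => h4, fun _ => by omega⟩
    · have := hlt v h4
      exact ⟨fun h => by omega, fun h => absurd h h4⟩
  have hcc : ∀ v, c' v = p ↔ c v = p := by
    intro v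
    rw [← mem_unc, ← mem_unc, h2]
  refine ⟨f, ⟨fun u v huv e => ?_, fun v i hi => ?_, hD, fun v => ?_, hk1, hk6⟩,
    fun i A hA hAA => ?_⟩
  · rw [hf u, hf v] at e
    by_cases h4 : c' u = p <;> by_cases h5 : c' v = p
    · rw [if_pos h4, if_pos h5] at e
      exact hj1 u (mem_unc.2 h4) v (mem_unc.2 h5) huv (by omega)
    · rw [if_pos h4, if_neg h5] at e
      have := hlt v h5
      omega
    · rw [if_neg h4, if_pos h5] at e
      have := hlt u h4
      omega
    · rw [if_neg h4, if_neg h5] at e
      exact h4 (h1.2 u v huv e)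
  · have hsm : ∀ u, c' u < p → f u = c' u := fun u hu => by
      rw [hf, if_neg (by omega)]
    by_cases h4 : c' v = p
    · by_cases h5 : i < p
      · obtain ⟨u, hu1, hu2⟩ := hc'.sees v h4 i h5
        exact ⟨u, hu1, by rw [hsm u (by omega), hu2]⟩
      · rw [hf, if_pos h4] at hi
        by_contra hno
        push Not at hno
        have h6 := hj2 (i - p) (insert v ((unc p c').filter fun z => j z = i - p))
          (Finset.insert_subset (mem_unc.2 h4) (Finset.filter_subset _ _)) (fun a ha => by
            rcases Finset.mem_insert.1 ha with h7 | h7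
            · rw [h7]
              omega
            · exact (Finset.mem_filter.1 h7).2.ge) (fun a ha b hb hab => by
            have key : ∀ z, z ∈ (unc p c').filter (fun z => j z = i - p) → ¬ G.Adj v z := by
              intro z hz hvz
              obtain ⟨h8, h9⟩ := Finset.mem_filter.1 hz
              refine hno z hvz ?_
              rw [hf, if_pos (mem_unc.1 h8)]
              omega
            rcases Finset.mem_insert.1 ha with h7 | h7 <;> rcases Finset.mem_insert.1 hb with h8 | h8
            · rw [h7, h8] at hab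
              exact G.loopless.irrefl _ hab
            · rw [h7] at hab
              exact key b h8 hab
            · rw [h8] at hab
              exact key a h7 hab.symm
            · obtain ⟨h9, h10⟩ := Finset.mem_filter.1 h7
              obtain ⟨h11, h12⟩ := Finset.mem_filter.1 h8
              exact hj1 a h9 b h11 hab (h10.trans h12.symm))
        rw [Finset.card_insert_of_notMem] at h6
        · omega
        · intro h7
          have := (Finset.mem_filter.1 h7).2
          omega
    · rw [hf, if_neg h4] at hi
      have h5 := hlt v h4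
      by_contra hno
      push Not at hno
      have hup : ∀ u, Function.update c' v i u = if u = v then i else c' u := by
        intro u
        by_cases e : u = v
        · rw [if_pos e, e, Function.update_self]
        · rw [if_neg e, Function.update_of_ne e]
      have h6 : ∀ u, G.Adj v u → c' u ≠ i := by
        intro u hu e
        exact hno u hu (by rw [hsm u (by omega), e])
      have h7 := hmin (Function.update c' v i) ⟨fun u => by
          rw [hup]
          split_ifs
          · omega
          · exact h1.1 u, fun u w huw e => by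
          rw [hup, hup] at e
          rw [hup]
          by_cases h8 : u = v <;> by_cases h9 : w = v
          · rw [h8, h9] at huw
            exact absurd huw (G.loopless.irrefl _)
          · rw [if_pos h8, if_neg h9] at e
            rw [h8] at huw
            exact absurd e.symm (h6 w huw)
          · rw [if_neg h8, if_pos h9] at e
            rw [h9] at huw
            exact absurd e (h6 u huw.symm)
          · rw [if_neg h8, if_neg h9] at e
            rw [if_neg h8]
            exact h1.2 u w huw e⟩ (by
          rw [← h2]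
          ext u
          rw [mem_unc, mem_unc, hup]
          by_cases h8 : u = v
          · rw [if_pos h8, h8]
            constructor <;> intro <;> omega
          · rw [if_neg h8])
      have h8 : ∑ u, Function.update c' v i u < ∑ u, c' u := by
        refine Finset.sum_lt_sum (fun u _ => ?_) ⟨v, Finset.mem_univ _, ?_⟩
        · rw [hup]
          split_ifs with h9
          · rw [h9]
            exact hi.le
          · exact le_rfl
        · rw [hup, if_pos rfl]
          exact hi
      omega
  · refine le_trans (Nat.mul_le_mul_left 2 (Finset.card_le_card fun u hu => ?_)) (hfew v)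
    obtain ⟨h4, h5⟩ := Finset.mem_filter.1 hu
    rw [← hp] at h5
    exact Finset.mem_filter.2 ⟨h4, (hcc u).1 ((hfp u).1 h5)⟩
  · rw [← hp] at hA ⊢
    refine (hj2 i A (fun a ha => mem_unc.2 ((hfp a).1 (hA a ha).1)) (fun a ha => ?_) hAA).trans
      (Finset.card_le_card fun z hz => ?_)
    · have h4 := hA a ha
      have h5 := (hfp a).1 h4.1
      rw [hf, if_pos h5] at h4
      omega
    · obtain ⟨h4, h5⟩ := Finset.mem_filter.1 hz
      rw [mem_unc] at h4
      refine Finset.mem_filter.2 ⟨Finset.mem_univ _, ?_⟩
      rw [hf, if_pos h4]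
      omega

end Pool.Agent.H8.HV
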