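import Pool.Agent.H8.HV.Seq

/-! A random exchange spreads the uncoloured vertices. -/

set_option autoImplicit false

open scoped Classical

namespace Pool.Agent.H8.HV

open Pool.Agent.Helper635.LLL

variable {V : Type} [Fintype V]

/-- `z` comes after an uncoloured neighbour with the same choice -/
def LC (G : SimpleGraph V) (p : ℕ) (c : V → ℕ) (ρ : V → ℕ) {r : ℕ} (e : V → ℕ → ℕ)
    (ω : V → Fin r) (z : V) : Prop :=
  c z = p ∧ ∃ z', ρ z' < ρ z ∧ c z' = p ∧ G.Adj z z' ∧ e z' (ω z') = e z (ω z)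

/-- `u` is uncoloured by somebody's choice -/
def QC (G : SimpleGraph V) (p : ℕ) (c : V → ℕ) {r : ℕ} (e : V → ℕ → ℕ)
    (ω : V → Fin r) (u : V) : Prop :=
  c u < p ∧ ∃ z ∈ Rr G p c u, e z (ω z) = c u

/-- the choices are made in the lists -/
def Lst (G : SimpleGraph V) (p : ℕ) (c : V → ℕ) (r : ℕ) (e : V → ℕ → ℕ) : Prop :=
  ∀ z, c z = p → (∀ x < r, e z x ∈ Uq G p c z) ∧ ∀ x < r, ∀ y < r, e z x = e z y → x = y

variable {G : SimpleGraph V} {p : ℕ} {c : V → ℕ} {r : ℕ} {e : V → ℕ → ℕ}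

theorem lc_count (hc : Mn G p c) {D k : ℕ} (hD : ∀ v, G.degree v ≤ D) (hk : D ≤ p + k)
    (he : Lst G p c r e) (ρ : V → ℕ) (hρ : Function.Injective ρ) (A : Finset V) :
    cnt (fun ω : V → Fin r => ∀ a ∈ A, LC G p c ρ e ω a) * r ^ A.card ≤
      (k + 1) ^ A.card * Fintype.card (V → Fin r) := by
  have h := seq (T := V) (C := Fin r) ρ hρ (k + 1) (fun z ω x => c z = p ∧
    ∃ z', ρ z' < ρ z ∧ c z' = p ∧ G.Adj z z' ∧ e z' (ω z') = e z x) A.card A rfl
    (fun a _ ω ω' hω x hx => by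
      obtain ⟨h1, z', h2, h3, h4, h5⟩ := hx
      exact ⟨h1, z', h2, h3, h4, by rw [← hω z' h2]; exact h5⟩) (fun a _ ω X hX => by
      by_cases ha : c a = p
      · have h1 := (hc.counts hD hk a ha).1
        refine le_trans ?_ (h1.trans (Nat.le_succ k))
        have hex : ∀ x : Fin r, ∃ z', (∃ z', ρ z' < ρ a ∧ c z' = p ∧ G.Adj a z' ∧
            e z' (ω z') = e a x) → ρ z' < ρ a ∧ c z' = p ∧ G.Adj a z' ∧ e z' (ω z') = e a x := by
          intro x
          by_cases hx : ∃ z', ρ z' < ρ a ∧ c z' = p ∧ G.Adj a z' ∧ e z' (ω z') = e a x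
          · obtain ⟨z', hz'⟩ := hx
            exact ⟨z', fun _ => hz'⟩
          · exact ⟨a, fun h => absurd h hx⟩
        choose g hg using hex
        refine Finset.card_le_card_of_injOn g (fun x hx => ?_) fun x hx y hy hxy => ?_
        · have h2 := hg x (hX x (Finset.mem_coe.1 hx)).2
          exact Finset.mem_coe.2 (Finset.mem_filter.2
            ⟨(SimpleGraph.mem_neighborFinset _ _ _).2 h2.2.2.1, h2.2.1⟩)
        · have h2 := hg x (hX x (Finset.mem_coe.1 hx)).2
          have h3 := hg y (hX y (Finset.mem_coe.1 hy)).2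
          rw [hxy] at h2
          exact Fin.ext ((he a ha).2 x x.2 y y.2 (h2.2.2.2.symm.trans h3.2.2.2))
      · rw [Finset.card_eq_zero.2]
        · exact Nat.zero_le _
        · rw [Finset.eq_empty_iff_forall_notMem]
          exact fun x hx => ha (hX x hx).1)
  rw [Fintype.card_fin] at h
  exact h

theorem rr_card (hc : Mn G p c) {D k : ℕ} (hD : ∀ v, G.degree v ≤ D) (hk : D ≤ p + k)
    (u : V) (hu : c u < p) : (Rr G p c u).card ≤ k + 1 := by
  by_cases hne : (Rr G p c u).Nonempty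
  · obtain ⟨z, hz⟩ := hne
    have hz' := (Finset.mem_filter.1 hz).2
    have h1 := (hc.counts hD hk z hz'.1).1
    have h2 : (Rr G p c u).erase z ⊆ (G.neighborFinset z).filter fun u => c u = p := by
      intro w hw
      obtain ⟨h3, h4⟩ := Finset.mem_erase.1 hw
      exact Finset.mem_filter.2 ⟨(SimpleGraph.mem_neighborFinset _ _ _).2
        (hc.clique u hu z w hz h4 h3.symm), (Finset.mem_filter.1 h4).2.1⟩
    have h5 := Finset.card_le_card h2
    rw [Finset.card_erase_of_mem hz] at h5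
    omega
  · rw [Finset.not_nonempty_iff_eq_empty.1 hne, Finset.card_empty]
    exact Nat.zero_le _

theorem qc_one (he : Lst G p c r e) (ρ : V → ℕ)
    (hρ : Function.Injective ρ) (A : Finset V) (ζ : V → V) (hζ : ∀ u ∈ A, ζ u ∈ Rr G p c u) :
    cnt (fun ω : V → Fin r => ∀ u ∈ A, e (ζ u) (ω (ζ u)) = c u) * r ^ A.card ≤
      Fintype.card (V → Fin r) := by
  by_cases hinj : Set.InjOn ζ A
  · have hB : (A.image ζ).card = A.card := Finset.card_image_of_injOn hinj
    have h := seq (T := V) (C := Fin r) ρ hρ 1 (fun z _ x => ∃ u ∈ A, ζ u = z ∧ e z x = c u)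
      A.card (A.image ζ) hB (fun _ _ _ _ _ _ hx => hx) (fun z _ _ X hX => by
        rw [Finset.card_le_one]
        intro x hx y hy
        obtain ⟨u, hu, h1, h2⟩ := hX x hx
        obtain ⟨w, hw, h3, h4⟩ := hX y hy
        have h5 : u = w := hinj hu hw (h1.trans h3.symm)
        rw [h5, ← h4] at h2
        have h6 := (Finset.mem_filter.1 (hζ u hu)).2.1
        rw [h1] at h6
        exact Fin.ext ((he z h6).2 x x.2 y y.2 h2))
    rw [Fintype.card_fin, one_pow, one_mul] at h
    refine le_trans (Nat.mul_le_mul_right _ (cnt_mono fun ω hω z hz => ?_)) h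
    obtain ⟨u, hu, rfl⟩ := Finset.mem_image.1 hz
    exact ⟨u, hu, rfl, hω u hu⟩
  · have h0 : cnt (fun ω : V → Fin r => ∀ u ∈ A, e (ζ u) (ω (ζ u)) = c u) = 0 := by
      unfold cnt
      rw [Finset.card_eq_zero, Finset.eq_empty_iff_forall_notMem]
      intro ω hω
      rw [mem_ev] at hω
      refine hinj fun u hu w hw huw => ?_
      have h1 := hω u hu
      have h2 := hω w hw
      have h3 := (Finset.mem_filter.1 (hζ u hu)).2.2
      have h4 := (Finset.mem_filter.1 (hζ w hw)).2.2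
      rw [huw] at h1 h3
      exact (h3.2 w h4.1 (h2.symm.trans h1)).symm
    rw [h0, zero_mul]
    exact Nat.zero_le _

theorem qc_count (hc : Mn G p c) {D k : ℕ} (hD : ∀ v, G.degree v ≤ D) (hk : D ≤ p + k)
    (he : Lst G p c r e) (ρ : V → ℕ) (hρ : Function.Injective ρ) (A : Finset V) :
    cnt (fun ω : V → Fin r => ∀ a ∈ A, QC G p c e ω a) * r ^ A.card ≤
      (k + 1) ^ A.card * Fintype.card (V → Fin r) := by
  by_cases hA : ∀ u ∈ A, c u < p
  swap
  · push Not at hA
    obtain ⟨u, hu, hu'⟩ := hA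
    have h0 : cnt (fun ω : V → Fin r => ∀ a ∈ A, QC G p c e ω a) = 0 := by
      unfold cnt
      rw [Finset.card_eq_zero, Finset.eq_empty_iff_forall_notMem]
      intro ω hω
      rw [mem_ev] at hω
      have := (hω u hu).1
      omega
    rw [h0, zero_mul]
    exact Nat.zero_le _
  set F : Finset (V → V) := Fintype.piFinset fun u => if u ∈ A then Rr G p c u else {u} with hF
  have hFc : F.card ≤ (k + 1) ^ A.card := by
    rw [hF, Fintype.card_piFinset]
    have h1 : ∏ u : V, (if u ∈ A then Rr G p c u else {u}).card ≤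
        ∏ u : V, if u ∈ A then k + 1 else 1 := by
      refine Finset.prod_le_prod' fun u _ => ?_
      by_cases hu : u ∈ A
      · rw [if_pos hu, if_pos hu]
        exact rr_card hc hD hk u (hA u hu)
      · rw [if_neg hu, if_neg hu, Finset.card_singleton]
    refine h1.trans ?_
    rw [Finset.prod_ite, Finset.prod_const, Finset.prod_const_one, mul_one,
      Finset.filter_mem_eq_inter, Finset.univ_inter]
  have h2 : cnt (fun ω : V → Fin r => ∀ a ∈ A, QC G p c e ω a) ≤
      ∑ ζ ∈ F, cnt (fun ω : V → Fin r => ∀ u ∈ A, e (ζ u) (ω (ζ u)) = c u) := by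
    refine le_trans (Finset.card_le_card (t := F.biUnion fun ζ =>
      ev (fun ω : V → Fin r => ∀ u ∈ A, e (ζ u) (ω (ζ u)) = c u)) fun ω hω => ?_)
      Finset.card_biUnion_le
    rw [mem_ev] at hω
    have hex : ∀ u, ∃ z, (u ∈ A → z ∈ Rr G p c u ∧ e z (ω z) = c u) ∧ (u ∉ A → z = u) := by
      intro u
      by_cases hu : u ∈ A
      · obtain ⟨-, z, hz⟩ := hω u hu
        exact ⟨z, fun _ => hz, fun h => absurd hu h⟩
      · exact ⟨u, fun h => absurd h hu, fun _ => rfl⟩
    choose ζ hζ1 hζ2 using hex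
    rw [Finset.mem_biUnion]
    refine ⟨ζ, ?_, ?_⟩
    · rw [hF, Fintype.mem_piFinset]
      intro u
      by_cases hu : u ∈ A
      · rw [if_pos hu]
        exact (hζ1 u hu).1
      · rw [if_neg hu, Finset.mem_singleton]
        exact hζ2 u hu
    · rw [mem_ev]
      exact fun u hu => (hζ1 u hu).2
  calc cnt (fun ω : V → Fin r => ∀ a ∈ A, QC G p c e ω a) * r ^ A.card
      ≤ (∑ ζ ∈ F, cnt (fun ω : V → Fin r => ∀ u ∈ A, e (ζ u) (ω (ζ u)) = c u)) * r ^ A.card :=
        Nat.mul_le_mul_right _ h2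
    _ = ∑ ζ ∈ F, cnt (fun ω : V → Fin r => ∀ u ∈ A, e (ζ u) (ω (ζ u)) = c u) * r ^ A.card := by
        rw [Finset.sum_mul]
    _ ≤ ∑ ζ ∈ F, Fintype.card (V → Fin r) := by
        refine Finset.sum_le_sum fun ζ hζ => qc_one he ρ hρ A ζ fun u hu => ?_
        rw [hF, Fintype.mem_piFinset] at hζ
        have := hζ u
        rw [if_pos hu] at this
        exact this
    _ = F.card * Fintype.card (V → Fin r) := by rw [Finset.sum_const, smul_eq_mul]
    _ ≤ (k + 1) ^ A.card * Fintype.card (V → Fin r) := Nat.mul_le_mul_right _ hFc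

/-- too many neighbours of `v` are uncoloured in the end -/
def Bad (G : SimpleGraph V) (p D : ℕ) (c : V → ℕ) (ρ : V → ℕ) {r : ℕ} (e : V → ℕ → ℕ) (v : V)
    (ω : V → Fin r) : Prop :=
  D < 2 * ((G.neighborFinset v).filter fun u => QC G p c e ω u ∨ LC G p c ρ e ω u).card

theorem bad_count (hc : Mn G p c) {D k : ℕ} (hD : ∀ v, G.degree v ≤ D) (hk : D ≤ p + k)
    (he : Lst G p c r e) (hr : 256 * (k + 1) ≤ r) (ρ : V → ℕ) (hρ : Function.Injective ρ) (v : V) :
    cnt (Bad G p D c ρ (r := r) e v) * 2 ^ D ≤ 2 * Fintype.card (V → Fin r) := by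
  obtain ⟨s, hs⟩ : ∃ s, s = D / 4 + 1 := ⟨_, rfl⟩
  set F := Finset.powersetCard s (G.neighborFinset v) with hF
  have hFc : F.card ≤ 2 ^ D := by
    rw [hF, Finset.card_powersetCard, SimpleGraph.card_neighborFinset_eq_degree]
    refine (Nat.choose_le_two_pow _ _).trans (Nat.pow_le_pow_right (by norm_num) (hD v))
  have h1 : cnt (Bad G p D c ρ (r := r) e v) ≤
      ∑ A ∈ F, (cnt (fun ω : V → Fin r => ∀ a ∈ A, QC G p c e ω a) +
        cnt (fun ω : V → Fin r => ∀ a ∈ A, LC G p c ρ e ω a)) := by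
    refine le_trans (Finset.card_le_card (t := F.biUnion fun A =>
      ev (fun ω : V → Fin r => ∀ a ∈ A, QC G p c e ω a) ∪
        ev (fun ω : V → Fin r => ∀ a ∈ A, LC G p c ρ e ω a)) fun ω hω => ?_)
      (Finset.card_biUnion_le.trans (Finset.sum_le_sum fun A _ => Finset.card_union_le _ _))
    rw [mem_ev] at hω
    unfold Bad at hω
    have h2 := (Finset.card_le_card (s := (G.neighborFinset v).filter fun u =>
        QC G p c e ω u ∨ LC G p c ρ e ω u)
      (t := ((G.neighborFinset v).filter fun u => QC G p c e ω u) ∪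
        ((G.neighborFinset v).filter fun u => LC G p c ρ e ω u)) fun u hu => by
      obtain ⟨h5, h6⟩ := Finset.mem_filter.1 hu
      rcases h6 with h6 | h6
      · exact Finset.mem_union_left _ (Finset.mem_filter.2 ⟨h5, h6⟩)
      · exact Finset.mem_union_right _ (Finset.mem_filter.2 ⟨h5, h6⟩)).trans
        (Finset.card_union_le _ _)
    have h3 : s ≤ ((G.neighborFinset v).filter fun u => QC G p c e ω u).card ∨
        s ≤ ((G.neighborFinset v).filter fun u => LC G p c ρ e ω u).card := by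
      by_contra hno
      push Not at hno
      omega
    rw [Finset.mem_biUnion]
    rcases h3 with h3 | h3
    · obtain ⟨A, hA, hAc⟩ := Finset.exists_subset_card_eq h3
      refine ⟨A, Finset.mem_powersetCard.2 ⟨hA.trans (Finset.filter_subset _ _), hAc⟩,
        Finset.mem_union_left _ ?_⟩
      rw [mem_ev]
      exact fun a ha => (Finset.mem_filter.1 (hA ha)).2
    · obtain ⟨A, hA, hAc⟩ := Finset.exists_subset_card_eq h3
      refine ⟨A, Finset.mem_powersetCard.2 ⟨hA.trans (Finset.filter_subset _ _), hAc⟩,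
        Finset.mem_union_right _ ?_⟩
      rw [mem_ev]
      exact fun a ha => (Finset.mem_filter.1 (hA ha)).2
  have h2 : cnt (Bad G p D c ρ (r := r) e v) * r ^ s ≤
      2 ^ D * (2 * ((k + 1) ^ s * Fintype.card (V → Fin r))) := by
    calc cnt (Bad G p D c ρ (r := r) e v) * r ^ s
        ≤ (∑ A ∈ F, (cnt (fun ω : V → Fin r => ∀ a ∈ A, QC G p c e ω a) +
          cnt (fun ω : V → Fin r => ∀ a ∈ A, LC G p c ρ e ω a))) * r ^ s :=
          Nat.mul_le_mul_right _ h1
      _ = ∑ A ∈ F, (cnt (fun ω : V → Fin r => ∀ a ∈ A, QC G p c e ω a) * r ^ s +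
          cnt (fun ω : V → Fin r => ∀ a ∈ A, LC G p c ρ e ω a) * r ^ s) := by
          rw [Finset.sum_mul]
          exact Finset.sum_congr rfl fun A _ => by ring
      _ ≤ ∑ A ∈ F, 2 * ((k + 1) ^ s * Fintype.card (V → Fin r)) := by
          refine Finset.sum_le_sum fun A hA => ?_
          have hAc := (Finset.mem_powersetCard.1 hA).2
          have h3 := qc_count hc hD hk he ρ hρ A
          have h4 := lc_count hc hD hk he ρ hρ A
          rw [hAc] at h3 h4
          omega
      _ = F.card * (2 * ((k + 1) ^ s * Fintype.card (V → Fin r))) := by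
          rw [Finset.sum_const, smul_eq_mul]
      _ ≤ 2 ^ D * (2 * ((k + 1) ^ s * Fintype.card (V → Fin r))) := Nat.mul_le_mul_right _ hFc
  have h3 : 2 ^ D * 2 ^ D * (k + 1) ^ s ≤ r ^ s := by
    calc 2 ^ D * 2 ^ D * (k + 1) ^ s ≤ 256 ^ s * (k + 1) ^ s := by
          refine Nat.mul_le_mul_right _ ?_
          rw [← pow_add, show (256 : ℕ) = 2 ^ 8 by norm_num, ← pow_mul]
          exact Nat.pow_le_pow_right (by norm_num) (by omega)
      _ = (256 * (k + 1)) ^ s := by rw [mul_pow]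
      _ ≤ r ^ s := Nat.pow_le_pow_left hr s
  have h4 : (cnt (Bad G p D c ρ (r := r) e v) * 2 ^ D) * (2 ^ D * (k + 1) ^ s) ≤
      (2 * Fintype.card (V → Fin r)) * (2 ^ D * (k + 1) ^ s) := by
    calc (cnt (Bad G p D c ρ (r := r) e v) * 2 ^ D) * (2 ^ D * (k + 1) ^ s)
        = cnt (Bad G p D c ρ (r := r) e v) * (2 ^ D * 2 ^ D * (k + 1) ^ s) := by ring
      _ ≤ cnt (Bad G p D c ρ (r := r) e v) * r ^ s := Nat.mul_le_mul_left _ h3
      _ ≤ 2 ^ D * (2 * ((k + 1) ^ s * Fintype.card (V → Fin r))) := h2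
      _ = _ := by ring
  exact Nat.le_of_mul_le_mul_right h4 (by positivity)

end Pool.Agent.H8.HV
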