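import Pool.Agent.H8.HV.Part
import Pool.Graph.R_seed8.Helper635.LLL

/-! Counting functions whose values are chosen one after another. -/

set_option autoImplicit false

open scoped Classical

namespace Pool.Agent.H8.HV

open Pool.Agent.Helper635.LLL

theorem seq {T C : Type} [Fintype T] [Fintype C] (ρ : T → ℕ) (hρ : Function.Injective ρ) (t : ℕ)
    (P : T → (T → C) → C → Prop) (n : ℕ) : ∀ A : Finset T, A.card = n →
    (∀ a ∈ A, ∀ ω ω' : T → C, (∀ b, ρ b < ρ a → ω b = ω' b) → ∀ x, P a ω x → P a ω' x) →
    (∀ a ∈ A, ∀ ω, ∀ X : Finset C, (∀ x ∈ X, P a ω x) → X.card ≤ t) →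
    cnt (fun ω : T → C => ∀ a ∈ A, P a ω (ω a)) * Fintype.card C ^ n ≤
      t ^ n * Fintype.card (T → C) := by
  induction n with
  | zero =>
    intro A _ _ _
    rw [pow_zero, pow_zero, mul_one, one_mul]
    exact Finset.card_le_univ _
  | succ n ih =>
    intro A hA hP ht
    obtain ⟨a, ha, hmax⟩ := Finset.exists_max_image A ρ (Finset.card_pos.1 (by omega))
    have hA' : (A.erase a).card = n := by
      rw [Finset.card_erase_of_mem ha, hA]
      rfl
    have h1 := ih (A.erase a) hA' (fun b hb => hP b (Finset.mem_of_mem_erase hb))
      (fun b hb => ht b (Finset.mem_of_mem_erase hb))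
    have h2 : cnt (fun ω : T → C => ∀ b ∈ A, P b ω (ω b)) * Fintype.card C ≤
        cnt (fun ω : T → C => ∀ b ∈ A.erase a, P b ω (ω b)) * t := by
      have h3 : ((ev fun ω : T → C => ∀ b ∈ A, P b ω (ω b)) ×ˢ (Finset.univ : Finset C)).card ≤
          ((ev fun ω : T → C => ∀ b ∈ A.erase a, P b ω (ω b)).sigma
            fun ω => Finset.univ.filter fun x => P a ω x).card := by
        refine Finset.card_le_card_of_injOn
          (fun y => ⟨Function.update y.1 a y.2, y.1 a⟩) (fun y hy => ?_) fun y hy y' hy' e => ?_
        · rw [Finset.mem_coe, Finset.mem_product, mem_ev] at hy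
          rw [Finset.mem_coe, Finset.mem_sigma, mem_ev]
          refine ⟨fun b hb => ?_, Finset.mem_filter.2 ⟨Finset.mem_univ _, ?_⟩⟩
          · have hba : b ≠ a := Finset.ne_of_mem_erase hb
            have hbA : b ∈ A := Finset.mem_of_mem_erase hb
            have h4 : ρ b < ρ a := lt_of_le_of_ne (hmax b hbA) fun e => hba (hρ e)
            change P b (Function.update y.1 a y.2) (Function.update y.1 a y.2 b)
            rw [Function.update_of_ne hba]
            refine hP b hbA y.1 _ (fun x hx => ?_) _ (hy.1 b hbA)
            rw [Function.update_of_ne]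
            intro e
            rw [e] at hx
            omega
          · change P a (Function.update y.1 a y.2) (y.1 a)
            refine hP a ha y.1 _ (fun x hx => ?_) _ (hy.1 a ha)
            rw [Function.update_of_ne]
            intro e
            rw [e] at hx
            omega
        · have e1 : Function.update y.1 a y.2 = Function.update y'.1 a y'.2 :=
            congrArg Sigma.fst e
          have e2 : y.1 a = y'.1 a := by
            have e3 := (Sigma.mk.inj_iff.1 e).2
            exact eq_of_heq e3
          refine Prod.ext (funext fun b => ?_) ?_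
          · by_cases hb : b = a
            · rw [hb, e2]
            · have := congrFun e1 b
              rwa [Function.update_of_ne hb, Function.update_of_ne hb] at this
          · have := congrFun e1 a
            rwa [Function.update_self, Function.update_self] at this
      rw [Finset.card_product, Finset.card_univ, Finset.card_sigma] at h3
      refine h3.trans ?_
      unfold cnt
      rw [← smul_eq_mul, ← Finset.sum_const]
      exact Finset.sum_le_sum fun ω _ => ht a ha ω _ fun x hx => (Finset.mem_filter.1 hx).2
    calc cnt (fun ω : T → C => ∀ b ∈ A, P b ω (ω b)) * Fintype.card C ^ (n + 1)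
        = (cnt (fun ω : T → C => ∀ b ∈ A, P b ω (ω b)) * Fintype.card C) *
          Fintype.card C ^ n := by rw [pow_succ]; ring
      _ ≤ (cnt (fun ω : T → C => ∀ b ∈ A.erase a, P b ω (ω b)) * t) * Fintype.card C ^ n :=
          Nat.mul_le_mul_right _ h2
      _ = t * (cnt (fun ω : T → C => ∀ b ∈ A.erase a, P b ω (ω b)) * Fintype.card C ^ n) := by ring
      _ ≤ t * (t ^ n * Fintype.card (T → C)) := Nat.mul_le_mul_left _ h1
      _ = t ^ (n + 1) * Fintype.card (T → C) := by rw [pow_succ]; ring

end Pool.Agent.H8.HV
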