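import Pool.Agent.H8.HV.PhB

/-! The completion: the edges which are left get the largest labels. -/

set_option autoImplicit false

open scoped Classical

namespace Pool.Agent.H8.HV

variable {V : Type} [Fintype V]

theorem rest_graph {G : SimpleGraph V} {N : ℕ} {m : ℕ → V → V} (hm : PC G N m) :
    ∃ G' : SimpleGraph V, (∀ u v, G'.Adj u v ↔ G.Adj u v ∧ ∀ a, m a u ≠ v) ∧
      ∀ v, G'.degree v + (Us N m v).card ≤ G.degree v := by
  refine ⟨{ Adj := fun u v => G.Adj u v ∧ ∀ a, m a u ≠ v
            symm := ⟨fun u v h => ⟨h.1.symm, fun a e => h.2 a (by rw [← e, hm.inv])⟩⟩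
            loopless := ⟨fun u h => G.loopless.irrefl u h.1⟩ }, fun _ _ => Iff.rfl, ?_⟩
  generalize hG : ({ Adj := fun u v => G.Adj u v ∧ ∀ a, m a u ≠ v
                     symm := ⟨fun u v h => ⟨h.1.symm, fun a e => h.2 a (by rw [← e, hm.inv])⟩⟩
                     loopless := ⟨fun u h => G.loopless.irrefl u h.1⟩ } : SimpleGraph V) = G'
  have hG' : ∀ u v, G'.Adj u v ↔ G.Adj u v ∧ ∀ a, m a u ≠ v := by
    intro u v
    rw [← hG]
  intro v
  have h1 : ((Us N m v).image fun a => m a v).card = (Us N m v).card := by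
    refine Finset.card_image_of_injOn fun a ha b hb e => ?_
    exact hm.inj a b v (Finset.mem_filter.1 (Finset.mem_coe.1 ha)).2 e
  have h2 : Disjoint (G'.neighborFinset v) ((Us N m v).image fun a => m a v) := by
    rw [Finset.disjoint_left]
    intro u hu hu'
    obtain ⟨a, -, ha⟩ := Finset.mem_image.1 hu'
    rw [SimpleGraph.mem_neighborFinset, hG'] at hu
    exact hu.2 a ha
  rw [← h1, ← SimpleGraph.card_neighborFinset_eq_degree, ← Finset.card_union_of_disjoint h2,
    ← SimpleGraph.card_neighborFinset_eq_degree]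
  refine Finset.card_le_card fun u hu => ?_
  rw [SimpleGraph.mem_neighborFinset]
  rcases Finset.mem_union.1 hu with h3 | h3
  · rw [SimpleGraph.mem_neighborFinset, hG'] at h3
    exact h3.1
  · obtain ⟨a, ha, rfl⟩ := Finset.mem_image.1 h3
    exact (hm.adj a v (Finset.mem_filter.1 ha).2).1

/-- the labels below `D + p` -/
structure PB (G : SimpleGraph V) (D k : ℕ) (f : V → ℕ) (m : ℕ → V → V) : Prop where
  pc : PC G (D + 2 * (D - k)) m
  lab : ∀ a v, m a v ≠ v → a < D + (D - k) ∧ (a + (D - k) ≤ f v ∨ f v + (D - k) ≤ a)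
  sl : ∀ v ∈ SL G D k f, k + 1 ≤ (Us (D + 2 * (D - k)) m v).card
  top : ∀ v, 13 * D / 16 ≤ f v →
    f v - (D - k) + min (k + 1) (D - f v) ≤ (Us (D + 2 * (D - k)) m v).card
  gd : ∀ v ∈ Gd G D f, 2 * k + 1 ≤ (Us (D + 2 * (D - k)) m v).card
  low : ∀ v (T : Finset V), 13 * D / 16 ≤ f v → (∀ u ∈ T, u ≠ v ∧ f u < D - k ∧ ∃ a, m a v = u) →
    T.card ≤ k + 1

theorem phaseAB {G : SimpleGraph V} {D k : ℕ} {f : V → ℕ} (hb : Base G D k f)
    (hbest : Best G D k f) : ∃ m, PB G D k f m := by
  have hk1 := hb.k1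
  have hk6 := hb.k6
  obtain ⟨m, hm⟩ := phaseA hb hbest (k + 1) le_rfl
  obtain ⟨m', h1, h2, h3⟩ := phaseB hb
  obtain ⟨b, hbd⟩ : ∃ b, b = D - k + 13 * D / 16 - 1 := ⟨_, rfl⟩
  have hN : b + (D - 13 * D / 16 - k) ≤ D + 2 * (D - k) := by omega
  have hfree : ∀ a v, b ≤ a → a < b + (D - 13 * D / 16 - k) → m a v = v := by
    intro a v ha ha'
    by_contra hne
    rcases hm.lab a v hne with h4 | h4 <;> omega
  have hle := us_add (m' := m') hN hfree
  refine ⟨padd m b (D - 13 * D / 16 - k) m', pc_add hm.pc h1 hN (fun a c v hv e => ?_),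
    fun a v => ?_, fun v hv => (hm.sl v hv).trans ((Nat.le_add_right _ _).trans (hle v)),
    fun v hv => (hm.top v hv).trans ((Nat.le_add_right _ _).trans (hle v)),
    fun v hv => (h3 v hv).trans ((Nat.le_add_left _ _).trans (hle v)), fun v T hv hT => ?_⟩
  · have h4 : m' c v ≠ v := by rw [← e]; exact hv
    have h5 := h2 c v h4
    have h6 : f (m' c v) < 13 * D / 16 := h2 c _ (by rw [h1.inv]; exact h4.symm)
    rw [← e] at h6
    rcases hm.lab a v hv with h7 | h7 <;> omega
  · unfold padd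
    by_cases e : b ≤ a ∧ a < b + (D - 13 * D / 16 - k)
    · rw [if_pos e]
      intro hv
      have := h2 _ _ hv
      omega
    · rw [if_neg e]
      intro hv
      rcases hm.lab a v hv with h4 | h4
      · exact ⟨by omega, Or.inl h4.2.2⟩
      · exact ⟨h4.2.1, Or.inr h4.2.2.1⟩
  · refine le_trans (used_card hm.pc v T fun u hu => ?_) (hm.nz hk1 hk6 le_rfl v)
    obtain ⟨h4, h5, a, ha⟩ := hT u hu
    refine ⟨h4, Or.inr h5, a, ?_⟩
    unfold padd at ha
    by_cases e : b ≤ a ∧ a < b + (D - 13 * D / 16 - k)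
    · rw [if_pos e] at ha
      have := h2 (a - b) v (by rw [ha]; exact h4)
      omega
    · rw [if_neg e] at ha
      exact ha

/-- all edges are labelled -/
theorem total {G : SimpleGraph V} {D k : ℕ} {f : V → ℕ} (hb : Base G D k f)
    (hbest : Best G D k f) : ∃ m : ℕ → V → V, PC G (D + 2 * (D - k)) m ∧
      (∀ u v, G.Adj u v → ∃ a, m a u = v) ∧
      ∀ a v, m a v ≠ v → a + (D - k) ≤ f v ∨ f v + (D - k) ≤ a := by
  have hk1 := hb.k1
  have hk6 := hb.k6
  obtain ⟨m, hm⟩ := phaseAB hb hbest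
  obtain ⟨G', hG', hdeg'⟩ := rest_graph hm.pc
  have hZ : ∀ v, G'.degree v ≤ D - k ∧ (G'.degree v = D - k → D - k ≤ f v) := by
    intro v
    have h1 := hdeg' v
    have h2 := hb.deg v
    by_cases c1 : 13 * D / 16 ≤ f v
    · have h3 := hm.top v c1
      have h4 := hb.le v
      constructor
      · omega
      · intro h5
        omega
    · by_cases c2 : v ∈ Gd G D f
      · have h3 := hm.gd v c2
        omega
      · by_cases c3 : v ∈ SL G D k f
        · have h3 := hm.sl v c3
          omega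
        · have h4 : ¬ (D / 16 ≤
              ((G.neighborFinset v).filter fun u => f u < 13 * D / 16).card) := fun h =>
            c2 (Finset.mem_filter.2 ⟨Finset.mem_univ _, by omega, h⟩)
          have h5 : ¬ (D - k ≤ G.degree v) := fun h =>
            c3 (Finset.mem_filter.2 ⟨Finset.mem_univ _, by omega, h, by omega⟩)
          omega
  obtain ⟨m', h1, h2⟩ := color G' (D - k) (fun v => (hZ v).1) (fun x hx hp => by
    have hxf := (hZ x).2 hx
    have h3 : ((G'.neighborFinset x).filter fun w => G'.degree w = D - k).card ≤ k + 1 := by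
      have := hb.rest x 0 (D - k) hxf
        ((G'.neighborFinset x).filter fun w => G'.degree w = D - k) fun w hw => by
          obtain ⟨h4, h5⟩ := Finset.mem_filter.1 hw
          rw [SimpleGraph.mem_neighborFinset, hG'] at h4
          have := (hZ w).2 h5
          exact ⟨h4.1, by omega⟩
      omega
    obtain ⟨c, hc⟩ := hb.pick x (13 * D / 16) (by omega)
    have h4 : ∃ i ∈ Finset.Ico (D / 16) (13 * D / 16), ∀ a, m a x ≠ c i := by
      by_contra hno
      push Not at hno
      have h5 := hm.low x ((Finset.Ico (D / 16) (13 * D / 16)).image c) (by omega) (fun u hu => by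
        obtain ⟨i, hi, rfl⟩ := Finset.mem_image.1 hu
        obtain ⟨a, ha⟩ := hno i hi
        rw [Finset.mem_Ico] at hi
        have h6 := hc i hi.2
        exact ⟨h6.1.ne', by omega, a, ha⟩)
      rw [Finset.card_image_of_injOn, Nat.card_Ico] at h5
      · omega
      · intro i hi j hj e
        rw [Finset.mem_coe, Finset.mem_Ico] at hi hj
        have e' : c i = c j := e
        rw [← (hc i hi.2).2, ← (hc j hj.2).2, e']
    obtain ⟨i, hi, hia⟩ := h4
    rw [Finset.mem_Ico] at hi
    have h5 := hc i hi.2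
    refine ⟨c i, (hG' _ _).2 ⟨h5.1, hia⟩, ?_⟩
    have h6 : c i ∈ Gd G D f := by
      refine Finset.mem_filter.2 ⟨Finset.mem_univ _, by omega, ?_⟩
      have h7 := hb.sees_card (c i) 0 (f (c i)) le_rfl
      refine le_trans (le_trans ?_ h7) (Finset.card_le_card fun u hu => ?_)
      · omega
      · obtain ⟨h8, h9⟩ := Finset.mem_filter.1 hu
        exact Finset.mem_filter.2 ⟨h8, by omega⟩
    have h7 := hm.gd _ h6
    have h8 := hdeg' (c i)
    have h9 := hb.deg (c i)
    refine le_trans (Nat.add_le_add_left h3 _) ?_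
    omega)
  have hN : D + (D - k) + (D - k) ≤ D + 2 * (D - k) := by omega
  have h1' : PC G (D - k) m' := ⟨h1.inv, fun a v hv =>
    ⟨((hG' _ _).1 (h1.adj a v hv).1).1, (h1.adj a v hv).2⟩, h1.inj⟩
  refine ⟨padd m (D + (D - k)) (D - k) m', pc_add hm.pc h1' hN (fun a c v hv e => ?_),
    fun u v huv => ?_, fun a v => ?_⟩
  · have h3 : m' c v ≠ v := by rw [← e]; exact hv
    exact ((hG' _ _).1 (h1.adj c v h3).1).2 a e
  · by_cases hc : ∃ a, m a u = v
    · obtain ⟨a, ha⟩ := hc
      refine ⟨a, ?_⟩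
      have h3 := hm.lab a u (by rw [ha]; exact huv.ne')
      unfold padd
      rw [if_neg (by omega)]
      exact ha
    · push Not at hc
      obtain ⟨-, a, ha⟩ := (h2 u v).1 ((hG' u v).2 ⟨huv, hc⟩)
      refine ⟨D + (D - k) + a, ?_⟩
      have h3 := h1.adj a u (by rw [ha]; exact huv.ne')
      unfold padd
      rw [if_pos (by omega), Nat.add_sub_cancel_left]
      exact ha
  · unfold padd
    by_cases e : D + (D - k) ≤ a ∧ a < D + (D - k) + (D - k)
    · rw [if_pos e]
      intro _
      have := hb.le v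
      omega
    · rw [if_neg e]
      intro hv
      exact (hm.lab a v hv).2

end Pool.Agent.H8.HV
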