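import Pool.Agent.H8.HV.Rnd
import Pool.Agent.H8.HV.Pick
import Pool.Agent.H8.HV.Total

/-! The local lemma, and the main theorem. -/

set_option autoImplicit false

open scoped Classical

namespace Pool.Agent.H8.HV

open Pool.Agent.Helper635.LLL

variable {V : Type} [Fintype V]

/-- the vertices near `v` -/
noncomputable def Bl (G : SimpleGraph V) (v : V) : Finset V :=
  (G.neighborFinset v).biUnion fun u => insert u (G.neighborFinset u)

theorem mem_bl {G : SimpleGraph V} {v w : V} :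
    w ∈ Bl G v ↔ ∃ u, G.Adj v u ∧ (w = u ∨ G.Adj u w) := by
  unfold Bl
  rw [Finset.mem_biUnion]
  constructor
  · rintro ⟨u, h1, h2⟩
    rw [SimpleGraph.mem_neighborFinset] at h1
    rw [Finset.mem_insert, SimpleGraph.mem_neighborFinset] at h2
    exact ⟨u, h1, h2⟩
  · rintro ⟨u, h1, h2⟩
    refine ⟨u, (SimpleGraph.mem_neighborFinset _ _ _).2 h1, ?_⟩
    rw [Finset.mem_insert, SimpleGraph.mem_neighborFinset]
    exact h2

theorem bl_symm {G : SimpleGraph V} {v w : V} (h : w ∈ Bl G v) : v ∈ Bl G w := by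
  rw [mem_bl] at h ⊢
  obtain ⟨u, h1, h2 | h2⟩ := h
  · exact ⟨v, by rw [h2]; exact h1.symm, Or.inl rfl⟩
  · exact ⟨u, h2.symm, Or.inr h1.symm⟩

theorem bl_card {G : SimpleGraph V} {D : ℕ} (hD : ∀ v, G.degree v ≤ D) (v : V) :
    (Bl G v).card ≤ D * (D + 1) := by
  unfold Bl
  refine Finset.card_biUnion_le.trans ?_
  refine (Finset.sum_le_card_nsmul _ _ (D + 1) fun u _ => ?_).trans ?_
  · refine (Finset.card_insert_le _ _).trans ?_
    rw [SimpleGraph.card_neighborFinset_eq_degree]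
    exact Nat.add_le_add_right (hD u) 1
  · rw [smul_eq_mul, SimpleGraph.card_neighborFinset_eq_degree]
    exact Nat.mul_le_mul_right _ (hD v)

theorem dep_card {G : SimpleGraph V} {D : ℕ} (hD : ∀ v, G.degree v ≤ D) (v : V) :
    (Finset.univ.filter fun w => ¬ Disjoint (Bl G v) (Bl G w)).card ≤ (D * (D + 1)) ^ 2 := by
  have h1 : (Finset.univ.filter fun w => ¬ Disjoint (Bl G v) (Bl G w)) ⊆
      (Bl G v).biUnion fun u => Bl G u := by
    intro w hw
    obtain ⟨u, h2, h3⟩ := Finset.not_disjoint_iff.1 (Finset.mem_filter.1 hw).2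
    exact Finset.mem_biUnion.2 ⟨u, h2, bl_symm h3⟩
  refine (Finset.card_le_card h1).trans (Finset.card_biUnion_le.trans
    ((Finset.sum_le_card_nsmul _ _ (D * (D + 1)) fun u _ => bl_card hD u).trans ?_))
  rw [smul_eq_mul, pow_two]
  exact Nat.mul_le_mul_right _ (bl_card hD v)

theorem pow_big (D : ℕ) (hD : 600 ≤ D) : 8 * (D * (D + 1)) ^ 2 ≤ 2 ^ D := by
  have h : ∀ n : ℕ, 32 ≤ n → 8 * (n + 1) ^ 4 ≤ 2 ^ n := by
    intro n hn
    induction n, hn using Nat.le_induction with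
    | base => norm_num
    | succ n hn ih =>
      have h1 : (n + 1 + 1) ^ 4 ≤ 2 * (n + 1) ^ 4 := by
        obtain ⟨x, hx⟩ : ∃ x, x = n + 1 := ⟨_, rfl⟩
        rw [← hx]
        have hx33 : 33 ≤ x := by omega
        have h2 : 4 * x ^ 3 + 6 * x ^ 2 + 4 * x + 1 ≤ x ^ 4 := by
          have e1 : 33 * x ^ 3 ≤ x ^ 4 := by
            rw [pow_succ x 3, mul_comm]
            exact Nat.mul_le_mul_left _ hx33
          have e2 : x ^ 2 ≤ x ^ 3 := Nat.pow_le_pow_right (by omega) (by norm_num)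
          have e3 : x ≤ x ^ 3 := Nat.le_self_pow (by norm_num) x
          omega
        calc (x + 1) ^ 4 = x ^ 4 + (4 * x ^ 3 + 6 * x ^ 2 + 4 * x + 1) := by ring
          _ ≤ x ^ 4 + x ^ 4 := Nat.add_le_add_left h2 _
          _ = 2 * x ^ 4 := by ring
      calc 8 * (n + 1 + 1) ^ 4 ≤ 8 * (2 * (n + 1) ^ 4) := Nat.mul_le_mul_left _ h1
        _ = 2 * (8 * (n + 1) ^ 4) := by ring
        _ ≤ 2 * 2 ^ n := Nat.mul_le_mul_left _ ih
        _ = 2 ^ (n + 1) := by rw [pow_succ]; ring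
  refine le_trans ?_ (h D (by omega))
  refine Nat.mul_le_mul_left _ ?_
  calc (D * (D + 1)) ^ 2 ≤ ((D + 1) * (D + 1)) ^ 2 :=
        Nat.pow_le_pow_left (Nat.mul_le_mul_right _ (Nat.le_succ D)) 2
    _ = (D + 1) ^ 4 := by ring

theorem bad_dep {G : SimpleGraph V} {p D r : ℕ} {c : V → ℕ} {ρ : V → ℕ} {e : V → ℕ → ℕ} (v : V) :
    Helper635.LLL.DependsOn (Bad G p D c ρ (r := r) e v) (Bl G v) := by
  intro ω ω' h h1
  unfold Bad at h1 ⊢
  refine lt_of_lt_of_le h1 (Nat.mul_le_mul_left 2 (Finset.card_le_card fun u hu => ?_))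
  obtain ⟨h2, h3⟩ := Finset.mem_filter.1 hu
  have h4 := (SimpleGraph.mem_neighborFinset _ _ _).1 h2
  have h5 : ∀ w, G.Adj u w → ω w = ω' w := fun w hw => h w (mem_bl.2 ⟨u, h4, Or.inr hw⟩)
  have h6 : ω u = ω' u := h u (mem_bl.2 ⟨u, h4, Or.inl rfl⟩)
  refine Finset.mem_filter.2 ⟨h2, ?_⟩
  rcases h3 with ⟨h7, z, hz, h8⟩ | ⟨h7, z, h8, h9, h10, h11⟩
  · refine Or.inl ⟨h7, z, hz, ?_⟩
    rw [← h5 z (Finset.mem_filter.1 hz).2.2.1.symm]
    exact h8
  · refine Or.inr ⟨h7, z, h8, h9, h10, ?_⟩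
    rw [← h5 z h10, ← h6]
    exact h11

theorem spread {G : SimpleGraph V} {D k p : ℕ} {c : V → ℕ} (hc : Mn G p c)
    (hD : ∀ v, G.degree v ≤ D) (hk1 : 1 ≤ k) (hk6 : 600 * k ≤ D) (hp : p = D - k) :
    ∃ c', Mn G p c' ∧ ∀ v, 2 * ((G.neighborFinset v).filter fun u => c' u = p).card ≤ D := by
  have hk : D ≤ p + k := by omega
  obtain ⟨r, hr⟩ : ∃ r, r = p - k := ⟨_, rfl⟩
  have hex : ∀ z, ∃ e : ℕ → ℕ, c z = p → (∀ x < r, e x ∈ Uq G p c z) ∧
      ∀ x < r, ∀ y < r, e x = e y → x = y := by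
    intro z
    by_cases hz : c z = p
    · have h1 := (hc.counts hD hk z hz).2
      obtain ⟨e, he⟩ := enum (Uq G p c z) r (by omega)
      exact ⟨e, fun _ => he⟩
    · exact ⟨fun x => x, fun h => absurd h hz⟩
  choose e he using hex
  have he' : Lst G p c r e := he
  set ρ : V → ℕ := fun v => (Fintype.equivFin V v).val with hρd
  have hρ : Function.Injective ρ := fun a b h =>
    (Fintype.equivFin V).injective (Fin.ext h)
  have hr1 : 0 < r := by omega
  have : Nonempty (Fin r) := ⟨⟨0, hr1⟩⟩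
  obtain ⟨ω, hω⟩ := lll (T := V) (C := Fin r) Finset.univ
    (fun v => Bad G p D c ρ (r := r) e v) (Bl G) (fun v _ => bad_dep v) (2 / 2 ^ D)
    ((D * (D + 1)) ^ 2) (by positivity) (fun v _ => by
      have h1 := bad_count hc hD hk he' (by omega) ρ hρ v
      have h2 : (cnt (Bad G p D c ρ (r := r) e v) : ℝ) * 2 ^ D ≤
          2 * (Fintype.card (V → Fin r) : ℝ) := by exact_mod_cast h1
      rw [div_mul_eq_mul_div, le_div_iff₀ (by positivity)]
      exact h2) (fun v _ => dep_card hD v) (by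
      have h1 := pow_big D (by omega)
      have h2 : (8 : ℝ) * ((D * (D + 1)) ^ 2 : ℕ) ≤ 2 ^ D := by exact_mod_cast h1
      have h3 : (4 : ℝ) * (2 / 2 ^ D) * ((D * (D + 1)) ^ 2 : ℕ) =
          (8 * ((D * (D + 1)) ^ 2 : ℕ)) / 2 ^ D := by ring
      rw [h3, div_le_one (by positivity)]
      exact h2) (by
      have : 0 < D * (D + 1) := by
        have : 0 < D := by omega
        positivity
      exact Nat.one_le_pow _ _ this) Fintype.card_pos
  have hU : ∀ z, c z = p → e z (ω z) < p ∧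
      ((G.neighborFinset z).filter fun u => c u = e z (ω z)).card = 1 := by
    intro z hz
    obtain ⟨h1, h2⟩ := Finset.mem_filter.1 ((he z hz).1 (ω z) (ω z).2)
    exact ⟨Finset.mem_range.1 h1, h2⟩
  have hone : ∀ z u u', c z = p → G.Adj z u → c u = e z (ω z) → G.Adj z u' →
      c u' = e z (ω z) → u' = u := by
    intro z u u' hz h1 h2 h3 h4
    exact Finset.card_le_one.1 (hU z hz).2.le u'
      (Finset.mem_filter.2 ⟨(SimpleGraph.mem_neighborFinset _ _ _).2 h3, h4⟩) u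
      (Finset.mem_filter.2 ⟨(SimpleGraph.mem_neighborFinset _ _ _).2 h1, h2⟩)
  set A := Finset.univ.filter fun z => c z = p ∧ ¬ LC G p c ρ e ω z with hA
  have hAm : ∀ z, z ∈ A ↔ c z = p ∧ ¬ LC G p c ρ e ω z := by
    intro z
    rw [hA, Finset.mem_filter]
    exact ⟨fun h => h.2, fun h => ⟨Finset.mem_univ _, h⟩⟩
  obtain ⟨c', h1, h2, h3⟩ := recol hc.1 A (fun z hz => ((hAm z).1 hz).1) (fun z => e z (ω z))
    (fun z hz => (hU z ((hAm z).1 hz).1).1) (fun z hz z' hz' hzz => by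
      intro h4
      obtain ⟨h5, h6⟩ := (hAm z).1 hz
      obtain ⟨h7, h8⟩ := (hAm z').1 hz'
      rcases lt_trichotomy (ρ z) (ρ z') with h9 | h9 | h9
      · exact h8 ⟨h7, z, h9, h5, hzz.symm, h4⟩
      · exact hzz.ne (hρ h9)
      · exact h6 ⟨h5, z', h9, h7, hzz, h4.symm⟩)
  have hQ : (Finset.univ.filter fun u => ∃ z ∈ A, G.Adj z u ∧ c u = e z (ω z)).card ≤ A.card := by
    have h4 : (Finset.univ.filter fun u => ∃ z ∈ A, G.Adj z u ∧ c u = e z (ω z)) ⊆
        A.biUnion fun z => (G.neighborFinset z).filter fun u => c u = e z (ω z) := by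
      intro u hu
      obtain ⟨-, z, hz, h5, h6⟩ := Finset.mem_filter.1 hu
      exact Finset.mem_biUnion.2 ⟨z, hz, Finset.mem_filter.2
        ⟨(SimpleGraph.mem_neighborFinset _ _ _).2 h5, h6⟩⟩
    refine (Finset.card_le_card h4).trans (Finset.card_biUnion_le.trans ?_)
    rw [Finset.card_eq_sum_ones A]
    exact Finset.sum_le_sum fun z hz => (hU z ((hAm z).1 hz).1).2.le
  refine ⟨c', ⟨h1, fun c'' h4 => ?_⟩, fun v => ?_⟩
  · have h5 := hc.2 c'' h4
    have h6 : (unc p c').card + A.card ≤ (unc p c).card + A.card :=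
      h3.trans (Nat.add_le_add_left hQ _)
    omega
  · have h4 : ¬ Bad G p D c ρ (r := r) e v ω := hω v (Finset.mem_univ v)
    unfold Bad at h4
    rw [not_lt] at h4
    refine le_trans (Nat.mul_le_mul_left 2 (Finset.card_le_card fun u hu => ?_)) h4
    obtain ⟨h5, h6⟩ := Finset.mem_filter.1 hu
    refine Finset.mem_filter.2 ⟨h5, ?_⟩
    rcases h2 u h6 with ⟨h7, h8⟩ | ⟨z, hz, h7, h8⟩
    · right
      by_contra h9
      exact h8 ((hAm u).2 ⟨h7, h9⟩)
    · left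
      have h9 := ((hAm z).1 hz).1
      refine ⟨?_, z, Finset.mem_filter.2 ⟨Finset.mem_univ _, h9, h7, fun u' h10 h11 => ?_⟩, h8.symm⟩
      · rw [h8]
        exact (hU z h9).1
      · exact hone z u u' h9 h7 h8 h10 (h11.trans h8)

/-- The main theorem: if all degrees are at most `D`, `p = D - k` and `600 k ≤ D`, there are vertex
labels up to `D` and edge labels below `D + 2 p`. -/
theorem main (G : SimpleGraph V) (D k : ℕ) (hD : ∀ v, G.degree v ≤ D) (hk1 : 1 ≤ k)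
    (hk6 : 600 * k ≤ D) : ∃ (f : V → ℕ) (m : ℕ → V → V), (∀ u v, G.Adj u v → f u ≠ f v) ∧
      (∀ v, f v ≤ D) ∧ PC G (D + 2 * (D - k)) m ∧ (∀ u v, G.Adj u v → ∃ a, m a u = v) ∧
      ∀ a v, m a v ≠ v → a + (D - k) ≤ f v ∨ f v + (D - k) ≤ a := by
  obtain ⟨c, hc⟩ := exists_mn G (D - k)
  obtain ⟨c', hc', hfew⟩ := spread hc hD hk1 hk6 rfl
  obtain ⟨f, hb, hbest⟩ := pick_f hc' hD hk1 hk6 rfl hfew
  obtain ⟨m, h1, h2, h3⟩ := total hb hbest
  exact ⟨f, m, hb.proper, hb.le, h1, h2, h3⟩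

end Pool.Agent.H8.HV
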