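import Pool.Agent.H8.HV.Hall

/-! One matching which covers the classes with large labels. -/

set_option autoImplicit false

open scoped Classical

namespace Pool.Agent.H8.HV

variable {V : Type} [Fintype V]

/-- a vertex colouring with the labels `0, …, D`; the labels at least `D - k` are large -/
structure Base (G : SimpleGraph V) (D k : ℕ) (f : V → ℕ) : Prop where
  proper : ∀ u v, G.Adj u v → f u ≠ f v
  sees : ∀ v, ∀ i < f v, ∃ u, G.Adj v u ∧ f u = i
  deg : ∀ v, G.degree v ≤ D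
  few : ∀ v, 2 * ((G.neighborFinset v).filter fun u => D - k ≤ f u).card ≤ D
  k1 : 1 ≤ k
  k6 : 600 * k ≤ D

variable {G : SimpleGraph V} {D k : ℕ} {f : V → ℕ}

theorem Base.pick (hb : Base G D k f) (v : V) (b : ℕ) (hbv : b ≤ f v) :
    ∃ c : ℕ → V, ∀ i < b, G.Adj v (c i) ∧ f (c i) = i := by
  have hex : ∀ i, ∃ u, i < b → G.Adj v u ∧ f u = i := by
    intro i
    by_cases hi : i < b
    · obtain ⟨u, hu⟩ := hb.sees v i (by omega)
      exact ⟨u, fun _ => hu⟩
    · exact ⟨v, fun h => absurd h hi⟩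
  choose c hc using hex
  exact ⟨c, hc⟩

theorem Base.sees_card (hb : Base G D k f) (v : V) (a b : ℕ) (hbv : b ≤ f v) :
    b - a ≤ ((G.neighborFinset v).filter fun u => a ≤ f u ∧ f u < b).card := by
  obtain ⟨c, hc⟩ := hb.pick v b hbv
  rw [← Nat.card_Ico]
  refine Finset.card_le_card_of_injOn c (fun i hi => ?_) fun i hi i' hi' e => ?_
  · rw [Finset.mem_coe, Finset.mem_Ico] at hi
    rw [Finset.mem_coe, Finset.mem_filter, SimpleGraph.mem_neighborFinset]
    have := hc i hi.2
    exact ⟨this.1, by rw [this.2]; exact hi.1, by rw [this.2]; exact hi.2⟩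
  · rw [Finset.mem_coe, Finset.mem_Ico] at hi hi'
    rw [← (hc i hi.2).2, ← (hc i' hi'.2).2, e]

theorem Base.rest (hb : Base G D k f) (v : V) (a b : ℕ) (hbv : b ≤ f v) (T : Finset V)
    (hT : ∀ u ∈ T, G.Adj v u ∧ ¬ (a ≤ f u ∧ f u < b)) : T.card + (b - a) ≤ D := by
  have h1 := hb.sees_card v a b hbv
  have h2 : Disjoint T ((G.neighborFinset v).filter fun u => a ≤ f u ∧ f u < b) := by
    rw [Finset.disjoint_left]
    intro u hu hu'
    exact (hT u hu).2 (Finset.mem_filter.1 hu').2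
  have h3 : T ∪ ((G.neighborFinset v).filter fun u => a ≤ f u ∧ f u < b) ⊆
      G.neighborFinset v := by
    intro u hu
    rcases Finset.mem_union.1 hu with h | h
    · rw [SimpleGraph.mem_neighborFinset]
      exact (hT u h).1
    · exact (Finset.mem_filter.1 h).1
  have h4 := Finset.card_le_card h3
  rw [Finset.card_union_of_disjoint h2, SimpleGraph.card_neighborFinset_eq_degree] at h4
  have := hb.deg v
  omega

theorem Base.le (hb : Base G D k f) (v : V) : f v ≤ D := by
  have := hb.rest v 0 (f v) le_rfl ∅ (by simp)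
  simp at this
  omega

/-- the vertices nearly all whose neighbours have large labels -/
noncomputable def SL (G : SimpleGraph V) (D k : ℕ) (f : V → ℕ) : Finset V :=
  Finset.univ.filter fun v => f v < 13 * D / 16 ∧ D - k ≤ G.degree v ∧
    ((G.neighborFinset v).filter fun u => f u < 13 * D / 16).card < D / 16

theorem Base.sl (hb : Base G D k f) {v : V} (hv : v ∈ SL G D k f) : f v < D / 16 := by
  obtain ⟨-, h1, h2, h3⟩ := Finset.mem_filter.1 hv
  have h4 := hb.sees_card v 0 (f v) le_rfl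
  have h5 : ((G.neighborFinset v).filter fun u => 0 ≤ f u ∧ f u < f v).card ≤
      ((G.neighborFinset v).filter fun u => f u < 13 * D / 16).card := by
    refine Finset.card_le_card fun u hu => ?_
    rw [Finset.mem_filter] at hu ⊢
    exact ⟨hu.1, by omega⟩
  omega

/-- the number of labels at `v` which join it to a vertex, one of the two not being large -/
noncomputable def nz (N : ℕ) (m : ℕ → V → V) (D k : ℕ) (f : V → ℕ) (v : V) : ℕ :=
  ((Us N m v).filter fun a => f v < D - k ∨ f (m a v) < D - k).card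

omit [Fintype V] in
theorem used_card {N : ℕ} {m : ℕ → V → V} (hm : PC G N m) (v : V) (T : Finset V)
    (hT : ∀ u ∈ T, u ≠ v ∧ (f v < D - k ∨ f u < D - k) ∧ ∃ a, m a v = u) :
    T.card ≤ nz N m D k f v := by
  unfold nz
  have h : T ⊆ ((Us N m v).filter fun a => f v < D - k ∨ f (m a v) < D - k).image
      fun a => m a v := by
    intro u hu
    obtain ⟨h1, h2, a, ha⟩ := hT u hu
    have hne : m a v ≠ v := by rw [ha]; exact h1
    refine Finset.mem_image.2 ⟨a, Finset.mem_filter.2 ⟨Finset.mem_filter.2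
      ⟨Finset.mem_range.2 (hm.adj a v hne).2, hne⟩, ?_⟩, ha⟩
    rw [ha]
    exact h2
  exact (Finset.card_le_card h).trans Finset.card_image_le

theorem Base.sl_top (hb : Base G D k f) {N : ℕ} {m : ℕ → V → V} (hm : PC G N m) {t : ℕ}
    (ht : t ≤ k)
    (hnz : ∀ v, nz N m D k f v ≤ t)
    {v : V} (hv : v ∈ SL G D k f) :
    D - 13 * D / 16 + D / 16 ≤ ((G.neighborFinset v).filter fun u =>
      13 * D / 16 ≤ f u ∧ f u < D - k ∧ ∀ a, m a v ≠ u).card := by
  have hk1 := hb.k1
  have hk6 := hb.k6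
  have hvX := hb.sl hv
  obtain ⟨-, h1, h2, h3⟩ := Finset.mem_filter.1 hv
  set T1 := (G.neighborFinset v).filter fun u => f u < 13 * D / 16 with hT1
  set T2 := (G.neighborFinset v).filter fun u => D - k ≤ f u with hT2
  set T3 := (G.neighborFinset v).filter fun u => ∃ a, m a v = u with hT3
  set T4 := (G.neighborFinset v).filter fun u =>
    13 * D / 16 ≤ f u ∧ f u < D - k ∧ ∀ a, m a v ≠ u with hT4
  have h4 : G.neighborFinset v ⊆ T1 ∪ (T2 ∪ (T3 ∪ T4)) := by
    intro u hu
    rw [Finset.mem_union, Finset.mem_union, Finset.mem_union, hT1, hT2, hT3, hT4,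
      Finset.mem_filter, Finset.mem_filter, Finset.mem_filter, Finset.mem_filter]
    by_cases c1 : f u < 13 * D / 16
    · exact Or.inl ⟨hu, c1⟩
    by_cases c2 : D - k ≤ f u
    · exact Or.inr (Or.inl ⟨hu, c2⟩)
    by_cases c3 : ∃ a, m a v = u
    · exact Or.inr (Or.inr (Or.inl ⟨hu, c3⟩))
    · push Not at c3
      exact Or.inr (Or.inr (Or.inr ⟨hu, by omega, by omega, c3⟩))
  have h5 := (Finset.card_le_card h4).trans (Finset.card_union_le _ _)
  have h6 := Finset.card_union_le T2 (T3 ∪ T4)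
  have h7 := Finset.card_union_le T3 T4
  rw [SimpleGraph.card_neighborFinset_eq_degree] at h5
  have h8 : T3.card ≤ t := by
    refine le_trans (used_card hm v T3 fun u hu => ?_)
      (hnz v)
    obtain ⟨hu1, hu2⟩ := Finset.mem_filter.1 hu
    rw [SimpleGraph.mem_neighborFinset] at hu1
    exact ⟨hu1.ne', Or.inl (by omega), hu2⟩
  have h9 := hb.few v
  rw [← hT2] at h9
  omega

theorem Base.top_sl (hb : Base G D k f) (u : V) (hu : 13 * D / 16 ≤ f u) (T : Finset V)
    (hT : ∀ v ∈ T, v ∈ SL G D k f ∧ G.Adj u v) : T.card ≤ D - 13 * D / 16 + D / 16 := by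
  have hk1 := hb.k1
  have hk6 := hb.k6
  have h := hb.rest u (D / 16) (13 * D / 16) hu T fun v hv => ⟨(hT v hv).2, fun h => by
    have := hb.sl (hT v hv).1
    omega⟩
  omega

/-- the weights of the classes in the middle -/
def wt (D : ℕ) (f : V → ℕ) (w : V) : ℕ := if D ≤ 2 * f w then 2 else 1

theorem sum_wt (D a b h : ℕ) (hh : D ≤ 2 * h) (hab : a ≤ h) (hb : h ≤ b) :
    (b - a) + (b - h) ≤ ∑ i ∈ Finset.Ico a b, if D ≤ 2 * i then 2 else 1 := by
  rw [← Finset.sum_Ico_consecutive _ hab hb]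
  have h1 : h - a ≤ ∑ i ∈ Finset.Ico a h, if D ≤ 2 * i then 2 else 1 := by
    rw [← Nat.card_Ico, Finset.card_eq_sum_ones]
    exact Finset.sum_le_sum fun i _ => by split_ifs <;> omega
  have h2 : (b - h) * 2 ≤ ∑ i ∈ Finset.Ico h b, if D ≤ 2 * i then 2 else 1 := by
    rw [← Nat.card_Ico, ← smul_eq_mul, ← Finset.sum_const]
    refine Finset.sum_le_sum fun i hi => ?_
    rw [Finset.mem_Ico] at hi
    rw [if_pos (by omega)]
  omega

theorem Base.mid (hb : Base G D k f) {N : ℕ} {m : ℕ → V → V} (hm : PC G N m) {t : ℕ}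
    (ht : t ≤ k)
    (hnz : ∀ v, nz N m D k f v ≤ t)
    {u : V} (hu : 13 * D / 16 ≤ f u) :
    D ≤ ∑ w ∈ (G.neighborFinset u).filter fun w =>
      D / 16 ≤ f w ∧ f w < 13 * D / 16 ∧ ∀ a, m a u ≠ w, wt D f w := by
  have hk1 := hb.k1
  have hk6 := hb.k6
  obtain ⟨c, hc⟩ := hb.pick u (13 * D / 16) hu
  set T := (Finset.Ico (D / 16) (13 * D / 16)).image c with hT
  set Y := T.filter fun w => ∃ a, m a u = w with hY
  have hTm : ∀ w ∈ T, G.Adj u w ∧ D / 16 ≤ f w ∧ f w < 13 * D / 16 := by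
    intro w hw
    obtain ⟨i, hi, rfl⟩ := Finset.mem_image.1 hw
    rw [Finset.mem_Ico] at hi
    have := hc i hi.2
    exact ⟨this.1, by rw [this.2]; exact hi.1, by rw [this.2]; exact hi.2⟩
  have h1 : T \ Y ⊆ (G.neighborFinset u).filter fun w =>
      D / 16 ≤ f w ∧ f w < 13 * D / 16 ∧ ∀ a, m a u ≠ w := by
    intro w hw
    obtain ⟨hw1, hw2⟩ := Finset.mem_sdiff.1 hw
    have := hTm w hw1
    rw [Finset.mem_filter, SimpleGraph.mem_neighborFinset]
    exact ⟨this.1, this.2.1, this.2.2, fun a e => hw2 (Finset.mem_filter.2 ⟨hw1, a, e⟩)⟩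
  refine le_trans ?_ (Finset.sum_le_sum_of_subset h1)
  have h2 : Y.card ≤ t := by
    refine le_trans (used_card hm u Y fun w hw => ?_)
      (hnz u)
    obtain ⟨hw1, hw2⟩ := Finset.mem_filter.1 hw
    have := hTm w hw1
    exact ⟨this.1.ne', Or.inr (by omega), hw2⟩
  have h3 : ∑ w ∈ Y, wt D f w ≤ 2 * Y.card := by
    rw [mul_comm, ← smul_eq_mul, ← Finset.sum_const]
    exact Finset.sum_le_sum fun w _ => by unfold wt; split_ifs <;> omega
  have h4 : ∑ w ∈ T, wt D f w = ∑ i ∈ Finset.Ico (D / 16) (13 * D / 16),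
      if D ≤ 2 * i then 2 else 1 := by
    rw [hT, Finset.sum_image]
    · refine Finset.sum_congr rfl fun i hi => ?_
      rw [Finset.mem_Ico] at hi
      unfold wt
      rw [(hc i hi.2).2]
    · intro i hi i' hi' e
      rw [Finset.mem_coe, Finset.mem_Ico] at hi hi'
      rw [← (hc i hi.2).2, ← (hc i' hi'.2).2, e]
  have h5 := sum_wt D (D / 16) (13 * D / 16) ((D + 1) / 2) (by omega) (by omega) (by omega)
  have h6 : ∑ w ∈ T \ Y, wt D f w + ∑ w ∈ Y, wt D f w = ∑ w ∈ T, wt D f w :=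
    Finset.sum_sdiff (Finset.filter_subset _ _)
  omega

theorem Base.load (hb : Base G D k f) (w : V) (T : Finset V)
    (hT : ∀ u ∈ T, G.Adj w u ∧ 13 * D / 16 ≤ f u) (hw : f w < 13 * D / 16) :
    wt D f w * T.card ≤ D := by
  have h := hb.rest w 0 (f w) le_rfl T fun u hu => ⟨(hT u hu).1, fun h => by
    have := (hT u hu).2
    omega⟩
  unfold wt
  split_ifs with h1
  · omega
  · omega

theorem astep (hb : Base G D k f) {N : ℕ} {m : ℕ → V → V} (hm : PC G N m) {t : ℕ} (ht : t ≤ k)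
    (hnz : ∀ v, nz N m D k f v ≤ t) :
    ∃ g : V → V, (∀ v, g (g v) = v) ∧
      (∀ v, g v ≠ v → G.Adj v (g v) ∧ f v + t + 1 ≤ D ∧
        (13 * D / 16 ≤ f v ∨ 13 * D / 16 ≤ f (g v)) ∧ ∀ a, m a v ≠ g v) ∧
      (∀ v ∈ SL G D k f, g v ≠ v) ∧ ∀ v, 13 * D / 16 ≤ f v → f v + t + 1 ≤ D → g v ≠ v := by
  have hk1 := hb.k1
  have hk6 := hb.k6
  by_cases hV : Nonempty V
  swap
  · exact ⟨id, fun v => absurd ⟨v⟩ hV, fun v => absurd ⟨v⟩ hV, fun v => absurd ⟨v⟩ hV,
      fun v => absurd ⟨v⟩ hV⟩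
  obtain ⟨φ1, h1, h2⟩ := hallw (SL G D k f) (fun v => (G.neighborFinset v).filter fun u =>
      13 * D / 16 ≤ f u ∧ f u < D - k ∧ ∀ a, m a v ≠ u) (fun _ => 1)
      (D - 13 * D / 16 + D / 16) (by omega) (fun v hv => by
        rw [← Finset.card_eq_sum_ones]
        exact hb.sl_top hm ht hnz hv) (fun u => by
        rw [one_mul]
        by_cases hu : 13 * D / 16 ≤ f u
        · refine hb.top_sl u hu _ fun v hv => ?_
          obtain ⟨hv1, hv2⟩ := Finset.mem_filter.1 hv
          rw [Finset.mem_filter, SimpleGraph.mem_neighborFinset] at hv2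
          exact ⟨hv1, hv2.1.symm⟩
        · rw [Finset.card_eq_zero.2]
          · exact Nat.zero_le _
          · rw [Finset.filter_eq_empty_iff]
            intro v _ hv
            exact hu (Finset.mem_filter.1 hv).2.1)
  set Lf : Finset V := Finset.univ.filter fun u => 13 * D / 16 ≤ f u ∧ f u + t + 1 ≤ D ∧
    ∀ v ∈ SL G D k f, φ1 v ≠ u with hLf
  obtain ⟨φ2, h3, h4⟩ := hallw Lf (fun u => (G.neighborFinset u).filter fun w =>
      D / 16 ≤ f w ∧ f w < 13 * D / 16 ∧ ∀ a, m a u ≠ w) (wt D f) D (by omega)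
      (fun u hu => hb.mid hm ht hnz (Finset.mem_filter.1 hu).2.1) (fun w => by
        by_cases hw : f w < 13 * D / 16
        · refine hb.load w _ (fun u hu => ?_) hw
          obtain ⟨hu1, hu2⟩ := Finset.mem_filter.1 hu
          rw [Finset.mem_filter, SimpleGraph.mem_neighborFinset] at hu2
          exact ⟨hu2.1.symm, (Finset.mem_filter.1 hu1).2.1⟩
        · rw [Finset.card_eq_zero.2]
          · omega
          · rw [Finset.filter_eq_empty_iff]
            intro u _ hu
            exact hw (Finset.mem_filter.1 hu).2.2.1)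
  have g1 : ∀ v ∈ SL G D k f, G.Adj v (φ1 v) ∧ 13 * D / 16 ≤ f (φ1 v) ∧ f (φ1 v) < D - k ∧
      ∀ a, m a v ≠ φ1 v := by
    intro v hv
    have := h1 v hv
    rw [Finset.mem_filter, SimpleGraph.mem_neighborFinset] at this
    exact this
  have g2 : ∀ u ∈ Lf, G.Adj u (φ2 u) ∧ D / 16 ≤ f (φ2 u) ∧ f (φ2 u) < 13 * D / 16 ∧
      ∀ a, m a u ≠ φ2 u := by
    intro u hu
    have := h3 u hu
    rw [Finset.mem_filter, SimpleGraph.mem_neighborFinset] at this
    exact this
  have g3 : ∀ v ∈ SL G D k f, f v < D / 16 := fun v hv => hb.sl hv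
  have g4 : ∀ u ∈ Lf, 13 * D / 16 ≤ f u ∧ f u + t + 1 ≤ D ∧ ∀ v ∈ SL G D k f, φ1 v ≠ u :=
    fun u hu => (Finset.mem_filter.1 hu).2
  set φ : V → V := fun v => if v ∈ SL G D k f then φ1 v else φ2 v with hφ
  have e1 : ∀ v ∈ SL G D k f, φ v = φ1 v := fun v hv => if_pos hv
  have e2 : ∀ v ∈ Lf, φ v = φ2 v := fun v hv => if_neg fun h => by
    have := g3 v h
    have := (g4 v hv).1
    omega
  obtain ⟨g, i1, i2, i3⟩ := invol (SL G D k f ∪ Lf) φ (by
    intro a ha b hb' e
    rw [Finset.mem_coe, Finset.mem_union] at ha hb'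
    rcases ha with ha | ha <;> rcases hb' with hb' | hb'
    · rw [e1 a ha, e1 b hb'] at e
      exact h2 ha hb' e
    · rw [e1 a ha, e2 b hb'] at e
      have := (g1 a ha).2.1
      have := (g2 b hb').2.2.1
      rw [e] at *
      omega
    · rw [e2 a ha, e1 b hb'] at e
      have := (g1 b hb').2.1
      have := (g2 a ha).2.2.1
      rw [e] at *
      omega
    · rw [e2 a ha, e2 b hb'] at e
      exact h4 ha hb' e) (by
    intro a ha h
    rw [Finset.mem_union] at ha
    rcases ha with ha | ha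
    · rw [e1 a ha, Finset.mem_union] at h
      rcases h with h | h
      · have := g3 _ h
        have := (g1 a ha).2.1
        omega
      · exact (g4 _ h).2.2 a ha rfl
    · rw [e2 a ha, Finset.mem_union] at h
      rcases h with h | h
      · have := g3 _ h
        have := (g2 a ha).2.1
        omega
      · have := (g4 _ h).1
        have := (g2 a ha).2.2.1
        omega)
  have pair : ∀ a ∈ SL G D k f ∪ Lf, G.Adj a (φ a) ∧ f a + t + 1 ≤ D ∧ f (φ a) + t + 1 ≤ D ∧
      (13 * D / 16 ≤ f a ∨ 13 * D / 16 ≤ f (φ a)) ∧ ∀ b, m b a ≠ φ a := by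
    intro a ha
    rcases Finset.mem_union.1 ha with h | h
    · rw [e1 a h]
      have h5 := g1 a h
      have h6 := g3 a h
      exact ⟨h5.1, by omega, by omega, Or.inr h5.2.1, h5.2.2.2⟩
    · rw [e2 a h]
      have h5 := g2 a h
      have h6 := g4 a h
      exact ⟨h5.1, h6.2.1, by omega, Or.inl h6.1, h5.2.2.2⟩
  have hne : ∀ a ∈ SL G D k f ∪ Lf, g a ≠ a := fun a ha => by
    rw [i2 a ha]
    exact (pair a ha).1.ne'
  refine ⟨g, i1, fun v hv => ?_, fun v hv => hne v (Finset.mem_union_left _ hv),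
    fun v hv hvt => ?_⟩
  · rcases i3 v hv with ⟨h5, h6⟩ | ⟨h5, h6⟩
    · rw [h6]
      have := pair v h5
      exact ⟨this.1, this.2.1, this.2.2.2.1, this.2.2.2.2⟩
    · have := pair _ h5
      rw [h6] at this
      exact ⟨this.1.symm, this.2.2.1, this.2.2.2.1.symm, fun a e =>
        this.2.2.2.2 a (by rw [← e, hm.inv])⟩
  · by_cases h5 : ∃ w ∈ SL G D k f, φ1 w = v
    · obtain ⟨w, hw, hwv⟩ := h5
      have h6 := i2 w (Finset.mem_union_left _ hw)
      rw [e1 w hw, hwv] at h6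
      have h7 := i1 w
      rw [h6] at h7
      rw [h7]
      intro h8
      have := g3 w hw
      rw [h8] at this
      omega
    · push Not at h5
      exact hne v (Finset.mem_union_right _ (Finset.mem_filter.2 ⟨Finset.mem_univ _, hv, hvt, h5⟩))

end Pool.Agent.H8.HV
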